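import Pool.Agent.Lib.TWV.Leaf
import Pool.Agent.Lib.TW.TwoAll

/-!
# TANK W, tame value groups of any rational rank: the class

* `PFc p V`: the localization at `p` of the value group of `V` is in a finitely generated module;
* `rel_unique`: the real valuations with a given valuation ring are proportional;
* `TDCls p k`: residue field `k`, defect at most two, or defect at most three and `PFc p V`;
* `realCls_td_of`: the exit.
-/

set_option autoImplicit false

namespace Pool.Agent.TWV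

open Pool.Agent.H15JM (RVal)
open Pool.Agent.LU2 Pool.Agent.LU2G Pool.Agent.LU2H
open Pool.Agent.LUC (LUs)
open Pool.Agent.D2 (lur_of_lurV)
open Pool.Agent.TW (Ctx ctx_of_ctxR ZeroCls lurV_at le_of_defLE Cls RealCls)
open Pool.Agent.TWS (VG)

universe u

/-! ### Groups -/

theorem PF.sub {p : ℕ} {Γ Γ' : AddSubgroup ℝ} (h : PF p Γ') (hle : Γ ≤ Γ') : PF p Γ := by
  obtain ⟨n, a, ha⟩ := h
  exact ⟨n, a, fun g hg => ha g (hle hg)⟩

/-- Scaling. -/
theorem PF.scale {p : ℕ} {Γ Γ' : AddSubgroup ℝ} (h : PF p Γ') {c : ℝ}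
    (hc : ∀ g ∈ Γ, ∃ g' ∈ Γ', g = c * g') : PF p Γ := by
  obtain ⟨n, a, ha⟩ := h
  refine ⟨n, fun i => c * a i, fun g hg => ?_⟩
  obtain ⟨g', hg', rfl⟩ := hc g hg
  obtain ⟨m, hm, l, hl⟩ := ha g' hg'
  refine ⟨m, hm, l, ?_⟩
  rw [mul_left_comm, hl, Finset.mul_sum]
  exact Finset.sum_congr rfl fun i _ => by ring

/-! ### Real valuations -/

/-- The group of the values of `v`. -/
def vals {K : Type u} [Field K] (v : RVal K) : AddSubgroup ℝ where
  carrier := {a | ∃ g, g ≠ 0 ∧ v g = a}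
  add_mem' := by
    rintro a b ⟨g, hg0, rfl⟩ ⟨h, hh0, rfl⟩
    exact ⟨g * h, mul_ne_zero hg0 hh0, v.map_mul hg0 hh0⟩
  zero_mem' := ⟨1, one_ne_zero, v.map_one⟩
  neg_mem' := by
    rintro a ⟨g, hg0, rfl⟩
    exact ⟨g⁻¹, inv_ne_zero hg0, v.map_inv hg0⟩

theorem mem_vals {K : Type u} [Field K] {v : RVal K} {a : ℝ} :
    a ∈ vals v ↔ ∃ g, g ≠ 0 ∧ v g = a := Iff.rfl

/-- The real valuations with a given ring are proportional. -/
theorem rel_unique {K : Type u} [Field K] {v w : RVal K}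
    (h : ∀ g : K, g ≠ 0 → (0 ≤ v g ↔ 0 ≤ w g)) : ∃ c : ℝ, ∀ g : K, g ≠ 0 → v g = c * w g := by
  have hpos : ∀ g : K, g ≠ 0 → (0 < v g ↔ 0 < w g) := by
    intro g hg
    have h1 := h g⁻¹ (inv_ne_zero hg)
    rw [v.map_inv hg, w.map_inv hg] at h1
    constructor
    · intro h2
      by_contra h3
      have := h1.2 (by linarith [not_lt.1 h3])
      linarith
    · intro h2
      by_contra h3
      have := h1.1 (by linarith [not_lt.1 h3])
      linarith
  by_cases ht : ∃ t : K, t ≠ 0 ∧ 0 < w t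
  · obtain ⟨t, ht0, ht⟩ := ht
    have hvt := (hpos t ht0).2 ht
    refine ⟨v t / w t, fun g hg => ?_⟩
    -- comparison with all the rational numbers
    have key : ∀ (n : ℕ) (m : ℤ), 0 < n → ((m : ℝ) * v t ≤ n * v g ↔ (m : ℝ) * w t ≤ n * w g) := by
      intro n m hn
      have h1 := h (g ^ n / t ^ m) (div_ne_zero (pow_ne_zero _ hg) (zpow_ne_zero _ ht0))
      rw [v.map_div (pow_ne_zero _ hg) (zpow_ne_zero _ ht0), w.map_div (pow_ne_zero _ hg)
        (zpow_ne_zero _ ht0), v.map_pow hg, w.map_pow hg, v.map_zpow ht0, w.map_zpow ht0,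
        sub_nonneg, sub_nonneg] at h1
      exact h1
    have hq : ∀ q : ℚ, ((q : ℝ) ≤ v g / v t ↔ (q : ℝ) ≤ w g / w t) := by
      intro q
      have hd : (0 : ℝ) < q.den := by exact_mod_cast q.den_pos
      have e : (q : ℝ) = q.num / q.den := by exact_mod_cast (Rat.num_div_den q).symm
      rw [e, div_le_div_iff₀ hd hvt, div_le_div_iff₀ hd ht]
      have := key q.den q.num q.den_pos
      rw [mul_comm (v g), mul_comm (w g)]
      exact this
    have heq : v g / v t = w g / w t := by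
      refine le_antisymm ?_ ?_
      · by_contra h1
        obtain ⟨q, hq1, hq2⟩ := exists_rat_btwn (not_le.1 h1)
        exact absurd ((hq q).1 hq2.le) (not_le.2 hq1)
      · by_contra h1
        obtain ⟨q, hq1, hq2⟩ := exists_rat_btwn (not_le.1 h1)
        exact absurd ((hq q).2 hq2.le) (not_le.2 hq1)
    rw [div_eq_div_iff hvt.ne' ht.ne'] at heq
    field_simp
    linarith
  · push Not at ht
    have hw : ∀ g : K, g ≠ 0 → w g = 0 := by
      intro g hg
      have h1 := ht g hg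
      have h2 := ht g⁻¹ (inv_ne_zero hg)
      rw [w.map_inv hg] at h2
      linarith
    have hv : ∀ g : K, g ≠ 0 → v g = 0 := by
      intro g hg
      have h1 := (h g hg).2 (hw g hg).ge
      have h2 := (h g⁻¹ (inv_ne_zero hg)).2 (hw _ (inv_ne_zero hg)).ge
      rw [v.map_inv hg] at h2
      linarith
    exact ⟨0, fun g hg => by rw [hv g hg, zero_mul]⟩

/-- The localization at `p` of the value group of `V`, of rank one, is in a finitely generated
module. -/
def PFc (p : ℕ) {K : Type u} [Field K] (V : ValuationSubring K) : Prop :=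
  ∃ v : RVal K, Rel V v ∧ PF p (vals v)

theorem PFc.of_rel {p : ℕ} {K : Type u} [Field K] {V : ValuationSubring K} (h : PFc p V)
    {w : RVal K} (hw : Rel V w) : PF p (vals w) := by
  obtain ⟨v, hv, hP⟩ := h
  obtain ⟨c, hc⟩ := rel_unique (v := w) (w := v) fun g hg => (hw g hg).symm.trans (hv g hg)
  refine hP.scale (c := c) ?_
  rintro _ ⟨g, hg, rfl⟩
  exact ⟨v g, ⟨g, hg, rfl⟩, hc g hg⟩

theorem PFc.comap {p : ℕ} {K L : Type u} [Field K] [Field L] {V : ValuationSubring K}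
    (h : PFc p V) (j : L →+* K) : PFc p (V.comap j) := by
  obtain ⟨v, hv, hP⟩ := h
  have hj : ∀ g : L, g ≠ 0 → j g ≠ 0 := fun g hg => (_root_.map_ne_zero j).2 hg
  refine ⟨rcomap v j, fun g hg => ?_, hP.sub ?_⟩
  · rw [ValuationSubring.mem_comap]
    exact hv _ (hj g hg)
  · rintro _ ⟨g, hg, rfl⟩
    exact ⟨j g, hj g hg, rfl⟩

/-! ### The class -/

/-- Residue field `k`, and defect at most two, or defect at most three and the localization at `p`
of the value group in a finitely generated module. -/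
def TDCls (p : ℕ) (k : Type u) [Field k] : Cls k := fun K _ _ V =>
  (∀ f ∈ V, ∃ c : k, V.valuation (f - algebraMap k K c) < 1) ∧
    (DefLE k V 2 ∨ (DefLE k V 3 ∧ PFc p V))

theorem TDCls.sub (p : ℕ) (k : Type u) [Field k] : (TDCls p k).Sub := by
  rintro K _ _ V hk hfin ⟨h0, hD⟩ L
  refine ⟨ZeroCls.sub k K V hk hfin h0 L, ?_⟩
  rcases hD with hD | ⟨hD, hP⟩
  · exact Or.inl (DefLE.comap' hk hfin L hD)
  · exact Or.inr ⟨DefLE.comap' hk hfin L hD, hP.comap (algebraMap L K)⟩

/-- The exit. -/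
theorem realCls_td_of (p : ℕ) [Fact p.Prime] {k : Type u} [Field k] [IsAlgClosed k] [CharP k p]
    (H : ∀ (Ω : Type u) [Field Ω] [Algebra k Ω] [IsAlgClosed Ω] [CharP Ω p] (v : RVal Ω) (r : ℕ),
      Ctx k v r → ∀ E : IntermediateField k Ω, E.FG → (∀ g : Ω, IsAlgebraic E g) →
      ∀ n : ℕ, Algebra.trdeg k E = n → (n ≤ r + 2 ∨ (n = r + 3 ∧ PF p (VG v E))) →
      LUs v (algebraMap k Ω).range E.toSubfield) :
    RealCls (TDCls p k) := by
  rintro K _ _ hK V hk hR ⟨hres, hcase⟩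
  have h1 : Algebra.EssFiniteType k K := IntermediateField.fg_top_iff.1 hK
  obtain ⟨m, hm⟩ := Cardinal.lt_aleph0.1 (_root_.trdeg_lt_aleph0 k K)
  refine lur_of_lurV (lurV_at (m := m) V ?_ hK hk hR hres hm)
  intro Ω _ _ _ v r L e hctx hr hV hL halg
  have : CharP Ω p := charP_of_injective_algebraMap (algebraMap k Ω).injective p
  refine H Ω v r (ctx_of_ctxR hctx hr) L hL halg m (by rw [← e.trdeg_eq, hm]) ?_
  rcases hcase with hD | ⟨hD, hP⟩
  · exact Or.inl (le_of_defLE hres hD hm e hctx hV)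
  by_cases h2 : m ≤ r + 2
  · exact Or.inl h2
  have h3 : m ≤ r + 3 := le_of_defLE hres hD hm e hctx hV
  refine Or.inr ⟨by omega, ?_⟩
  -- the valuation of `K`
  let j : K →+* Ω := (algebraMap L Ω).comp (e : K →+* L)
  have hrel : Rel V (rcomap v j) := fun g hg => hV g hg
  refine (hP.of_rel hrel).sub ?_
  rintro _ ⟨a, ha, ha0, rfl⟩
  refine ⟨e.symm ⟨a, ha⟩, ?_, ?_⟩
  · intro h0
    have h4 := (EmbeddingLike.map_eq_zero_iff (f := e.symm)).1 h0
    exact ha0 (congrArg Subtype.val h4)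
  · change v ((e (e.symm ⟨a, ha⟩) : L) : Ω) = v a
    rw [e.apply_symm_apply]

end Pool.Agent.TWV
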