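import Pool.Agent.Lib.TWF.FF3

/-!
# TANK W, the first floor, rational rank `r`

`C` closed, `t = (x_1, .., x_r, y)` orthogonal in `C` up to a constant (`OI`), `W` the algebraic
closure of `k(x)` in `C`.

* `pb_Wr`: the elements of `W` are separable over `k(x)`, `x` is a `p`-basis of `W`;
* `ff_far_r`: `y` is not in the closure of the perfect closure of `W`.
-/

set_option autoImplicit false

open Polynomial

namespace Pool.Agent.TWV

open Pool.Agent.H15JM (RVal)
open Pool.Agent.LU1 (VPos adj)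
open Pool.Agent.D2 (Ctx0)
open Pool.Agent.D2P (hen clI mem_clI)
open Pool.Agent.TW (Full PBasis pcomb mon kr)
open Pool.Agent.TWM
open Pool.Agent.TWF (algIn mem_algIn perfC mem_perfC)

universe u

variable {k Ω : Type u} [Field k] [Field Ω] [Algebra k Ω] {v : RVal Ω}
  {C W : IntermediateField k Ω} {r : ℕ}

section Mon

variable {p : ℕ} [hp : Fact p.Prime] (t : Fin (r + 1) → Ω)

/-- The first `r` coordinates. -/
def tX (t : Fin (r + 1) → Ω) (i : Fin r) : Ω := t i.castSucc

/-- Coefficients supported on the monomials in `x`. -/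
def cR (a : (Fin r → Fin p) → Ω) (α : Fin (r + 1) → Fin p) : Ω :=
  if (α (Fin.last r) : ℕ) = 0 then a (fun i => α i.castSucc) else 0

/-- The zero exponent. -/
def z0 (p : ℕ) [Fact p.Prime] : Fin p := ⟨0, (Fact.out : p.Prime).pos⟩

/-- The index of `y`. -/
def iR (p : ℕ) [hp : Fact p.Prime] (r : ℕ) : Fin (r + 1) → Fin p :=
  Fin.snoc (α := fun _ => Fin p) (fun _ => z0 p) ⟨1, hp.out.one_lt⟩

omit [Field k] [Algebra k Ω] hp in
theorem mon_snoc (β : Fin r → Fin p) (l : Fin p) :
    mon t (Fin.snoc (α := fun _ => Fin p) β l) = mon (tX t) β * t (Fin.last r) ^ (l : ℕ) := by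
  rw [mon, Fin.prod_univ_castSucc, mon]
  simp [tX]

omit hp in
theorem sum_snoc (f : (Fin (r + 1) → Fin p) → Ω) :
    ∑ α, f α = ∑ β : Fin r → Fin p, ∑ l : Fin p, f (Fin.snoc (α := fun _ => Fin p) β l) := by
  rw [← (Fin.snocEquiv fun _ : Fin (r + 1) => Fin p).sum_comp, Fintype.sum_prod_type,
    Finset.sum_comm]
  rfl

omit [Field k] [Algebra k Ω] in
theorem cR_snoc (a : (Fin r → Fin p) → Ω) (β : Fin r → Fin p) (l : Fin p) :
    cR a (Fin.snoc (α := fun _ => Fin p) β l) = if (l : ℕ) = 0 then a β else 0 := by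
  rw [cR]
  simp

omit [Field k] [Algebra k Ω] in
theorem pcomb_cR (a : (Fin r → Fin p) → Ω) : pcomb t (cR a) = pcomb (tX t) a := by
  have hp0 : 0 < p := hp.out.pos
  rw [pcomb, sum_snoc, pcomb]
  refine Finset.sum_congr rfl fun β _ => ?_
  rw [Finset.sum_eq_single (z0 p)]
  · rw [cR_snoc, mon_snoc, z0]
    simp
  · intro l _ hl
    have h1 : (l : ℕ) ≠ 0 := fun h2 => hl (Fin.ext h2)
    rw [cR_snoc, if_neg h1, zero_pow hp0.ne', zero_mul]
  · intro h1
    exact absurd (Finset.mem_univ _) h1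

omit [Field k] [Algebra k Ω] in
theorem mon_iR : mon t (iR p r) = t (Fin.last r) := by
  rw [iR, mon_snoc, mon]
  simp [z0]

open Classical in
omit [Field k] [Algebra k Ω] in
theorem pcomb_iR : pcomb t (fun α => if α = iR p r then 1 else 0) = t (Fin.last r) := by
  have hp0 : 0 < p := hp.out.pos
  rw [pcomb, Finset.sum_eq_single (iR p r)]
  · rw [if_pos rfl, one_pow, one_mul, mon_iR]
  · intro α _ hα
    rw [if_neg hα, zero_pow hp0.ne', zero_mul]
  · intro h1
    exact absurd (Finset.mem_univ _) h1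

omit [Field k] [Algebra k Ω] in
theorem cR_iR (a : (Fin r → Fin p) → Ω) : cR a (iR p r) = 0 := by
  rw [iR, cR_snoc]
  simp

end Mon

section Two

variable {p : ℕ} [hp : Fact p.Prime] [CharP Ω p] {t : Fin (r + 1) → Ω} {c₀ : ℝ}

omit [CharP Ω p] in
/-- Orthogonality of the monomials in `x`. -/
theorem oi_xR (hO : OI p v C t c₀) {a : (Fin r → Fin p) → Ω} (ha : ∀ i, a i ∈ C) {R : ℝ}
    (hr : v.Ge R (pcomb (tX t) a)) (β : Fin r → Fin p) :
    v.Ge (R - c₀) (a β ^ p * mon (tX t) β) := by
  have h1 := hO (cR a) (fun α => by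
    rw [cR]
    split_ifs
    · exact ha _
    · exact zero_mem _) R (by rw [pcomb_cR]; exact hr)
      (Fin.snoc (α := fun _ => Fin p) β (z0 p))
  rw [mon_snoc, cR_snoc, if_pos (by simp [z0])] at h1
  simpa [z0] using h1

/-- Orthogonality of `y` and the monomials in `x`. -/
theorem oi_yR (hO : OI p v C t c₀) {a : (Fin r → Fin p) → Ω} (ha : ∀ i, a i ∈ C) {R : ℝ}
    (hr : v.Ge R (t (Fin.last r) - pcomb (tX t) a)) : v.Ge (R - c₀) (t (Fin.last r)) := by
  classical
  have h1 := hO (fun α => (if α = iR p r then 1 else 0) - cR a α) (fun α => by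
    refine sub_mem ?_ ?_
    · split_ifs
      · exact one_mem _
      · exact zero_mem _
    · rw [cR]
      split_ifs
      · exact ha _
      · exact zero_mem _) R (by
        rw [← pcomb_sub, pcomb_cR]
        have h2 := pcomb_iR (p := p) t
        rw [h2]
        exact hr) (iR p r)
  rw [if_pos rfl, cR_iR, sub_zero, one_pow, one_mul, mon_iR] at h1
  exact h1

omit hp [CharP Ω p] in
theorem mon_ne0 {x : Fin r → Ω} (hx : ∀ i, x i ≠ 0) (β : Fin r → Fin p) : mon x β ≠ 0 :=
  Finset.prod_ne_zero_iff.2 fun i _ => pow_ne_zero _ (hx i)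

omit [CharP Ω p] in
/-- Independence of the monomials in `x` over `C^p`. -/
theorem ind_xR (hO : OI p v C t c₀) (hx0 : ∀ i, tX t i ≠ 0) {a : (Fin r → Fin p) → Ω}
    (ha : ∀ i, a i ∈ C) (h0 : pcomb (tX t) a = 0) (β : Fin r → Fin p) : a β = 0 := by
  by_contra hne
  have h1 := oi_xR hO ha (R := v (a β ^ p * mon (tX t) β) + c₀ + 1) (by
    rw [h0]
    exact RVal.Ge.zero) β (mul_ne_zero (pow_ne_zero _ hne) (mon_ne0 hx0 β))
  linarith

end Two

section Sep

variable (p : ℕ) [hp : Fact p.Prime] [CharP k p] [CharP Ω p] [IsAlgClosed k]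
  {t : Fin (r + 1) → Ω} {c₀ : ℝ}

/-- `x` is a `p`-basis of `W`, and `W` is separable over `k(x)`. -/
theorem pb_Wr (hO : OI p v C t c₀) (hx0 : ∀ i, tX t i ≠ 0) (hxC : ∀ i, tX t i ∈ C)
    (halg : AlgebraicIndependent k (tX t)) :
    (∀ a ∈ algIn C (IntermediateField.adjoin k (Set.range (tX t))),
      IsSeparable (IntermediateField.adjoin k (Set.range (tX t))) a) ∧
      PBasis p (algIn C (IntermediateField.adjoin k (Set.range (tX t)))) (tX t) := by
  have hle : IntermediateField.adjoin k (Set.range (tX t)) ≤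
      algIn C (IntermediateField.adjoin k (Set.range (tX t))) := fun a ha =>
    mem_algIn.2 ⟨(IntermediateField.adjoin_le_iff.2 (by
      rintro _ ⟨i, rfl⟩
      exact hxC i)) ha,
      isAlgebraic_algebraMap (⟨a, ha⟩ : IntermediateField.adjoin k (Set.range (tX t)))⟩
  have hpb := TW.P4bAux.pbasis_adj (k := k) p halg
  have hsep := sep_of_ind (p := p) hle (fun a ha => (mem_algIn.1 ha).2) hpb.span
    fun c hc h1 α => ind_xR hO hx0 (fun i => (mem_algIn.1 (hc i)).1) h1 α
  exact ⟨hsep, hpb.of_sep p hle hsep⟩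

/-- **The first floor, finite radius.** -/
theorem ff_far_r [IsAlgClosed Ω] (hO : OI p v C t c₀) (ht0 : ∀ i, t i ≠ 0)
    (htC : ∀ i, t i ∈ C) (halg : AlgebraicIndependent k (tX t)) :
    t (Fin.last r) ∉ clI v (perfC p (algIn C (IntermediateField.adjoin k (Set.range (tX t))))) := by
  classical
  have hp2 : (2 : ℝ) ≤ p := by exact_mod_cast hp.out.two_le
  have hp0 : (0 : ℝ) < p := by linarith
  have hx0 : ∀ i, tX t i ≠ 0 := fun i => ht0 _
  have hxC : ∀ i, tX t i ∈ C := fun i => htC _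
  set y := t (Fin.last r) with hy
  have hyC : y ∈ C := htC _
  have hy0 : y ≠ 0 := ht0 _
  set W := algIn C (IntermediateField.adjoin k (Set.range (tX t))) with hW
  have hdig : ∀ w ∈ W, ∃ a : (Fin r → Fin p) → Ω, (∀ i, a i ∈ W) ∧ w = pcomb (tX t) a :=
    fun w hw => (pb_Wr p hO hx0 hxC halg).2.span w hw
  have hc0 : 0 ≤ c₀ := by
    have h1 := oi_yR hO (a := fun _ => 0) (fun _ => zero_mem _) (R := v y) (by
      have h2 : y - pcomb (tX t) (fun _ : Fin r → Fin p => (0 : Ω)) = y := by
        rw [pcomb]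
        simp [hp.out.ne_zero]
      rw [h2]
      exact RVal.ge_self _) hy0
    linarith
  -- descent of the exponent
  have key : ∀ n : ℕ, ∀ (R : ℝ) (f : Ω), f ∈ C → ∀ w ∈ W, v.Ge (p ^ n * R - c₀) (f ^ p ^ n - w) →
      ∃ w' ∈ W, v.Ge (R - c₀) (f - w') := by
    intro n
    induction n with
    | zero =>
      intro R f _ w hw h1
      rw [pow_zero, one_mul, pow_zero, pow_one] at h1
      exact ⟨w, hw, h1⟩
    | succ n ih =>
      intro R f hf w hw h1
      obtain ⟨a, ha, h2⟩ := hdig w hw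
      let o : Fin r → Fin p := fun _ => z0 p
      let b : (Fin r → Fin p) → Ω := fun i => if i = o then f ^ p ^ n - a o else -a i
      have hmo : mon (tX t) o = 1 := by
        rw [mon]
        simp [o, z0]
      have hbC : ∀ i, b i ∈ C := by
        intro i
        simp only [b]
        split_ifs
        · exact sub_mem (pow_mem hf _) (mem_algIn.1 (ha _)).1
        · exact neg_mem (mem_algIn.1 (ha _)).1
      have hsum : pcomb (tX t) b = f ^ p ^ (n + 1) - w := by
        have h3 : ∀ i : Fin r → Fin p, b i ^ p * mon (tX t) i =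
            (if i = o then f ^ p ^ (n + 1) else 0) - a i ^ p * mon (tX t) i := by
          intro i
          simp only [b]
          split_ifs with h4
          · subst h4
            rw [sub_pow_char, ← pow_mul, ← pow_succ, hmo]
            ring
          · rw [← zero_sub, sub_pow_char, zero_pow hp.out.ne_zero]
            ring
        rw [pcomb, Finset.sum_congr rfl fun i _ => h3 i, Finset.sum_sub_distrib, h2,
          Finset.sum_ite_eq' Finset.univ o, if_pos (Finset.mem_univ _)]
        rfl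
      have h3 := oi_xR hO hbC (R := p ^ (n + 1) * R - c₀) (by rw [hsum]; exact h1) o
      have h4 : b o = f ^ p ^ n - a o := by simp [b]
      rw [h4, hmo, mul_one] at h3
      have h6 : v.Ge ((p ^ (n + 1) * R - c₀ - c₀) / p) (f ^ p ^ n - a o) := by
        intro h7
        have h8 := h3 (pow_ne_zero _ h7)
        rw [v.map_pow h7] at h8
        rw [div_le_iff₀ hp0]
        linarith
      refine ih R f hf (a o) (ha _) (h6.mono ?_)
      rw [le_div_iff₀ hp0, pow_succ]
      nlinarith
  intro hmem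
  -- an approximation
  set R : ℝ := v y + 3 * c₀ + 1 with hR
  obtain ⟨g, hg, h1⟩ := mem_clI.1 hmem R
  obtain ⟨n, hn⟩ := (mem_perfC p).1 hg
  have h2 : v.Ge (p ^ n * R - c₀) (y ^ p ^ n - g ^ p ^ n) := by
    rw [← sub_pow_char_pow]
    intro h3
    have h4 : y - g ≠ 0 := fun h5 => h3 (by rw [h5, zero_pow (pow_ne_zero _ hp.out.ne_zero)])
    rw [v.map_pow h4]
    have h5 := h1 h4
    have h6 : (0 : ℝ) < (p : ℝ) ^ n := pow_pos hp0 n
    push_cast
    nlinarith
  obtain ⟨w', hw', h3⟩ := key n R y hyC _ hn h2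
  obtain ⟨a, ha, h4⟩ := hdig w' hw'
  rw [h4] at h3
  have h5 := oi_yR hO (fun i => (mem_algIn.1 (ha i)).1) h3 hy0
  linarith

end Sep

end Pool.Agent.TWV
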