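import Pool.Agent.Lib.TWV.Defs
import Pool.Agent.Lib.TWF.FF4

/-!
# TANK W, tame value groups of any rational rank: coordinates of the first floor

* `ZB.change`: the change of the basis of the localized value group;
* `exists_ffV`: coordinates `t_1, ..., t_r, t_{r+1}` of a field of transcendence degree `r + 1`, the
  values of the first `r` of them a basis of the localized value group, if there is a basis.
-/

set_option autoImplicit false

open Polynomial

namespace Pool.Agent.TWV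

open Pool.Agent.H15JM (RVal)
open Pool.Agent.LU1 (VPos adj)
open Pool.Agent.D2 (Ctx0)
open Pool.Agent.D2P (hen clI mem_clI mem_adj_self)
open Pool.Agent.TW (Full BD PBasis Orth LU Fr Ctx)
open Pool.Agent.TWM
open Pool.Agent.TWS (VG)

universe u

variable {k Ω : Type u} [Field k] [Field Ω] [Algebra k Ω] {v : RVal Ω}

theorem ZB.change {p : ℕ} {Γ : AddSubgroup ℝ} {r : ℕ} {a b : Fin r → ℝ} (h : ZB p Γ a)
    (hb : ∀ i, b i ∈ Γ) (hi : LinearIndependent ℚ b) (N : Fin r → Fin r → ℤ)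
    (hN : ∀ i, a i = ∑ j, (N i j : ℝ) * b j) : ZB p Γ b where
  mem := hb
  ind := hi
  rat := by
    intro g hg
    obtain ⟨m, hm, l, hl⟩ := h.rat g hg
    refine ⟨m, hm, fun j => ∑ i, l i * N i j, ?_⟩
    rw [hl]
    simp only [hN]
    push_cast
    simp only [Finset.mul_sum, Finset.sum_mul]
    rw [Finset.sum_comm]
    refine Finset.sum_congr rfl fun j _ => Finset.sum_congr rfl fun i _ => ?_
    ring

/-- The value of a monomial. -/
theorem v_mx {r : ℕ} {x : Fin r → Ω} (hx : ∀ i, x i ≠ 0) (l : Fin r → ℤ) :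
    v (TW.mx x l) = ∑ i, (l i : ℝ) * v (x i) := by
  rw [TW.mx, v.map_prod _ _ fun i _ => zpow_ne_zero _ (hx i)]
  exact Finset.sum_congr rfl fun i _ => v.map_zpow (hx i) _

variable [IsAlgClosed k] [IsAlgClosed Ω] (p : ℕ) [hp : Fact p.Prime] [CharP k p] [CharP Ω p]

/-- **Coordinates of the first floor.** -/
theorem exists_ffV {r : ℕ} (h : Ctx k v r) {C₁ : IntermediateField k Ω} (hfg : C₁.FG)
    (hfull : Full v C₁) (htr : Algebra.trdeg k C₁ = (r + 1 : ℕ)) (hBD : BD p v C₁)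
    (hzb : ∃ a : Fin r → ℝ, ZB p (VG v (clI v C₁)) a) :
    ∃ (t : Fin (r + 1) → Ω) (c₀ : ℝ), (∀ i, t i ∈ C₁) ∧ (∀ i, t i ≠ 0) ∧
      ZB p (VG v (clI v C₁)) (fun i : Fin r => v (t i.castSucc)) ∧
      AlgebraicIndependent k (fun i : Fin r => t i.castSucc) ∧
      clI v C₁ = cadj v (kx k v fun i : Fin r => t i.castSucc) (t (Fin.last r)) ∧
      OI p v (clI v C₁) t c₀ := by
  classical
  have hLU : LU p v r C₁ :=
    TWJ.lu_bd_two p h (TWJ.stepAll p k r) (n := r + 1) (by omega) hfg hfull htr hBD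
  obtain ⟨t, ht⟩ := TW.exists_pbasis p hfg htr
  obtain ⟨a, ha⟩ := hzb
  have hz : ∀ i, ∃ z ∈ C₁, z ≠ 0 ∧ v z = a i := by
    intro i
    have h1 := ha.mem i
    rw [TWS.VG.clI] at h1
    exact h1
  choose z hzC hz0 hza using hz
  obtain ⟨F, hF, hmo, -, hpb, hor⟩ := TW.exists_orth_frame p h C₁ hfg hfull hBD hLU (D := 1) t ht
    (Finset.univ.image z) (fun w hw => by
      obtain ⟨i, -, rfl⟩ := Finset.mem_image.1 hw
      exact ⟨hzC i, hz0 i⟩) one_pos
  have hs : F.s = (Fin.snoc F.x (F.y 0) : Fin (r + 1) → Ω) := Fin.append_right_eq_snoc _ _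
  rw [hs] at hpb hor
  have hmon : ∀ i, ∃ l : Fin r → ℤ, a i = ∑ j, (l j : ℝ) * v (F.x j) := by
    intro i
    obtain ⟨l, w, -, hw0, hwv, hx⟩ := hmo (z i) (Finset.mem_image_of_mem z (Finset.mem_univ i))
    refine ⟨l, ?_⟩
    rw [← hza i, hx, v.map_mul (TW.P3.mx_ne_zero F l) hw0, hwv, add_zero, v_mx F.x_ne]
  choose N hN using hmon
  have hcs : (fun i : Fin r => (Fin.snoc F.x (F.y 0) : Fin (r + 1) → Ω) i.castSucc) = F.x := by
    funext i
    exact Fin.snoc_castSucc _ _ _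
  have hmem : ∀ i, (Fin.snoc F.x (F.y 0) : Fin (r + 1) → Ω) i ∈ C₁ := by
    intro i
    refine Fin.lastCases ?_ (fun j => ?_) i
    · rw [Fin.snoc_last]
      exact hF.y_mem 0
    · rw [Fin.snoc_castSucc]
      exact hF.x_mem j
  have hne : ∀ i, (Fin.snoc F.x (F.y 0) : Fin (r + 1) → Ω) i ≠ 0 := by
    intro i
    refine Fin.lastCases ?_ (fun j => ?_) i
    · rw [Fin.snoc_last]
      exact F.y_ne 0
    · rw [Fin.snoc_castSucc]
      exact F.x_ne j
  refine ⟨Fin.snoc F.x (F.y 0), 1, hmem, hne, ?_, ?_, ?_, (OI.of_orth hor hpb).cl⟩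
  · simp only [Fin.snoc_castSucc]
    exact ha.change (fun i => ⟨F.x i, TWM.le_clI _ (hF.x_mem i), F.x_ne i, rfl⟩) F.x_ind N hN
  · rw [hcs]
    exact F.alg.comp Sum.inl Sum.inl_injective
  · have hK : F.K = IntermediateField.adjoin k
        (Set.range (Fin.snoc F.x (F.y 0) : Fin (r + 1) → Ω)) := by
      rw [Fr.K]
      congr 1
      ext w
      constructor
      · rintro (⟨i, rfl⟩ | ⟨i, rfl⟩)
        · exact ⟨i.castSucc, Fin.snoc_castSucc _ _ _⟩
        · rw [Subsingleton.elim i 0]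
          exact ⟨Fin.last r, Fin.snoc_last _ _⟩
      · rintro ⟨i, rfl⟩
        refine Fin.lastCases ?_ (fun j => ?_) i
        · rw [Fin.snoc_last]
          exact Or.inr ⟨0, rfl⟩
        · rw [Fin.snoc_castSucc]
          exact Or.inl ⟨j, rfl⟩
    rw [hcs, Fin.snoc_last, show kx k v F.x = NN k v F.x from rfl, cadj_NN, ← hK, ← clI_hen C₁,
      hF.hen_eq p h, clI_hen]

end Pool.Agent.TWV
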