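import Pool.Agent.Lib.TWS.MonF
import Pool.Agent.Lib.TW.Defs
import Pool.Agent.Lib.TWM.S5a

/-!
# TANK W, tame case, rational rank `r`: letters and monomials

* `exists_MSr`: monomials of all the real values, with `M (v (x i)) = x i` for all `i`;
* `MS.sum`: `M (∑ m_i γ_i) = ∏ M(γ_i) ^ m_i`;
* `gain_let`, `let_gen`: if `ρ_i` is in the closure of `k(π_1, .., π_r)`, `v ρ_i = v π_i`, these
  values independent, then `k(ρ)` and `k(π)` have the same closure.
-/

set_option autoImplicit false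

open Polynomial

namespace Pool.Agent.TWV

open Pool.Agent.H15JM (RVal)
open Pool.Agent.LU1 (VPos adj)
open Pool.Agent.D2 (Ctx0)
open Pool.Agent.D2P (hen clI mem_clI)
open Pool.Agent.TWM Pool.Agent.TWC Pool.Agent.TWS

universe u

variable {k Ω : Type u} [Field k] [Field Ω] [Algebra k Ω] {v : RVal Ω} {r : ℕ}

/-! ### Sums of values -/

/-- The homomorphism `m ↦ ∑ m_i γ_i`. -/
def vsH (γ : Fin r → ℝ) : (Fin r → ℤ) →+ ℝ where
  toFun m := ∑ i, (m i : ℝ) * γ i
  map_zero' := by simp
  map_add' m m' := by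
    rw [← Finset.sum_add_distrib]
    refine Finset.sum_congr rfl fun i _ => ?_
    rw [Pi.add_apply]
    push_cast
    ring

theorem vsH_apply (γ : Fin r → ℝ) (m : Fin r → ℤ) : vsH γ m = ∑ i, (m i : ℝ) * γ i := rfl

theorem vsH_inj {γ : Fin r → ℝ} (h : LinearIndependent ℚ γ) : Function.Injective (vsH γ) := by
  rw [injective_iff_map_eq_zero]
  intro m hm
  have h1 := Fintype.linearIndependent_iff.1 h (fun i => (m i : ℚ)) (by
    rw [vsH_apply] at hm
    rw [← hm]
    refine Finset.sum_congr rfl fun i _ => ?_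
    rw [Rat.smul_def]
    push_cast
    rfl)
  funext i
  exact_mod_cast h1 i

/-- The value of a monomial. -/
theorem val_prod {x : Fin r → Ω} (hx : ∀ i, x i ≠ 0) (m : Fin r → ℤ) :
    v (∏ i, x i ^ m i) = ∑ i, (m i : ℝ) * v (x i) := by
  classical
  have key : ∀ s : Finset (Fin r), v (∏ i ∈ s, x i ^ m i) = ∑ i ∈ s, (m i : ℝ) * v (x i) := by
    intro s
    induction s using Finset.induction_on with
    | empty =>
      rw [Finset.prod_empty, Finset.sum_empty]
      exact v.map_one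
    | insert i s hi ih =>
      rw [Finset.prod_insert hi, Finset.sum_insert hi,
        v.map_mul (zpow_ne_zero _ (hx i)) (Finset.prod_ne_zero_iff.2 fun j _ =>
          zpow_ne_zero _ (hx j)), v.map_zpow (hx i), ih]
  exact key Finset.univ

theorem prod_ne {x : Fin r → Ω} (hx : ∀ i, x i ≠ 0) (m : Fin r → ℤ) :
    (∏ i, x i ^ m i) ≠ 0 := Finset.prod_ne_zero_iff.2 fun j _ => zpow_ne_zero _ (hx j)

/-! ### Monomials with prescribed letters -/

section Ex

variable [IsAlgClosed Ω]

omit [Field k] [Algebra k Ω] in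
/-- **Monomials of all the real values, with `M (v (x i)) = x i`.** -/
theorem exists_MSr {mon : ℝ → Ω} (hmon : MS v ⊤ mon) {x : Fin r → Ω} (hx : ∀ i, x i ≠ 0)
    (hind : LinearIndependent ℚ fun i => v (x i)) :
    ∃ M : ℝ → Ω, MS v ⊤ M ∧ ∀ i, M (v (x i)) = x i := by
  classical
  let _ : DivisibleBy (Additive (U0 v)) ℤ :=
    divisibleByOfSMulRightSurj _ _ fun {n} hn => U0.surj v hn
  have hB : Module.Baer ℤ (Additive (U0 v)) := Module.Baer.of_divisible _
  have hm0 : ∀ i, mon (v (x i)) ≠ 0 := fun i => hmon.ne _ trivial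
  have hu0 : ∀ i, x i / mon (v (x i)) ≠ 0 := fun i => div_ne_zero (hx i) (hm0 i)
  let w : Fin r → U0 v := fun i => ⟨Units.mk0 (x i / mon (v (x i))) (hu0 i), by
    change v (x i / mon (v (x i))) = 0
    rw [v.map_div (hx i) (hm0 i), hmon.val _ trivial, sub_self]⟩
  let f : (Fin r → ℤ) →+ ℝ := vsH fun i => v (x i)
  have hf : Function.Injective f := vsH_inj hind
  let g : (Fin r → ℤ) →+ Additive (U0 v) :=
    ∑ i, (zmultiplesHom _ (Additive.ofMul (w i))).comp (Pi.evalAddMonoidHom (fun _ => ℤ) i)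
  obtain ⟨h, hh⟩ := Module.Baer.extension_property_addMonoidHom hB f hf g
  have hhx : ∀ i, h (v (x i)) = Additive.ofMul (w i) := by
    intro i
    have h1 := DFunLike.congr_fun hh (Pi.single i 1)
    change h (f (Pi.single i 1)) = g (Pi.single i 1) at h1
    have h2 : f (Pi.single i 1) = v (x i) := by
      change ∑ j, ((Pi.single i (1 : ℤ) : Fin r → ℤ) j : ℝ) * v (x j) = v (x i)
      rw [Finset.sum_eq_single i]
      · rw [Pi.single_eq_same]
        push_cast
        rw [one_mul]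
      · intro j _ hj
        rw [Pi.single_eq_of_ne hj]
        push_cast
        rw [zero_mul]
      · intro hi
        exact absurd (Finset.mem_univ i) hi
    have h3 : g (Pi.single i 1) = Additive.ofMul (w i) := by
      change (∑ j, (zmultiplesHom _ (Additive.ofMul (w j))).comp
        (Pi.evalAddMonoidHom (fun _ => ℤ) j) : (Fin r → ℤ) →+ Additive (U0 v))
          (Pi.single i 1) = Additive.ofMul (w i)
      rw [AddMonoidHom.finsetSum_apply, Finset.sum_eq_single i]
      · change (Pi.single i (1 : ℤ) : Fin r → ℤ) i • Additive.ofMul (w i) = Additive.ofMul (w i)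
        rw [Pi.single_eq_same, one_zsmul]
      · intro j _ hj
        change (Pi.single i (1 : ℤ) : Fin r → ℤ) j • Additive.ofMul (w j) = 0
        rw [Pi.single_eq_of_ne hj, zero_zsmul]
      · intro hi
        exact absurd (Finset.mem_univ i) hi
    rwa [h2, h3] at h1
  refine ⟨fun γ => mon γ * (((h γ).toMul : U0 v) : Ωˣ), ⟨fun γ _ => ?_, fun γ _ => ?_,
    fun γ _ δ _ => ?_⟩, fun i => ?_⟩
  · exact mul_ne_zero (hmon.ne γ trivial) (Units.ne_zero _)
  · rw [v.map_mul (hmon.ne γ trivial) (Units.ne_zero _), hmon.val γ trivial,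
      show v ((((h γ).toMul : U0 v) : Ωˣ) : Ω) = 0 from ((h γ).toMul : U0 v).2, add_zero]
  · rw [hmon.mul γ trivial δ trivial, map_add, toMul_add, Subgroup.coe_mul, Units.val_mul]
    ring
  · simp only [hhx, toMul_ofMul, w, Units.val_mk0]
    rw [mul_div_cancel₀ _ (hm0 i)]

end Ex

omit [Field k] [Algebra k Ω] in
/-- The monomial of a sum. -/
theorem ms_sum {M : ℝ → Ω} (hM : MS v ⊤ M) (γ : Fin r → ℝ) (m : Fin r → ℤ) :
    M (∑ i, (m i : ℝ) * γ i) = ∏ i, M (γ i) ^ m i := by
  classical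
  have key : ∀ s : Finset (Fin r), M (∑ i ∈ s, (m i : ℝ) * γ i) = ∏ i ∈ s, M (γ i) ^ m i := by
    intro s
    induction s using Finset.induction_on with
    | empty =>
      rw [Finset.prod_empty, Finset.sum_empty]
      exact hM.zero
    | insert i s hi ih =>
      rw [Finset.prod_insert hi, Finset.sum_insert hi, hM.mul _ trivial _ trivial, ih,
        MS.zpow hM trivial]
  exact key Finset.univ

/-! ### The uniform gain -/

/-- The units near to one. -/
def UK (v : RVal Ω) (κ : ℝ) (u : Ω) : Prop := u ≠ 0 ∧ v u = 0 ∧ v.Ge κ (u - 1)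

section UK

variable {κ : ℝ}

omit [Field k] [Algebra k Ω] in
theorem UK.of_ge (hκ : 0 < κ) {u : Ω} (h : v.Ge κ (u - 1)) : UK v κ u := by
  have h1 : Gt v (v (1 : Ω)) (1 - u) := by
    rw [v.map_one]
    exact Gt.of_ge (by rw [← neg_sub]; exact h.neg) hκ
  obtain ⟨h2, h3⟩ := Gt.val_eq (v := v) one_ne_zero h1
  exact ⟨h2, by rw [h3, v.map_one], h⟩

omit [Field k] [Algebra k Ω] in
theorem UK.one (v : RVal Ω) (κ : ℝ) : UK v κ (1 : Ω) :=
  ⟨one_ne_zero, v.map_one, by rw [sub_self]; exact RVal.Ge.zero⟩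

omit [Field k] [Algebra k Ω] in
theorem UK.mul {u w : Ω} (hu : UK v κ u) (hw : UK v κ w) : UK v κ (u * w) := by
  refine ⟨mul_ne_zero hu.1 hw.1, by rw [v.map_mul hu.1 hw.1, hu.2.1, hw.2.1, add_zero], ?_⟩
  have e : u * w - 1 = u * (w - 1) + (u - 1) := by ring
  rw [e]
  have h1 := (RVal.ge_self (v := v) u).mul hw.2.2
  rw [hu.2.1, zero_add] at h1
  exact h1.add hu.2.2

omit [Field k] [Algebra k Ω] in
theorem UK.inv {u : Ω} (hu : UK v κ u) : UK v κ u⁻¹ := by
  refine ⟨inv_ne_zero hu.1, by rw [v.map_inv hu.1, hu.2.1, neg_zero], ?_⟩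
  have e : u⁻¹ - 1 = -(u⁻¹ * (u - 1)) := by
    have := hu.1
    field_simp
    ring
  rw [e]
  have h1 := (RVal.ge_self (v := v) u⁻¹).mul hu.2.2
  rw [v.map_inv hu.1, hu.2.1, neg_zero, zero_add] at h1
  exact h1.neg

omit [Field k] [Algebra k Ω] in
theorem UK.pow {u : Ω} (hu : UK v κ u) (n : ℕ) : UK v κ (u ^ n) := by
  induction n with
  | zero =>
    rw [pow_zero]
    exact UK.one v κ
  | succ n ih =>
    rw [pow_succ]
    exact ih.mul hu

omit [Field k] [Algebra k Ω] in
theorem UK.zpow {u : Ω} (hu : UK v κ u) (n : ℤ) : UK v κ (u ^ n) := by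
  obtain ⟨m, h | h⟩ := n.eq_nat_or_neg
  · rw [h, zpow_natCast]
    exact hu.pow m
  · rw [h, zpow_neg, zpow_natCast]
    exact (hu.pow m).inv

omit [Field k] [Algebra k Ω] in
theorem UK.prod {ι : Type*} (s : Finset ι) {f : ι → Ω} (h : ∀ i ∈ s, UK v κ (f i)) :
    UK v κ (∏ i ∈ s, f i) := by
  classical
  induction s using Finset.induction_on with
  | empty =>
    rw [Finset.prod_empty]
    exact UK.one v κ
  | insert i s hi ih =>
    rw [Finset.prod_insert hi]
    exact (h i (Finset.mem_insert_self _ _)).mul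
      (ih fun j hj => h j (Finset.mem_insert_of_mem hj))

end UK

/-! ### The letters as monomials -/

section Gen

variable {π ρ : Fin r → Ω}

open Classical in
/-- The monomial `π^m` of value `∑ m_i v π_i`. -/
noncomputable def mL (v : RVal Ω) (π : Fin r → Ω) (g : ℝ) : Ω :=
  if h : ∃ m : Fin r → ℤ, vsH (fun i => v (π i)) m = g then ∏ i, π i ^ (h.choose i) else 1

omit [Field k] [Algebra k Ω] in
theorem mL_apply (hind : LinearIndependent ℚ fun i => v (π i)) (m : Fin r → ℤ) :
    mL v π (vsH (fun i => v (π i)) m) = ∏ i, π i ^ m i := by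
  have h : ∃ m' : Fin r → ℤ, vsH (fun i => v (π i)) m' = vsH (fun i => v (π i)) m := ⟨m, rfl⟩
  rw [mL, dif_pos h, vsH_inj hind h.choose_spec]

omit [Field k] [Algebra k Ω] in
theorem ms_mL (hπ : ∀ i, π i ≠ 0) (hind : LinearIndependent ℚ fun i => v (π i)) :
    MS v (vsH fun i => v (π i)).range (mL v π) where
  ne := by
    rintro _ ⟨m, rfl⟩
    rw [mL_apply hind]
    exact prod_ne hπ m
  val := by
    rintro _ ⟨m, rfl⟩
    rw [mL_apply hind, val_prod hπ, vsH_apply]
  mul := by
    rintro _ ⟨m, rfl⟩ _ ⟨m', rfl⟩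
    rw [← map_add, mL_apply hind, mL_apply hind, mL_apply hind, ← Finset.prod_mul_distrib]
    exact Finset.prod_congr rfl fun i _ => by rw [Pi.add_apply, zpow_add₀ (hπ i)]

/-- The closure of `k(π)` as a field of monomials. -/
theorem pm_mL (hind : LinearIndependent ℚ fun i => v (π i)) :
    PM v (⊥ : IntermediateField k Ω) (vsH fun i => v (π i)).range (mL v π) =
      clI v (IntermediateField.adjoin k (Set.range π)) := by
  have hmem : ∀ i, π i ∈ IntermediateField.adjoin k (Set.range π) := fun i =>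
    IntermediateField.subset_adjoin _ _ ⟨i, rfl⟩
  refine le_antisymm ?_ ?_
  · refine PM.le_of (cld_clI v _) bot_le ?_
    rintro _ ⟨m, rfl⟩
    rw [mL_apply hind]
    exact TWM.le_clI _ (prod_mem fun i _ => zpow_mem (hmem i) _)
  · refine clI_le' ?_ PM.cld
    rw [IntermediateField.adjoin_le_iff]
    rintro _ ⟨i, rfl⟩
    have h1 := mL_apply (v := v) hind (Pi.single i 1)
    have h2 : ∏ j, π j ^ (Pi.single i (1 : ℤ) : Fin r → ℤ) j = π i := by
      rw [Finset.prod_eq_single i]
      · rw [Pi.single_eq_same, zpow_one]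
      · intro j _ hj
        rw [Pi.single_eq_of_ne hj, zpow_zero]
      · intro hi
        exact absurd (Finset.mem_univ i) hi
    have h3 : mL v π (vsH (fun i => v (π i)) (Pi.single i 1)) ∈
        PM v (⊥ : IntermediateField k Ω) (vsH fun i => v (π i)).range (mL v π) :=
      PM.mon ⟨_, rfl⟩
    rwa [h1, h2] at h3

/-- **The uniform gain.** -/
theorem gain_let (h0 : Ctx0 k v) (hπ : ∀ i, π i ≠ 0)
    (hind : LinearIndependent ℚ fun i => v (π i)) (hρ : ∀ i, ρ i ≠ 0)
    (hv : ∀ i, v (ρ i) = v (π i)) :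
    ∃ κ : ℝ, 0 < κ ∧ ∀ f ∈ clI v (IntermediateField.adjoin k (Set.range π)),
      ∀ b : ℝ, v.Ge b f → ∃ g ∈ IntermediateField.adjoin k (Set.range ρ), v.Ge (b + κ) (f - g) := by
  -- the residues
  have hres : ∀ i, ∃ c : k, c ≠ 0 ∧ Gt v 0 (ρ i / π i / algebraMap k Ω c - 1) := by
    intro i
    have hq0 : ρ i / π i ≠ 0 := div_ne_zero (hρ i) (hπ i)
    have hq : v (ρ i / π i) = 0 := by rw [v.map_div (hρ i) (hπ i), hv, sub_self]
    obtain ⟨c, hc, h1⟩ := h0.res _ hq0 hq
    have hc' : algebraMap k Ω c ≠ 0 := by rwa [Ne, _root_.map_eq_zero]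
    refine ⟨c, hc, ?_⟩
    have e : ρ i / π i / algebraMap k Ω c - 1 =
        (ρ i / π i - algebraMap k Ω c) * (algebraMap k Ω c)⁻¹ := by
      field_simp
    rw [e]
    have h3 : Gt v 0 (ρ i / π i - algebraMap k Ω c) := h1
    have := h3.mul_ge (RVal.ge_self (v := v) (algebraMap k Ω c)⁻¹)
    rwa [v.map_inv hc', h0.triv c hc, neg_zero, add_zero] at this
  choose c hc hcs using hres
  have hc' : ∀ i, algebraMap k Ω (c i) ≠ 0 := fun i => by
    rw [Ne, _root_.map_eq_zero]
    exact hc i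
  -- the common margin
  have hmar : ∀ s : Finset (Fin r), ∃ κ : ℝ, 0 < κ ∧
      ∀ i ∈ s, v.Ge κ (ρ i / π i / algebraMap k Ω (c i) - 1) := by
    intro s
    classical
    induction s using Finset.induction_on with
    | empty => exact ⟨1, one_pos, fun i hi => absurd hi (Finset.notMem_empty i)⟩
    | insert i s hi ih =>
      obtain ⟨κ, hκ, h1⟩ := ih
      obtain ⟨κ', hκ', h2⟩ := S5.exists_ge_of_gt (hcs i)
      rw [zero_add] at h2
      refine ⟨min κ κ', lt_min hκ hκ', fun j hj => ?_⟩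
      rcases Finset.mem_insert.1 hj with rfl | h3
      · exact h2.mono (min_le_right _ _)
      · exact (h1 j h3).mono (min_le_left _ _)
  obtain ⟨κ, hκ, hmar⟩ := hmar Finset.univ
  have hU : ∀ i, UK v κ (ρ i / π i / algebraMap k Ω (c i)) := fun i =>
    UK.of_ge hκ (hmar i (Finset.mem_univ i))
  -- the new monomials
  set G := (vsH fun i => v (π i)).range with hG
  have hMS : MonG v (⊥ : IntermediateField k Ω) G (mL v π) := by
    refine ⟨ms_mL hπ hind, ?_⟩
    rintro g - ⟨a, ha, ha0, rfl⟩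
    obtain ⟨d, rfl⟩ := IntermediateField.mem_bot.1 ha
    have hd : d ≠ 0 := by
      rintro rfl
      exact ha0 (map_zero _)
    rw [h0.triv d hd, (ms_mL hπ hind).zero]
    exact one_mem _
  have hmono : ∀ g ∈ G, ∃ y ∈ IntermediateField.adjoin k (Set.range ρ),
      v.Ge (g + κ) (mL v π g - y) := by
    rintro _ ⟨m, rfl⟩
    have hρa : ∀ i, ρ i ∈ IntermediateField.adjoin k (Set.range ρ) := fun i =>
      IntermediateField.subset_adjoin _ _ ⟨i, rfl⟩
    refine ⟨∏ i, (ρ i / algebraMap k Ω (c i)) ^ m i, prod_mem fun i _ => zpow_mem (div_mem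
      (hρa i) (IntermediateField.algebraMap_mem _ _)) _, ?_⟩
    rw [mL_apply hind]
    have h1 : ∏ i, (ρ i / algebraMap k Ω (c i)) ^ m i =
        (∏ i, π i ^ m i) * ∏ i, (ρ i / π i / algebraMap k Ω (c i)) ^ m i := by
      rw [← Finset.prod_mul_distrib]
      refine Finset.prod_congr rfl fun i _ => ?_
      rw [← mul_zpow]
      congr 1
      have := hπ i
      field_simp
    have h2 : UK v κ (∏ i, (ρ i / π i / algebraMap k Ω (c i)) ^ m i) :=
      UK.prod _ fun i _ => (hU i).zpow _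
    rw [h1]
    have e : ∀ a u : Ω, a - a * u = -(a * (u - 1)) := fun a u => by ring
    rw [e]
    have h3 := (RVal.ge_self (v := v) (∏ i, π i ^ m i)).mul h2.2.2
    rw [val_prod hπ] at h3
    exact h3.neg
  refine ⟨κ, hκ, fun f hf b hb => ?_⟩
  rw [← pm_mL hind] at hf
  obtain ⟨L, hL, h1⟩ := dense_PM hMS (Imm.refl _) hf (b + κ)
  have h2 : v.Ge b (evM (mL v π) L) := by
    have e : evM (mL v π) L = f - (f - evM (mL v π) L) := by ring
    rw [e]
    exact hb.sub (h1.mono (by linarith))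
  have h3 := orth hMS (Imm.refl _) hL h2
  have h4 : ∀ g ∈ L.support, ∃ y ∈ IntermediateField.adjoin k (Set.range ρ),
      v.Ge (b + κ) (L g * mL v π g - y) := by
    intro g hg
    have hg0 := Finsupp.mem_support_iff.1 hg
    obtain ⟨hgG, -⟩ := hL.rep g hg0
    obtain ⟨y, hy, h5⟩ := hmono g hgG
    refine ⟨L g * y, mul_mem ((bot_le : (⊥ : IntermediateField k Ω) ≤ _) (hL.mem g)) hy, ?_⟩
    rw [← mul_sub]
    have h6 := h3 g (mul_ne_zero hg0 ((ms_mL hπ hind).ne g hgG))
    rw [v.map_mul hg0 ((ms_mL hπ hind).ne g hgG), (ms_mL hπ hind).val g hgG] at h6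
    exact ((RVal.ge_self (v := v) (L g)).mul h5).mono (by linarith)
  choose! y hy h5 using h4
  refine ⟨∑ g ∈ L.support, y g, sum_mem fun g hg => hy g hg, ?_⟩
  have e : f - ∑ g ∈ L.support, y g =
      (f - evM (mL v π) L) + ∑ g ∈ L.support, (L g * mL v π g - y g) := by
    rw [Finset.sum_sub_distrib, evM, Finsupp.sum]
    ring
  rw [e]
  exact h1.add (RVal.Ge.sum _ _ fun g hg => h5 g hg)

/-- **Exchange of the letters.** -/
theorem let_gen (h0 : Ctx0 k v) (hπ : ∀ i, π i ≠ 0)
    (hind : LinearIndependent ℚ fun i => v (π i)) (hρ : ∀ i, ρ i ≠ 0)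
    (hv : ∀ i, v (ρ i) = v (π i))
    (hρN : ∀ i, ρ i ∈ clI v (IntermediateField.adjoin k (Set.range π))) :
    clI v (IntermediateField.adjoin k (Set.range π)) ≤
      clI v (IntermediateField.adjoin k (Set.range ρ)) := by
  obtain ⟨κ, hκ, hgain⟩ := gain_let h0 hπ hind hρ hv
  have hle : IntermediateField.adjoin k (Set.range ρ) ≤
      clI v (IntermediateField.adjoin k (Set.range π)) := by
    rw [IntermediateField.adjoin_le_iff]
    rintro _ ⟨i, rfl⟩
    exact hρN i
  intro f hf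
  have key : ∀ n : ℕ, ∃ g ∈ IntermediateField.adjoin k (Set.range ρ),
      v.Ge (v f + n * κ) (f - g) := by
    intro n
    induction n with
    | zero =>
      refine ⟨0, zero_mem _, ?_⟩
      rw [sub_zero, Nat.cast_zero, zero_mul, add_zero]
      exact RVal.ge_self _
    | succ n ih =>
      obtain ⟨g, hg, h1⟩ := ih
      obtain ⟨g', hg', h2⟩ := hgain (f - g) (sub_mem hf (hle hg)) _ h1
      refine ⟨g + g', add_mem hg hg', ?_⟩
      rw [← sub_sub]
      refine h2.mono ?_
      push_cast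
      linarith
  refine mem_clI.2 fun b => ?_
  obtain ⟨n, hn⟩ := exists_nat_gt ((b - v f) / κ)
  obtain ⟨g, hg, h1⟩ := key n
  refine ⟨g, hg, h1.mono ?_⟩
  rw [div_lt_iff₀ hκ] at hn
  linarith

end Gen

end Pool.Agent.TWV
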