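import Pool.Agent.Lib.TWV.Let

/-!
# TANK W, tame value groups of any rational rank: `MonG` for the closed perfect fields
-/

set_option autoImplicit false

namespace Pool.Agent.TWV

open Pool.Agent.H15JM (RVal)
open Pool.Agent.D2 (Ctx0)
open Pool.Agent.TWM (Cld MS)
open Pool.Agent.TWS (VG MonG root_mem perf_pow_mem)

universe u

variable {k Ω : Type u} [Field k] [Field Ω] [Algebra k Ω] {v : RVal Ω} {M : ℝ → Ω}

/-- **`MonG` for the closed perfect fields**, for `r` letters. -/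
theorem monG_topV (p : ℕ) [hp : Fact p.Prime] [CharP Ω p] [IsAlgClosed Ω] (h0 : Ctx0 k v)
    (hM : MS v ⊤ M) {r : ℕ} {x : Fin r → Ω} (hx : ∀ i, M (v (x i)) = x i)
    {E : IntermediateField k Ω} (hE : Cld v E) (hE' : ∀ a ∈ E, ∃ b ∈ E, b ^ p = a)
    (hxE : ∀ i, x i ∈ E)
    (hV : ∀ g ∈ VG v E, ∃ n : ℕ, n ≠ 0 ∧ ∃ m : Fin r → ℤ, (n : ℝ) * g = ∑ i, (m i : ℝ) * v (x i)) :
    MonG v E ⊤ M := by
  refine ⟨hM, fun g _ hgV => ?_⟩
  obtain ⟨n, hn, m, h2⟩ := hV g hgV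
  obtain ⟨j, n', hn', rfl⟩ := Nat.exists_eq_pow_mul_and_not_dvd hn p hp.out.ne_one
  have h3 : (M g ^ p ^ j) ^ n' ∈ E := by
    rw [← pow_mul, ← hM.pow trivial (p ^ j * n'), h2, ms_sum hM]
    refine prod_mem fun i _ => ?_
    rw [hx]
    exact zpow_mem (hxE i) _
  have h4 : M g ^ p ^ j ∈ E := by
    refine root_mem p h0 hE hn' (pow_ne_zero _ (hM.ne g trivial)) h3 ?_
    rw [v.map_pow (hM.ne g trivial), hM.val g trivial, ← nsmul_eq_mul]
    exact (VG v E).nsmul_mem hgV _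
  exact perf_pow_mem p hE' j h4

end Pool.Agent.TWV
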