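import Pool.Agent.Lib.TWV.Defs
import Pool.Agent.Lib.TWV.Let
import Pool.Agent.Lib.TWV.FfR
import Pool.Agent.Lib.TWV.MonTop
import Pool.Agent.Lib.TWV.FrV
import Pool.Agent.Lib.TWIV.TameH
import Pool.Agent.Lib.TW.D0
import Pool.Agent.Lib.TW.Estar

/-!
# TANK W, tame value groups: the algebraic closure of `k(x_1, .., x_r)` in `C`

* `algIn_monV`: the algebraic closure of `k(x)` in `C` is in the field of monomials;
* `ffV`: `FFV p k`.
-/

set_option autoImplicit false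

open Polynomial

namespace Pool.Agent.TWV

open Pool.Agent.H15JM (RVal)
open Pool.Agent.LU1 (VPos adj)
open Pool.Agent.D2 (Ctx0)
open Pool.Agent.D2P (hen clI mem_clI mem_adj_self)
open Pool.Agent.TW (Full BD PBasis Orth LU Fr Ctx)
open Pool.Agent.TWM
open Pool.Agent.TWS (VG PM IsoE MonG)
open Pool.Agent.TWC (vg_map)
open Pool.Agent.TWF (perfC algIn mem_algIn mem_perfC)

universe u

section Mon

variable {k Ω H : Type u} [Field k] [Field Ω] [Algebra k Ω] [Field H] [Algebra k H] {v : RVal Ω}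
  {w : RVal H} [IsAlgClosed k] [IsAlgClosed Ω] [IsAlgClosed H] (p : ℕ) [hp : Fact p.Prime]
  [CharP k p] [CharP Ω p] [CharP H p] {r : ℕ}

/-- The algebraic closure of `k(x)` in `C` is in the field of monomials. -/
theorem algIn_monV (h : Ctx k v r) (hc : CompleteV v) (hw : Ctx0 k w) {φ : Ω →ₐ[k] H}
    (hI : IsoE v w φ) {C : IntermediateField k Ω} {x : Fin r → Ω} (hxC : ∀ i, x i ∈ C)
    (hx0 : ∀ i, x i ≠ 0) (hz : ZB p (VG v C) fun i => v (x i)) {M : ℝ → H} (hM : MS w ⊤ M)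
    (hMx : ∀ i, M (v (x i)) = φ (x i)) {a : Ω}
    (ha : a ∈ algIn C (IntermediateField.adjoin k (Set.range x))) :
    φ a ∈ PM w (⊥ : IntermediateField k H) ⊤ M := by
  obtain ⟨haC, halg⟩ := mem_algIn.1 ha
  set A := IntermediateField.adjoin k (Set.range x) with hA
  set N₀ := adj A a with hN₀
  have hxA : ∀ i, x i ∈ A := fun i => IntermediateField.subset_adjoin _ _ ⟨i, rfl⟩
  have hAC : A ≤ C := by
    rw [hA, IntermediateField.adjoin_le_iff]
    rintro _ ⟨i, rfl⟩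
    exact hxC i
  have hNC : N₀ ≤ C := D2P.adj_le hAC haC
  have hAN : A ≤ N₀ := (mem_adj_self A a).2
  -- the frame of the letters
  let F₀ : Fr k v r 0 := TW.D0.fr0 h hx0 hz.ind
  have hF₀ : F₀.K = A := by
    have h1 : Set.range F₀.y = ∅ := Set.range_eq_empty _
    rw [Fr.K, h1, Set.union_empty]
    rfl
  have hfull : Full v N₀ := by
    refine (TW.Est.full_K h F₀).mono ?_
    rw [hF₀]
    exact hAN
  have hAfg : A.FG := by
    rw [← hF₀]
    exact TW.Est.fg_K F₀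
  have hfg : N₀.FG := D2P.fg_adj hAfg a
  have htr : Algebra.trdeg k N₀ = r := by
    have h1 := F₀.trdeg_K
    rw [hF₀] at h1
    refine (TW.trdeg_eq_of_alg hAN (D2P.isAlgebraic_sup {a} ?_)).trans h1
    rintro s rfl
    exact halg
  obtain ⟨t, ht⟩ := TW.exists_pbasis p hfg htr
  obtain ⟨F, hF, -, -⟩ := TW.LU_D0 p h hfg hfull htr 0 t ht ∅ (fun z hz => absurd hz
    (Finset.notMem_empty z))
  set N := clI v N₀ with hN
  have hNF : N = clI v (IntermediateField.adjoin k (Set.range F.x)) := by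
    have h1 : Set.range F.y = ∅ := Set.range_eq_empty _
    have h2 : F.K = IntermediateField.adjoin k (Set.range F.x) := by
      rw [Fr.K, h1, Set.union_empty]
    rw [hN, ← clI_hen N₀, hF.hen_eq p h, clI_hen, h2]
  -- the monomials
  have hmon : ∀ j, M (v (F.x j)) ∈ N.map φ := by
    intro j
    have hjN : F.x j ∈ N₀ := hF.x_mem j
    obtain ⟨m, hm, l, hl⟩ := hz.rat (v (F.x j)) ⟨F.x j, hNC hjN, F.x_ne j, rfl⟩
    refine TWS.root_mem p hw ((hI.cld_iff hc).2 (cld_clI v N₀)) hm (hM.ne _ trivial) ?_ ?_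
    · rw [← hM.pow trivial m, hl, ms_sum hM]
      refine ⟨∏ i, x i ^ l i, prod_mem fun i _ => zpow_mem (TWM.le_clI _ (hAN (hxA i))) _, ?_⟩
      change φ (∏ i, x i ^ l i) = _
      rw [map_prod]
      exact Finset.prod_congr rfl fun i _ => by rw [map_zpow₀, hMx]
    · rw [hM.val _ trivial, vg_map hI]
      exact ⟨F.x j, TWM.le_clI _ hjN, F.x_ne j, rfl⟩
  choose ρ hρN hρ using hmon
  have hρ' : ∀ j, φ (ρ j) = M (v (F.x j)) := hρ
  have hρ0 : ∀ j, ρ j ≠ 0 := by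
    intro j h1
    have h2 := hρ' j
    rw [h1, map_zero] at h2
    exact hM.ne _ trivial h2.symm
  have hρv : ∀ j, v (ρ j) = v (F.x j) := fun j => by
    rw [← hI.val (ρ j) (hρ0 j), hρ', hM.val _ trivial]
  have hgen : N ≤ clI v (IntermediateField.adjoin k (Set.range ρ)) := by
    rw [hNF]
    exact let_gen h.toCtx0 F.x_ne F.x_ind hρ0 hρv fun j => by
      rw [← hNF]
      exact hρN j
  have h1 : a ∈ clI v (IntermediateField.adjoin k (Set.range ρ)) :=
    hgen (TWM.le_clI _ (mem_adj_self A a).1)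
  have h2 : φ a ∈ (clI v (IntermediateField.adjoin k (Set.range ρ))).map φ := ⟨a, h1, rfl⟩
  rw [← hI.clI_map hc] at h2
  refine TWC.clI_le' ?_ TWS.PM.cld h2
  rw [IntermediateField.adjoin_map, IntermediateField.adjoin_le_iff]
  rintro _ ⟨_, ⟨j, rfl⟩, rfl⟩
  rw [hρ']
  exact TWS.PM.mon (AddSubgroup.mem_top _)

end Mon

/-- **Row F1**. -/
theorem ffV (p : ℕ) [hp : Fact p.Prime] (k : Type u) [Field k] [IsAlgClosed k] [CharP k p] :
    FFV p k := by
  intro Ω H _ _ _ _ _ _ _ _ v w r h hc hw hcw φ hI C₁ C hfg hfull htr hBD hC hzb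
  subst hC
  obtain ⟨t, c₀, ht, ht0, hz, halg, hcl, hO⟩ := exists_ffV p h hfg hfull htr hBD hzb
  have htC : ∀ i, t i ∈ clI v C₁ := fun i => TWM.le_clI _ (ht i)
  set x : Fin r → Ω := fun i => t i.castSucc with hx
  set y := t (Fin.last r) with hy
  have hxC : ∀ i, x i ∈ clI v C₁ := fun i => htC _
  have hx0 : ∀ i, x i ≠ 0 := fun i => ht0 _
  have htx : tX t = x := rfl
  set A₀ := IntermediateField.adjoin k (Set.range x) with hA₀
  have hxA₀ : ∀ i, x i ∈ A₀ := fun i => IntermediateField.subset_adjoin _ _ ⟨i, rfl⟩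
  have hA₀C : A₀ ≤ clI v C₁ := by
    rw [hA₀, IntermediateField.adjoin_le_iff]
    rintro _ ⟨i, rfl⟩
    exact hxC i
  have hfar : y ∉ clI v (perfC p (algIn (clI v C₁) A₀)) := ff_far_r p hO ht0 htC halg
  let F₀ : Fr k v r 0 := TW.D0.fr0 h hx0 hz.ind
  have hF₀ : F₀.K = A₀ := by
    have h1 : Set.range F₀.y = ∅ := Set.range_eq_empty _
    rw [Fr.K, h1, Set.union_empty]
    rfl
  have hfullA : Full v A₀ := by
    rw [← hF₀]
    exact TW.Est.full_K h F₀
  obtain ⟨s, hs⟩ := TWF.ff_tl0 p h.toCtx0 (cld_clI v C₁) hA₀C hfullA (htC (Fin.last r)) hfar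
  refine ⟨x, y, s, hxC, hx0, hz, htC _, hcl, fun M hM hMx => ?_⟩
  set A := algIn (clI v C₁) A₀ with hA
  set E := clI v (perfC p A) with hE
  have hxA : ∀ i, x i ∈ A := fun i => mem_algIn.2 ⟨hxC i, D2P.isAlgebraic_of_mem (hxA₀ i)⟩
  have hxE : ∀ i, x i ∈ E := fun i => TWM.le_clI _ (TWF.le_perfC p A (hxA i))
  -- the field of monomials contains the image
  have hEP : E.map φ ≤ PM w (⊥ : IntermediateField k H) ⊤ M := by
    rw [hE, ← hI.clI_map hc]
    refine TWC.clI_le' ?_ TWS.PM.cld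
    rintro _ ⟨a, ha, rfl⟩
    obtain ⟨n, hn⟩ := (mem_perfC p).1 ha
    have h1 := algIn_monV p h hc hw hI hxC hx0 hz hM hMx hn
    rw [map_pow] at h1
    have hroot : ∀ n : ℕ, ∀ b : H, b ^ p ^ n ∈ PM w (⊥ : IntermediateField k H) ⊤ M →
        b ∈ PM w (⊥ : IntermediateField k H) ⊤ M := by
      intro n
      induction n with
      | zero =>
        intro b hb
        rwa [pow_zero, pow_one] at hb
      | succ n ih =>
        intro b hb
        rw [pow_succ', pow_mul] at hb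
        obtain ⟨c, hc, hcb⟩ := TWIV.perf_PM_bot hM _ (ih _ hb)
        have h2 : c = b := by
          have h3 : (c - b) ^ p = 0 := by rw [sub_pow_char, hcb, sub_self]
          exact sub_eq_zero.1 (pow_eq_zero_iff hp.out.ne_zero |>.1 h3)
        rw [← h2]
        exact hc
    exact hroot n _ h1
  have hEc : Cld w (E.map φ) := (hI.cld_iff hc).2 (cld_clI v _)
  have hEp : ∀ a ∈ E.map φ, ∃ b ∈ E.map φ, b ^ p = a := by
    rintro _ ⟨a, ha, rfl⟩
    obtain ⟨b, hb, rfl⟩ := TWC.perf_clI p (TWF.perfC_perf p A) a ha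
    exact ⟨φ b, ⟨b, hb, rfl⟩, (map_pow φ b p).symm⟩
  have hval : ∀ i, w (φ (x i)) = v (x i) := fun i => hI.val (x i) (hx0 i)
  have hG : MonG w (E.map φ) ⊤ M := by
    refine monG_topV p hw hM (x := fun i => φ (x i)) (fun i => by rw [hval]; exact hMx i) hEc hEp
      (fun i => ⟨x i, hxE i, rfl⟩) ?_
    intro g hg
    rw [vg_map hI] at hg
    -- the values of `E`
    have hEg : ∃ n : ℕ, n ≠ 0 ∧ ∃ m : Fin r → ℤ, (n : ℝ) * g = ∑ i, (m i : ℝ) * v (x i) := by
      rw [hE, TWS.VG.clI] at hg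
      obtain ⟨a, ha, ha0, rfl⟩ := hg
      obtain ⟨n, hn⟩ := (mem_perfC p).1 ha
      have h1 : v (a ^ p ^ n) ∈ VG v (clI v C₁) :=
        ⟨a ^ p ^ n, (mem_algIn.1 hn).1, pow_ne_zero _ ha0, rfl⟩
      obtain ⟨m, hm, l, hl⟩ := hz.rat _ h1
      have hm0 : m ≠ 0 := fun h2 => hm (h2 ▸ dvd_zero p)
      refine ⟨m * p ^ n, Nat.mul_ne_zero hm0 (pow_ne_zero _ hp.out.ne_zero), l, ?_⟩
      rw [← hl, v.map_pow ha0]
      push_cast
      ring
    obtain ⟨n, hn, m, h1⟩ := hEg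
    refine ⟨n, hn, m, ?_⟩
    rw [h1]
    exact Finset.sum_congr rfl fun i _ => by rw [hval]
  have h1 : TL w (E.map φ) (φ y) s := hI.tl_iff.2 hs
  have h2 := TWS.TL.pm hG (TWM.Imm.refl _) h1
  have e1 : PM w (E.map φ) ⊤ M = PM w (⊥ : IntermediateField k H) ⊤ M :=
    le_antisymm (TWS.PM.le_of TWS.PM.cld hEP fun _ hg => TWS.PM.mon hg) (TWS.PM.mono bot_le)
  rwa [e1] at h2

end Pool.Agent.TWV
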