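import Pool.Agent.Lib.TWIV.Coarse
import Pool.Agent.Lib.TWIV.TmDefs
import Pool.Agent.Lib.TWT.FreeR
import Pool.Agent.Lib.TWF.Top4

/-!
# TANK W, tame value groups of any rational rank: definitions

`Γ` a group of real numbers.
* `PF p Γ`: the localization of `Γ` at `p` is in a finitely generated module;
* `ZB p Γ a`: the family `a` is a basis of the localization of `Γ` at `p`;
* `TmV p v L x`: `L` closed, the values of the `x i ∈ L` a basis of the localization of the value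
  group of `L` (`r` tame letters);
* `kx v x`: the closure of `k(x_1, ..., x_r)`;
* `TmTV p v L r`: `L` is a tower of length two over the closure of `k(x_1, ..., x_r, y)`, `y` of
  transcendental type over the closure of `k(M g : g ∈ ℝ)`;
* `ExV`, `CorV`, `FFV`: the exchange, the core, the first floor;
* `TW2V p k r`: towers with two floors over the closure of a field of transcendence degree `r + 1`;
* `MonCV v r m E`: the closure of `E` is a tower over a field of monomials of a larger field.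
-/

set_option autoImplicit false

open Polynomial

namespace Pool.Agent.TWV

open Pool.Agent.H15JM (RVal)
open Pool.Agent.LU1 (VPos adj)
open Pool.Agent.D2 (Ctx0)
open Pool.Agent.D2P (hen clI mem_clI)
open Pool.Agent.TW (Ctx Full BD HRone)
open Pool.Agent.TWM (TL CompleteV Cld MS Dense Gt)
open Pool.Agent.TWC (Tow)
open Pool.Agent.TWS (VG TowR PM IsoE)

universe u

/-! ### Groups -/

/-- The localization of `Γ` at `p` is in a finitely generated module. -/
def PF (p : ℕ) (Γ : AddSubgroup ℝ) : Prop :=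
  ∃ (n : ℕ) (a : Fin n → ℝ), ∀ g ∈ Γ, ∃ m : ℕ, ¬ p ∣ m ∧ ∃ l : Fin n → ℤ,
    (m : ℝ) * g = ∑ i, (l i : ℝ) * a i

/-- The family `a` is a basis of the localization of `Γ` at `p`. -/
structure ZB (p : ℕ) (Γ : AddSubgroup ℝ) {r : ℕ} (a : Fin r → ℝ) : Prop where
  mem : ∀ i, a i ∈ Γ
  ind : LinearIndependent ℚ a
  rat : ∀ g ∈ Γ, ∃ m : ℕ, ¬ p ∣ m ∧ ∃ l : Fin r → ℤ, (m : ℝ) * g = ∑ i, (l i : ℝ) * a i

/-! ### Letters -/

section

variable {k Ω : Type u} [Field k] [Field Ω] [Algebra k Ω]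

/-- A closed field with `r` tame letters. -/
structure TmV (p : ℕ) (v : RVal Ω) (L : IntermediateField k Ω) {r : ℕ} (x : Fin r → Ω) :
    Prop where
  cld : Cld v L
  mem : ∀ i, x i ∈ L
  ne : ∀ i, x i ≠ 0
  zb : ZB p (VG v L) fun i => v (x i)

/-- The closure of `k(x_1, ..., x_r)`. -/
noncomputable def kx (k : Type u) {Ω : Type u} [Field k] [Field Ω] [Algebra k Ω] (v : RVal Ω)
    {r : ℕ} (x : Fin r → Ω) : IntermediateField k Ω :=
  clI v (IntermediateField.adjoin k (Set.range x))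

/-- The class of the closed fields of the tame leaf. -/
def TmTV (p : ℕ) (v : RVal Ω) (L : IntermediateField k Ω) (r : ℕ) : Prop :=
  ∃ (x : Fin r → Ω) (y : Ω) (s : ℝ), TmV p v L x ∧
    TowR v 2 (TWM.cadj v (kx k v x) y) L ∧
    ∀ M : ℝ → Ω, MS v ⊤ M → (∀ i, M (v (x i)) = x i) →
      TL v (PM v (⊥ : IntermediateField k Ω) ⊤ M) y s

/-- Exchange of the tame letters. -/
def ExV (k : Type u) {Ω : Type u} [Field k] [Field Ω] [Algebra k Ω] (p : ℕ) (v : RVal Ω) : Prop :=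
  ∀ (r : ℕ) (L : IntermediateField k Ω) (x u : Fin r → Ω) (M M' : ℝ → Ω), TmV p v L x →
    (∀ i, u i ∈ L) → (∀ i, Gt v (v (x i)) (u i - x i)) → MS v ⊤ M → MS v ⊤ M' →
    (∀ i, M (v (x i)) = x i) → (∀ i, M' (v (x i)) = u i) →
    TowR v 3 (PM v (⊥ : IntermediateField k Ω) ⊤ M) (PM v L ⊤ M) →
    TowR v 3 (PM v (⊥ : IntermediateField k Ω) ⊤ M') (PM v L ⊤ M')

/-- The core. -/
def CorV (k : Type u) {Ω : Type u} [Field k] [Field Ω] [Algebra k Ω] (p : ℕ) (v : RVal Ω) :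
    Prop :=
  ∀ (r : ℕ) (L : IntermediateField k Ω) (x : Fin r → Ω) (M : ℝ → Ω), TmV p v L x → MS v ⊤ M →
    (∀ i, M (v (x i)) = x i) →
    Tow v 3 (PM v (⊥ : IntermediateField k Ω) ⊤ M) (PM v L ⊤ M) →
    TowR v 3 (PM v (⊥ : IntermediateField k Ω) (VG v L) M) L

end

/-! ### The leaf -/

/-- **Row F1.** -/
def FFV (p : ℕ) (k : Type u) [Field k] : Prop :=
  ∀ (Ω H : Type u) [Field Ω] [Algebra k Ω] [Field H] [Algebra k H] [IsAlgClosed Ω] [IsAlgClosed H]
    [CharP Ω p] [CharP H p] (v : RVal Ω) (w : RVal H) (r : ℕ), Ctx k v r → CompleteV v → Ctx0 k w →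
    CompleteV w → ∀ φ : Ω →ₐ[k] H, IsoE v w φ → ∀ C₁ C : IntermediateField k Ω, C₁.FG →
    Full v C₁ → Algebra.trdeg k C₁ = (r + 1 : ℕ) → BD p v C₁ → C = clI v C₁ →
    (∃ a : Fin r → ℝ, ZB p (VG v C) a) →
    ∃ (x : Fin r → Ω) (y : Ω) (s : ℝ), (∀ i, x i ∈ C) ∧ (∀ i, x i ≠ 0) ∧
      ZB p (VG v C) (fun i => v (x i)) ∧ y ∈ C ∧ C = TWM.cadj v (kx k v x) y ∧
      ∀ M : ℝ → H, MS w ⊤ M → (∀ i, M (v (x i)) = φ (x i)) →
        TL w (PM w (⊥ : IntermediateField k H) ⊤ M) (φ y) s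

/-- **The core**, in the complete fields with real monomials. -/
def CorVs (p : ℕ) (k : Type u) [Field k] : Prop :=
  ∀ (H : Type u) [Field H] [Algebra k H] [IsAlgClosed H] [CharP H p] (w : RVal H), Ctx0 k w →
    CompleteV w → (∃ M : ℝ → H, MS w ⊤ M) → CorV k p w

/-- `M` is a tower with two floors over the closure of a field of transcendence degree `r + 1`. -/
def TW2V (p : ℕ) (k : Type u) [Field k] (r : ℕ) {Ω : Type u} [Field Ω] [Algebra k Ω] (v : RVal Ω)
    (M : IntermediateField k Ω) : Prop :=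
  ∃ C₁ C : IntermediateField k Ω, C₁.FG ∧ Full v C₁ ∧ Algebra.trdeg k C₁ = (r + 1 : ℕ) ∧
    BD p v C₁ ∧ C = clI v C₁ ∧ TowR v 2 C M

/-- The closure of `E` in the completion is a tower over a field of monomials, with a group of
rational rank `r`, of a larger complete field. -/
def MonCV {k Ω : Type u} [Field k] [Field Ω] [Algebra k Ω] (v : RVal Ω) (r m : ℕ)
    (E : IntermediateField k Ω) : Prop :=
  ∃ (Ω' : Type u) (_ : Field Ω') (_ : Algebra k Ω') (ι : Ω →ₐ[k] Ω') (v' : RVal Ω')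
    (_ : IsAlgClosed Ω') (H : Type u) (_ : Field H) (_ : Algebra k H) (_ : IsAlgClosed H)
    (φ : Ω' →ₐ[k] H) (w : RVal H), CompleteV v' ∧ Dense v v' ι ∧ Ctx0 k w ∧ CompleteV w ∧
      IsoE v' w φ ∧ ∃ (G : AddSubgroup ℝ) (M : ℝ → H) (a : Fin r → ℝ), MS w G M ∧
        (∀ i, a i ∈ G) ∧ LinearIndependent ℚ a ∧
        (∀ g ∈ G, g ∈ Submodule.span ℚ (Set.range a)) ∧
        TowR w (m + 1) (PM w (⊥ : IntermediateField k H) G M) (clI w ((E.map ι).map φ))

end Pool.Agent.TWV
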