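import Pool.Agent.Lib.TWD.NMob
import Pool.Agent.Lib.TWE_h25.All
import Pool.Agent.Lib.TWJ.ALL
import Pool.Agent.Lib.TWV.Defs

/-!
# TANK W, tame value groups of any rational rank: `r + 3` variables, from motions

* `MobQ0V`: `MobQ0` for the fields whose value group has a finitely generated localization at `p`;
* `lub_of_mobV`, `lub_transferV`, `LU.lusV`: the reduction;
* `lub_two_all`: rational rank `r`, dimension at most `r + 2`;
* `lubV_three`, `lus_threeV`: dimension at most `r + 3`.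
-/

set_option autoImplicit false

open Polynomial

namespace Pool.Agent.TWV

open Pool.Agent.H15JM (RVal)
open Pool.Agent.LU1 (VPos adj)
open Pool.Agent.LUC (Cl LUs)
open Pool.Agent.D2 (Ctx0)
open Pool.Agent.D2P (hen mem_hen mem_adj_self isAlgebraic_mono)
open Pool.Agent.LU3 (resv)
open Pool.Agent.TWS (VG)
open Pool.Agent.TW

universe u

/-- `MobQ0` for the fields whose value group has a finitely generated localization at `p`. -/
def MobQ0V (p : ℕ) {Ω : Type u} [Field Ω] (v : RVal Ω) (k : Type u) [Field k] [Algebra k Ω]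
    (r n : ℕ) : Prop :=
  ∀ K₀ : IntermediateField k Ω, K₀.FG → (∀ g : Ω, IsAlgebraic K₀ g) →
    Algebra.trdeg k K₀ = n → BD p v K₀ → PF p (VG v K₀) → HRone v K₀ →
    LUs v (algebraMap k Ω).range K₀.toSubfield → (∀ m, m < n → LUB p v k r m) →
    ∀ g : Ω, g ∉ K₀ → g ^ p ∈ K₀ → BD p v (adj K₀ g) → HRone v (adj K₀ g) ∨
      ∃ (φ : ℕ → (Ω ≃ₐ[k] Ω)) (δ : ℕ → Ω) (ρ : ℝ), Mot v K₀ φ δ ρ ∧
        ∀ i, ∃ c ∈ hen v K₀, ∃ b ∈ hen v K₀, c ≠ 0 ∧ φ i (g ^ p) = c ^ p * g ^ p + b ^ p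

/-- A subgroup. -/
theorem pf_mono {p : ℕ} {Γ Γ' : AddSubgroup ℝ} (h : PF p Γ') (hle : Γ ≤ Γ') : PF p Γ := by
  obtain ⟨n, a, ha⟩ := h
  exact ⟨n, a, fun g hg => ha g (hle hg)⟩

section

variable {k Ω : Type u} [Field k] [Field Ω] [Algebra k Ω] {v : RVal Ω} {r : ℕ}

theorem MobQ0.toV {p : ℕ} {n : ℕ} (h : MobQ0 p v k r n) : MobQ0V p v k r n :=
  fun K₀ h1 h2 h3 h4 _ h5 h6 h7 => h K₀ h1 h2 h3 h4 h5 h6 h7

/-- `lub_of_mob` for the fields whose value group has a finitely generated localization. -/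
theorem lub_of_mobV [IsAlgClosed Ω] [IsAlgClosed k] (p : ℕ) [Fact p.Prime] [CharP k p]
    [CharP Ω p] (h : Ctx k v r) {n : ℕ} (hn : r + 2 ≤ n) (hMob : MobQ0V p v k r n)
    (hlow : ∀ m, m < n → LUB p v k r m)
    (hW : ∀ W : RVal Ω, Ctx k W (r + 1) → ∀ E : IntermediateField k Ω, E.FG →
      (∀ g : Ω, IsAlgebraic E g) → Algebra.trdeg k E = n →
      LUs W (algebraMap k Ω).range E.toSubfield)
    {E : IntermediateField k Ω} (hE : E.FG) (hΩ : ∀ g : Ω, IsAlgebraic E g)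
    (htr : Algebra.trdeg k E = n) (hBD : BD p v E) (hPF : PF p (VG v E)) :
    HRone v E ∧ LU p v r E := by
  have hp : 0 < p := (Fact.out : p.Prime).pos
  obtain ⟨D, rfl⟩ : ∃ D, n = r + (D + 1) := ⟨n - (r + 1), by omega⟩
  have hlow' : LUB p v k r (r + D) := hlow (r + D) (by omega)
  have hfull : Full v E := full_of_alg hΩ
  obtain ⟨L₀, hL₀E, hL₀fg, hL₀F, hL₀n⟩ :=
    exists_corank_one (n := r + D) h (by omega) E hfull htr
  have hHR : HRone v E := by
    refine hrone_of_corank' p h E hE hfull htr hBD L₀ hL₀E hL₀fg hL₀F hL₀n ?_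
    intro K₀ _ hKE hK hfK htK hBDK hHRK g hgE hg hBDg
    by_cases hgK : g ∈ K₀
    · have h1 : adj K₀ g = K₀ := le_antisymm
        (D2P.adj_le le_rfl hgK) (mem_adj_self K₀ g).2
      rwa [h1]
    have hΩK : ∀ f : Ω, IsAlgebraic K₀ f := isAlgebraic_of_trdeg_eq htK htr hΩ
    rcases hMob K₀ hK hΩK htK hBDK (pf_mono hPF (VG.mono hKE)) hHRK
      (lus_of_hr p h hlow' hK hfK htK hBDK hHRK hΩK) hlow g hgK hg hBDg with h1 | h1
    · exact h1
    · obtain ⟨φ, δ, ρ, hM, hroot⟩ := h1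
      choose δ' hδ' using fun i => IsAlgClosed.exists_pow_nat_eq (δ i) hp
      have hM' := Mot.root p h.toCtx0 hM hδ' hg hroot
      have htg : Algebra.trdeg k (adj K₀ g) = (r + (D + 1) : ℕ) := by
        refine (trdeg_eq_of_alg (mem_adj_self K₀ g).2 (D2P.isAlgebraic_sup {g} ?_)).trans htK
        rintro s rfl
        exact D2P.isAlgebraic_of_pow hp (D2P.isAlgebraic_of_mem hg)
      have hΩg : ∀ f : Ω, IsAlgebraic (adj K₀ g) f := isAlgebraic_of_trdeg_eq htg htr hΩ
      exact hrone_of_mot p h (D2P.fg_adj hK g) hΩg htg hM' fun W hcW =>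
        hW W hcW (adj K₀ g) (D2P.fg_adj hK g) hΩg htg
  exact ⟨hHR, lu_of_hr p h hlow' hE hfull htr hBD hHR⟩

/-- `LU` for the fields with bounded distortion whose value group has a finitely generated
localization. -/
def LUBV (p : ℕ) {Ω : Type u} [Field Ω] (v : RVal Ω) (k : Type u) [Field k] [Algebra k Ω]
    (r n : ℕ) : Prop :=
  ∀ E : IntermediateField k Ω, E.FG → Full v E → Algebra.trdeg k E = n → BD p v E →
    PF p (VG v E) → LU p v r E

/-- `lub_transfer` for these fields. -/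
theorem lub_transferV [IsAlgClosed Ω] [IsAlgClosed k] (p : ℕ) [Fact p.Prime] [CharP k p]
    [CharP Ω p] (h : Ctx k v r) {n : ℕ}
    (H : ∀ (Ω' : Type u) [Field Ω'] [Algebra k Ω'] [IsAlgClosed Ω'] [CharP Ω' p] (v' : RVal Ω'),
      Ctx k v' r → ∀ E : IntermediateField k Ω', E.FG → (∀ g : Ω', IsAlgebraic E g) →
        Algebra.trdeg k E = n → BD p v' E → PF p (VG v' E) → LU p v' r E) :
    LUBV p v k r n := by
  intro E hE hEf htr hBD hPF
  set W := acl E with hWdef
  have hEW : E ≤ W := le_acl E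
  have _ : IsAlgClosed W := acl_isAlgClosed E
  have _ : CharP W p := D2P.charP_field p W
  have hctx : Ctx k (resv v W) r := WM11.ctx_acl h hEf hEW
  refine WM11.lu_map hctx hEW (H W (resv v W) hctx (E.comap W.val) (fg_comap_val hEW hE)
    (fun g => ?_) ?_ (WM11.bd_comap hBD hEW) ?_)
  · have h1 : IsAlgebraic E (g : Ω) := mem_acl.1 g.2
    obtain ⟨P, hP0, hP⟩ := h1
    let φ : E →+* (E.comap W.val : IntermediateField k W) :=
      { toFun := fun a => ⟨⟨(a : Ω), hEW a.2⟩, a.2⟩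
        map_one' := rfl
        map_mul' := fun _ _ => rfl
        map_zero' := rfl
        map_add' := fun _ _ => rfl }
    refine ⟨P.map φ, (Polynomial.map_ne_zero_iff φ.injective).2 hP0, ?_⟩
    apply (algebraMap W Ω).injective
    rw [map_zero, aeval_def, eval₂_map, hom_eval₂]
    exact hP
  · rw [← htr]
    have e : (E.comap W.val : IntermediateField k W) ≃ₐ[k] E :=
      AlgEquiv.ofBijective
        { toFun := fun a => ⟨((a : W) : Ω), a.2⟩
          map_one' := rfl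
          map_mul' := fun _ _ => rfl
          map_zero' := rfl
          map_add' := fun _ _ => rfl
          commutes' := fun _ => rfl }
        ⟨fun a b hab => Subtype.ext (Subtype.ext (congrArg (fun z : E => (z : Ω)) hab)),
          fun b => ⟨⟨⟨b, hEW b.2⟩, b.2⟩, rfl⟩⟩
    exact e.trdeg_eq
  · refine pf_mono hPF ?_
    rintro _ ⟨a, ha, h0, rfl⟩
    exact ⟨(a : Ω), ha, fun h1 => h0 (Subtype.ext h1), rfl⟩

/-- `LU.lus` for these fields. -/
theorem LU.lusV [IsAlgClosed Ω] [IsAlgClosed k] (p : ℕ) [Fact p.Prime] [CharP k p]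
    [CharP Ω p] (h : Ctx k v r) {E : IntermediateField k Ω} (hE : E.FG) (hfull : Full v E)
    (hBD : BD p v E) (hPF : PF p (VG v E)) {n : ℕ} (htr : Algebra.trdeg k E = n)
    (hLU : LUBV p v k r n) (hΩ : ∀ g : Ω, IsAlgebraic E g) :
    LUs v (algebraMap k Ω).range E.toSubfield := by
  obtain ⟨D, rfl⟩ := Nat.exists_eq_add_of_le (hfull.rank_le h htr)
  refine TW.LU.lus_of p h hE htr (hLU E hE hfull htr hBD hPF) (fun F hF => ?_) hΩ
  have hFE : F.K ≤ E := by
    have h1 : F.K = IntermediateField.adjoin k (Set.range F.x ∪ Set.range F.y) := rfl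
    rw [h1, IntermediateField.adjoin_le_iff]
    rintro _ (⟨i, rfl⟩ | ⟨j, rfl⟩)
    · exact hF.x_mem i
    · exact hF.y_mem j
  exact hLU F.K (Est.fg_K F) (Est.full_K h F) (Est.trdeg_K F)
    (hBD.congr p (Est.fg_K F) (hF.hen_eq p h)) (pf_mono hPF (VG.mono hFE))

end

/-! ### The lower dimensions -/

section

variable {k : Type u} [Field k] [IsAlgClosed k] (p : ℕ) [Fact p.Prime] [CharP k p]

include p

/-- Dimension at most `r + 2`. -/
theorem lub_two_all {r n : ℕ} (hn : n ≤ r + 2) (Ω : Type u) [Field Ω] [Algebra k Ω]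
    [IsAlgClosed Ω] [CharP Ω p] (v : RVal Ω) (h : Ctx k v r) : LUB p v k r n :=
  fun _ hE hfull htr hBD => TWJ.lu_bd_two p h (TWJ.stepAll p k r) hn hE hfull htr hBD

/-- Dimension `r + 3`, bounded distortion. -/
theorem lubV_three {r : ℕ}
    (hMob : ∀ (Ω : Type u) [Field Ω] [Algebra k Ω] [IsAlgClosed Ω] [CharP Ω p] (v : RVal Ω),
      Ctx k v r → MobQ0V p v k r (r + 3))
    (Ω : Type u) [Field Ω] [Algebra k Ω] [IsAlgClosed Ω] [CharP Ω p] (v : RVal Ω)
    (h : Ctx k v r) : LUBV p v k r (r + 3) := by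
  refine lub_transferV p h ?_
  intro Ω' _ _ _ _ v' h' E hE hΩ htr hBD hPF
  refine (lub_of_mobV p h' (n := r + 3) (by omega) (hMob Ω' v' h')
    (fun m hm => lub_two_all p (by omega) Ω' v' h') ?_ hE hΩ htr hBD hPF).2
  intro W hW E' hE' hΩ'' htr'
  exact TWJ.lus_two_all p hW (TWJ.stepAll p k (r + 1)) hE' hΩ'' (by
    rw [htr'])

/-- **Dimension at most `r + 3`**, the value group with a finitely generated localization in
dimension `r + 3`. -/
theorem lus_threeV {r : ℕ}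
    (hMob : ∀ (Ω : Type u) [Field Ω] [Algebra k Ω] [IsAlgClosed Ω] [CharP Ω p] (v : RVal Ω),
      Ctx k v r → MobQ0V p v k r (r + 3))
    (Ω : Type u) [Field Ω] [Algebra k Ω] [IsAlgClosed Ω] [CharP Ω p] (v : RVal Ω)
    (h : Ctx k v r) (E : IntermediateField k Ω) (hE : E.FG) (hΩ : ∀ g : Ω, IsAlgebraic E g)
    {n : ℕ} (htr : Algebra.trdeg k E = n) (hn : n ≤ r + 2 ∨ (n = r + 3 ∧ PF p (VG v E))) :
    LUs v (algebraMap k Ω).range E.toSubfield := by
  have hfull : Full v E := full_of_alg hΩ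
  have hrpos := h.rpos
  have hd1 : ∀ L₀ : IntermediateField k Ω, Full v L₀ → ∀ d : ℕ, Algebra.trdeg k L₀ = d →
      d ≤ r + 1 → DefL v L₀ 1 := fun L₀ hf d hd hle => R3.defL h hf (by
    rw [hd]
    exact_mod_cast hle)
  rcases hn with hn2 | ⟨rfl, hPF⟩
  · by_cases hn1 : n ≤ r + 1
    · exact lus_of_defL p h.triv hE (hfull.exists_pos h) (hd1 E hfull n htr hn1)
    obtain rfl : n = r + 2 := by omega
    exact TWJ.lus_two_all p h (TWJ.stepAll p k r) hE hΩ htr
  by_cases hBD : BD p v E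
  · exact LU.lusV p h hE hfull hBD hPF htr (lubV_three p hMob Ω v h) hΩ
  refine lus_codim_one_nbd p h (fun m' _ h2 => lub_two_all p (by omega) Ω v h) hE hΩ htr
    hBD ?_
  intro L₀ _ hfull₀ _ h2
  rw [htr] at h2
  have h3 : Algebra.trdeg k L₀ < Cardinal.aleph0 :=
    ((self_le_add_right _ _).trans h2).trans_lt Cardinal.natCast_lt_aleph0
  obtain ⟨d, hd⟩ := Cardinal.lt_aleph0.1 h3
  rw [hd] at h2
  have h4 : d + 2 ≤ r + 3 := by exact_mod_cast h2
  exact hd1 L₀ hfull₀ d hd (by omega)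

end

end Pool.Agent.TWV
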