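import Pool.Agent.Lib.TWV.Leaf
import Pool.Agent.Lib.TWV.MobV

/-!
# TANK W, tame value groups of any rational rank: uniformization from the tame leaf

* `mobQ0V_of_leaf`: `TameLeafV` gives `MobQ0V`;
* `lus_V`: rational rank `r`, dimension at most `r + 3`, from `TameLeafV`.
-/

set_option autoImplicit false

open Polynomial

namespace Pool.Agent.TWV

open Pool.Agent.H15JM (RVal)
open Pool.Agent.LU1 (adj)
open Pool.Agent.LUC (LUs)
open Pool.Agent.TWS (VG)
open Pool.Agent.TW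

universe u

section

variable {k : Type u} [Field k] [IsAlgClosed k] (p : ℕ) [Fact p.Prime] [CharP k p]

omit [IsAlgClosed k] [Fact p.Prime] [CharP k p] in
/-- `MobQ0V` from the tame leaf. -/
theorem mobQ0V_of_leaf (hT : TameLeafV p k) {r : ℕ} (Ω : Type u) [Field Ω] [Algebra k Ω]
    [IsAlgClosed Ω] [CharP Ω p] (v : RVal Ω) (h : Ctx k v r) : MobQ0V p v k r (r + 3) := by
  intro K₀ hK hΩ htr hBD hPF hHR _ _ g _ hg hBDg
  exact Or.inl (hT Ω v r h K₀ hK hΩ htr hBD hHR hPF g hg hBDg)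

/-- `HRone` and `LU` in dimension `r + 3`, from the tame leaf. -/
theorem hrone_V (hT : TameLeafV p k) {r : ℕ} {Ω : Type u} [Field Ω] [Algebra k Ω]
    [IsAlgClosed Ω] [CharP Ω p] {v : RVal Ω} (h : Ctx k v r) {E : IntermediateField k Ω}
    (hE : E.FG) (hΩ : ∀ g : Ω, IsAlgebraic E g) (htr : Algebra.trdeg k E = (r + 3 : ℕ))
    (hBD : BD p v E) (hPF : PF p (VG v E)) : HRone v E ∧ LU p v r E := by
  refine lub_of_mobV p h (n := r + 3) (by omega) (mobQ0V_of_leaf p hT Ω v h)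
    (fun m hm => lub_two_all p (by omega) Ω v h) ?_ hE hΩ htr hBD hPF
  intro W hW E' hE' hΩ' htr'
  exact TWJ.lus_two_all p hW (TWJ.stepAll p k (r + 1)) hE' hΩ' (by rw [htr'])

/-- **Dimension at most `r + 3`**, from the tame leaf: the value group with a finitely generated
localization in dimension `r + 3`. -/
theorem lus_V (hT : TameLeafV p k) {r : ℕ} {Ω : Type u} [Field Ω] [Algebra k Ω]
    [IsAlgClosed Ω] [CharP Ω p] {v : RVal Ω} (h : Ctx k v r) {E : IntermediateField k Ω}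
    (hE : E.FG) (hΩ : ∀ g : Ω, IsAlgebraic E g) {n : ℕ} (htr : Algebra.trdeg k E = n)
    (hn : n ≤ r + 2 ∨ (n = r + 3 ∧ PF p (VG v E))) :
    LUs v (algebraMap k Ω).range E.toSubfield :=
  lus_threeV p (fun Ω _ _ _ _ v h => mobQ0V_of_leaf p hT Ω v h) Ω v h E hE hΩ htr hn

end

end Pool.Agent.TWV
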