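import Pool.Agent.Lib.TWV.TopV
import Pool.Agent.Lib.TWV.F1V
import Pool.Agent.Lib.TWV.LusV
import Pool.Agent.Lib.TWV.ClsV

/-!
# TANK W, tame value groups of any rational rank: the theorems

* `tameLeafV`: the tame leaf;
* `realCls_td`: the class `TDCls`.
-/

set_option autoImplicit false

namespace Pool.Agent.TWV

open Pool.Agent.TW (RealCls)

universe u

/-- **The tame leaf.** -/
theorem tameLeafV (p : ℕ) [Fact p.Prime] (k : Type u) [Field k] [IsAlgClosed k] [CharP k p] :
    TameLeafV p k := tameLeafV_of p k (ffV p k)

/-- The class of the valuation rings with residue field `k` and defect at most two, or at most three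
and the localization at `p` of the value group in a finitely generated module. -/
theorem realCls_td (p : ℕ) [Fact p.Prime] (k : Type u) [Field k] [IsAlgClosed k] [CharP k p] :
    RealCls (TDCls p k) :=
  realCls_td_of p fun _ _ _ _ _ _ _ h _ hE hΩ _ htr hn => lus_V p (tameLeafV p k) h hE hΩ htr hn

end Pool.Agent.TWV
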