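import Pool.Agent.Lib.TWV.EntV
import Pool.Agent.Lib.TW.TopZ

/-!
# TANK W, tame value groups of any rational rank: components

* `zero_defLE_gen`: the defect of a component with residue field algebraic over `k`;
* `td_of_component`: the components with `[Γ : p Γ] = p ^ r` and defect at most three;
* `two_of_component`: the components with defect at most two.
-/

set_option autoImplicit false

namespace Pool.Agent.TWV

open Pool.Agent.H15JM (RVal)
open Pool.Agent.LU2 Pool.Agent.LU2G Pool.Agent.LU2H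
open Pool.Agent.TW (zero_res compIndex)

theorem zero_defLE_gen {k K : Type} [Field k] [IsAlgClosed k] [Field K] [Algebra k K]
    {V V₁ : ValuationSubring K} (hle : V ≤ V₁) (hk : ∀ c : k, algebraMap k K c ∈ V)
    (hk₁ : ∀ c : k, algebraMap k K c ∈ V₁) (h0 : resDegree (algebraMap k K) V hk = 0)
    (hfin : resDegree (algebraMap k K) V₁ hk₁ < Cardinal.aleph0) {δ : ℕ}
    (h2 : resDegree (algebraMap k K) V₁ hk₁ ≤ compRank V V₁ + (δ : ℕ)) :
    @DefLE k (IsLocalRing.ResidueField V₁) _ _ (((IsLocalRing.residue V₁).comp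
      ((algebraMap k K).codRestrict V₁ hk₁)).toAlgebra) (imgV hle) δ := by
  let alg : Algebra k (IsLocalRing.ResidueField V₁) :=
    ((IsLocalRing.residue V₁).comp ((algebraMap k K).codRestrict V₁ hk₁)).toAlgebra
  have hres : IsRes (k := k) V V₁ (IsLocalRing.residue V₁) (imgV hle) :=
    isRes_residue hle hk hk₁
  have h' : Algebra.trdeg k (IsLocalRing.ResidueField V₁) ≤
      compRank V V₁ + resDegree (algebraMap k K) V hk + ((δ : ℕ) : Cardinal) := by
    rw [h0, add_zero]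
    exact h2
  obtain ⟨r, d, hr, hd, hT⟩ := exists_nat_split hfin h'
  obtain ⟨x, hx1, hx⟩ := exists_units V V₁ hr
  obtain ⟨z, hz⟩ := exists_indRes' V hk hd
  refine ⟨r, d, hT, ?_, ?_⟩
  · have hxm : ∀ i, x i ∈ V₁ := fun i => (V₁.valuation_le_one_iff _).1 (hx1 i).le
    exact ⟨_, hres.indVal₂ (y := fun i => ⟨x i, hxm i⟩) hx1 hx⟩
  · exact ⟨_, hres.indRes₂ (fun i => ⟨z i, hle (hz.1 i)⟩) hz⟩

/-- **The components with `[Γ : p Γ] = p ^ r` and defect at most three.** -/
theorem td_of_component {p : ℕ} [Fact p.Prime] {k K : Type} [Field k] [IsAlgClosed k] [Field K]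
    [Algebra k K] {V₁ V₂ : ValuationSubring K} (hc : Covers V₁ V₂)
    (hk₁ : ∀ c : k, algebraMap k K c ∈ V₁) (hk₂ : ∀ c : k, algebraMap k K c ∈ V₂)
    (h0 : resDegree (algebraMap k K) V₁ hk₁ = 0)
    (hfin : resDegree (algebraMap k K) V₂ hk₂ < Cardinal.aleph0) {r : ℕ}
    (hr : compRank V₁ V₂ = r) (hi : compIndex p V₁ V₂ = p ^ r)
    (h3 : resDegree (algebraMap k K) V₂ hk₂ ≤ (r : ℕ) + 3) :
    @TDCls p k _ (IsLocalRing.ResidueField V₂) _ (((IsLocalRing.residue V₂).comp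
      ((algebraMap k K).codRestrict V₂ hk₂)).toAlgebra) (imgV hc.1.le) := by
  let alg : Algebra k (IsLocalRing.ResidueField V₂) :=
    ((IsLocalRing.residue V₂).comp ((algebraMap k K).codRestrict V₂ hk₂)).toAlgebra
  have hres : IsRes (k := k) V₁ V₂ (IsLocalRing.residue V₂) (imgV hc.1.le) :=
    isRes_residue hc.1.le hk₁ hk₂
  refine ⟨zero_res hc.1.le hk₁ hk₂ h0, Or.inr ⟨?_, pfc_of_index hc.1.le hres.mem
    (hc.isR1 hres) hr hi⟩⟩
  refine zero_defLE_gen hc.1.le hk₁ hk₂ h0 hfin ?_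
  rw [hr]
  exact_mod_cast h3

/-- The components with defect at most two. -/
theorem two_of_component {p : ℕ} {k K : Type} [Field k] [IsAlgClosed k] [Field K]
    [Algebra k K] {V₁ V₂ : ValuationSubring K} (hc : Covers V₁ V₂)
    (hk₁ : ∀ c : k, algebraMap k K c ∈ V₁) (hk₂ : ∀ c : k, algebraMap k K c ∈ V₂)
    (h0 : resDegree (algebraMap k K) V₁ hk₁ = 0)
    (hfin : resDegree (algebraMap k K) V₂ hk₂ < Cardinal.aleph0)
    (h2 : resDegree (algebraMap k K) V₂ hk₂ ≤ compRank V₁ V₂ + 2) :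
    @TDCls p k _ (IsLocalRing.ResidueField V₂) _ (((IsLocalRing.residue V₂).comp
      ((algebraMap k K).codRestrict V₂ hk₂)).toAlgebra) (imgV hc.1.le) :=
  ⟨zero_res hc.1.le hk₁ hk₂ h0, Or.inl (zero_defLE_gen hc.1.le hk₁ hk₂ h0 hfin
    (by rw [Nat.cast_ofNat]; exact h2))⟩

end Pool.Agent.TWV
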