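import Pool.Agent.Lib.LU2G.CompDefs

/-!
# The index of `p Γ` in the value group `Γ` of a component
-/

set_option autoImplicit false

namespace Pool.Agent.TW

open Pool.Agent.LU2G

/-- The index of `p Γ` in the value group `Γ` of the component of `V` between `V` and `V'` (zero, if
this index is infinite). -/
noncomputable def compIndex (p : ℕ) {K : Type} [Field K] (V V' : ValuationSubring K) : ℕ :=
  letI : AddCommGroup (CompGroup V V') := inferInstance
  (nsmulAddMonoidHom (α := CompGroup V V') p).range.index

end Pool.Agent.TW
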