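import Pool.Agent.Lib.TWV.ClsV
import Pool.Agent.Lib.TWV.IndexDefs

/-!
# TANK W, tame value groups of any rational rank: the value group of a component

* `exists_ipd`: `r` elements of `A` independent modulo `p`, if `A / p A` has `p ^ r` elements;
* `exists_rel_of_rank`: in a group of rank `r`, `r` independent elements are a basis up to torsion;
* `exists_zb_of_index`: a group of real numbers of rank `r` with `[Γ : p Γ] = p ^ r` has a basis at
  `p`;
* `exists_compHom`: the value group of a component as a group of real numbers;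
* `pfc_of_index`: `PFc p` for the components with `[Γ : p Γ] = p ^ r`.
-/

set_option autoImplicit false

namespace Pool.Agent.TWV

open Pool.Agent.H15JM (RVal)
open Pool.Agent.LU2 Pool.Agent.LU2G
open Pool.Agent.TW (compIndex)

/-! ### Groups -/

section Grp

variable {p : ℕ} [hp : Fact p.Prime] {A : Type} [AddCommGroup A] {r : ℕ}

/-- A vector space with `p ^ r` elements. -/
theorem exists_basis_card {Q : Type} [AddCommGroup Q] [Module (ZMod p) Q] [Finite Q]
    (hcard : Nat.card Q = p ^ r) :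
    ∃ b : Fin r → Q, ∀ m : Fin r → ℤ, ∑ i, m i • b i = 0 → ∀ i, (p : ℤ) ∣ m i := by
  have hF : Module.Finite (ZMod p) Q := Module.Finite.of_finite
  have hrank : Module.finrank (ZMod p) Q = r := by
    have h1 := Module.natCard_eq_pow_finrank (K := ZMod p) (V := Q)
    rw [hcard, Nat.card_zmod] at h1
    exact (Nat.pow_right_injective hp.out.two_le h1).symm
  let b := Module.finBasisOfFinrankEq (ZMod p) Q hrank
  refine ⟨b, fun m hm i => ?_⟩
  have h1 : ∑ i, (m i : ZMod p) • b i = 0 := by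
    rw [← hm]
    exact Finset.sum_congr rfl fun i _ => Int.cast_smul_eq_zsmul _ _ _
  have h2 := Fintype.linearIndependent_iff.1 b.linearIndependent (fun i => (m i : ZMod p)) h1 i
  exact (ZMod.intCast_zmod_eq_zero_iff_dvd _ _).1 h2

/-- Elements independent modulo `p`. -/
theorem exists_ipd (h : (nsmulAddMonoidHom (α := A) p).range.index = p ^ r) :
    ∃ a : Fin r → A, ∀ (m : Fin r → ℤ) (b : A), ∑ i, m i • a i = p • b → ∀ i, (p : ℤ) ∣ m i := by
  classical
  set H := (nsmulAddMonoidHom (α := A) p).range with hH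
  have hz : ∀ x : A ⧸ H, p • x = 0 := by
    intro x
    obtain ⟨y, rfl⟩ := QuotientAddGroup.mk_surjective x
    rw [← QuotientAddGroup.mk_nsmul, QuotientAddGroup.eq_zero_iff]
    exact ⟨y, rfl⟩
  have hcard : Nat.card (A ⧸ H) = p ^ r := h
  have hfin : Finite (A ⧸ H) := by
    refine Nat.finite_of_card_ne_zero ?_
    rw [hcard]
    exact pow_ne_zero _ hp.out.ne_zero
  obtain ⟨b, hb⟩ := @exists_basis_card p hp r (A ⧸ H) _ (AddCommGroup.zmodModule hz) hfin hcard
  choose a ha using fun i => QuotientAddGroup.mk_surjective (b i)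
  refine ⟨a, fun m c hc => hb m ?_⟩
  have h2 : ((∑ i, m i • a i : A) : A ⧸ H) = 0 := by
    rw [hc, QuotientAddGroup.eq_zero_iff]
    exact ⟨c, rfl⟩
  rw [← h2, QuotientAddGroup.mk_sum]
  refine Finset.sum_congr rfl fun i _ => ?_
  rw [QuotientAddGroup.mk_zsmul, ha]

omit hp in
/-- Independent elements whose number is the rank. -/
theorem exists_rel_of_rank (hr : Module.rank ℤ A = r) {a : Fin r → A}
    (ha : LinearIndependent ℤ a) (g : A) :
    ∃ n : ℤ, n ≠ 0 ∧ ∃ l : Fin r → ℤ, n • g = ∑ i, l i • a i := by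
  classical
  have h1 : ¬ LinearIndependent ℤ (Fin.snoc a g : Fin (r + 1) → A) := by
    intro h2
    have h3 := h2.cardinal_le_rank
    rw [hr, Cardinal.mk_fin] at h3
    have h4 : r + 1 ≤ r := by exact_mod_cast h3
    omega
  rw [Fintype.not_linearIndependent_iff] at h1
  obtain ⟨c, hc, i, hi⟩ := h1
  rw [Fin.sum_univ_castSucc] at hc
  simp only [Fin.snoc_castSucc, Fin.snoc_last] at hc
  refine ⟨c (Fin.last r), ?_, fun i => - c i.castSucc, ?_⟩
  · intro h0
    rw [h0, zero_smul, add_zero] at hc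
    have h2 := Fintype.linearIndependent_iff.1 ha _ hc
    rcases Fin.eq_castSucc_or_eq_last i with ⟨j, rfl⟩ | rfl
    · exact hi (h2 j)
    · exact hi h0
  · simp only [neg_smul, Finset.sum_neg_distrib]
    exact eq_neg_of_add_eq_zero_right hc

end Grp

/-- A group of rank `r`, in the real numbers, with `[Γ : p Γ] = p ^ r`. -/
theorem exists_zb_of_index {p : ℕ} [hp : Fact p.Prime] {A : Type} [AddCommGroup A] {r : ℕ}
    (hi : (nsmulAddMonoidHom (α := A) p).range.index = p ^ r) (hr : Module.rank ℤ A = r)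
    (ψ : A →+ ℝ) (hψ : Function.Injective ψ) : ∃ a : Fin r → ℝ, ZB p ψ.range a := by
  classical
  obtain ⟨a, ha⟩ := exists_ipd hi
  have hp0 : (p : ℤ) ≠ 0 := by exact_mod_cast hp.out.ne_zero
  have htf : ∀ x : A, p • x = 0 → x = 0 := by
    intro x hx
    apply hψ
    have h1 : ψ (p • x) = 0 := by rw [hx, map_zero]
    rw [map_nsmul, nsmul_eq_mul] at h1
    rw [map_zero]
    rcases mul_eq_zero.1 h1 with h2 | h2
    · exact absurd (by exact_mod_cast h2) hp.out.ne_zero
    · exact h2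
  -- divisibility in all the powers
  have hpow : ∀ (N : ℕ) (m : Fin r → ℤ), ∑ i, m i • a i = 0 → ∀ i, (p : ℤ) ^ N ∣ m i := by
    intro N
    induction N with
    | zero => intro m _ i; simp
    | succ N ih =>
      intro m hm i
      have h1 : ∀ i, (p : ℤ) ∣ m i := ha m 0 (by rw [hm, smul_zero])
      choose m' hm' using h1
      have h2 : ∑ i, m' i • a i = 0 := by
        apply htf
        rw [Finset.smul_sum, ← hm]
        refine Finset.sum_congr rfl fun i _ => ?_
        rw [hm' i, ← natCast_zsmul, smul_smul]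
      rw [hm' i, pow_succ']
      exact mul_dvd_mul_left _ (ih m' h2 i)
  have hZ : LinearIndependent ℤ a := by
    rw [Fintype.linearIndependent_iff]
    intro m hm i
    by_contra h0
    obtain ⟨N, hN⟩ : ∃ N : ℕ, (m i).natAbs < p ^ N := ⟨(m i).natAbs, Nat.lt_pow_self hp.out.one_lt⟩
    have h1 := Int.natAbs_dvd_natAbs.2 (hpow N m hm i)
    rw [Int.natAbs_pow, Int.natAbs_natCast] at h1
    exact absurd (Nat.le_of_dvd (Int.natAbs_pos.2 h0) h1) (not_le.2 hN)
  have hψZ : LinearIndependent ℤ fun i => ψ (a i) := by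
    rw [Fintype.linearIndependent_iff] at hZ ⊢
    intro m hm
    refine hZ m (hψ ?_)
    rw [map_sum, map_zero, ← hm]
    exact Finset.sum_congr rfl fun i _ => map_zsmul ψ _ _
  refine ⟨fun i => ψ (a i), fun i => ⟨a i, rfl⟩,
    (LinearIndependent.iff_fractionRing (R := ℤ) (K := ℚ)).1 hψZ, ?_⟩
  rintro _ ⟨g, rfl⟩
  obtain ⟨n, hn, l, hl⟩ := exists_rel_of_rank hr hZ g
  -- prime to `p`
  obtain ⟨n', hn', l', hl'⟩ : ∃ n : ℤ, ¬ (p : ℤ) ∣ n ∧ ∃ l : Fin r → ℤ,
      n • g = ∑ i, l i • a i := by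
    obtain ⟨j, n', hn', rfl⟩ : ∃ (j : ℕ) (n' : ℤ), ¬ (p : ℤ) ∣ n' ∧ n = p ^ j * n' :=
      (Int.finiteMultiplicity_iff.2 ⟨by
        rw [Int.natAbs_natCast]
        exact hp.out.ne_one, hn⟩).exists_eq_pow_mul_and_not_dvd.elim fun c hc =>
          ⟨_, c, hc.2, hc.1⟩
    refine ⟨n', hn', ?_⟩
    clear hn
    induction j generalizing l with
    | zero => exact ⟨l, by rw [← hl, pow_zero, one_mul]⟩
    | succ j ih =>
      have h1 : ∀ i, (p : ℤ) ∣ l i := ha l ((p ^ j * n' : ℤ) • g) (by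
        rw [← hl, ← natCast_zsmul, smul_smul, pow_succ']
        ring_nf)
      choose l' hl' using h1
      refine ih l' ?_
      have h2 : p • ((p ^ j * n' : ℤ) • g - ∑ i, l' i • a i) = 0 := by
        rw [smul_sub, sub_eq_zero, Finset.smul_sum, ← natCast_zsmul, smul_smul]
        have h3 : ((p : ℤ) * (p ^ j * n')) • g = ∑ i, l i • a i := by
          rw [← hl, pow_succ']
          ring_nf
        rw [h3]
        refine Finset.sum_congr rfl fun i _ => ?_
        rw [hl' i, ← natCast_zsmul, smul_smul]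
      exact sub_eq_zero.1 (htf _ h2)
  have key : ∀ (n : ℤ) (l : Fin r → ℤ), n • g = ∑ i, l i • a i →
      (n : ℝ) * ψ g = ∑ i, (l i : ℝ) * ψ (a i) := by
    intro n l h1
    have h2 := congrArg ψ h1
    rw [map_zsmul, map_sum, zsmul_eq_mul] at h2
    rw [h2]
    refine Finset.sum_congr rfl fun i _ => ?_
    rw [map_zsmul, zsmul_eq_mul]
  refine ⟨n'.natAbs, fun h1 => hn' (Int.natCast_dvd.2 h1), ?_⟩
  rcases Int.natAbs_eq n' with h1 | h1
  · refine ⟨l', ?_⟩
    rw [← key n' l' hl', h1]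
    simp
  · refine ⟨fun i => - l' i, ?_⟩
    have h2 : (n'.natAbs : ℝ) = - (n' : ℝ) := by
      have h3 : (n' : ℝ) = ((-(n'.natAbs : ℤ) : ℤ) : ℝ) := congrArg _ h1
      rw [Int.cast_neg, Int.cast_natCast] at h3
      rw [h3, neg_neg]
    rw [h2, neg_mul, key n' l' hl', ← Finset.sum_neg_distrib]
    refine Finset.sum_congr rfl fun i _ => ?_
    push_cast
    ring

/-! ### Components -/

/-- The value group of a component as a group of real numbers. -/
theorem exists_compHom {K K₁ : Type} [Field K] [Field K₁] {V₁ V₂ : ValuationSubring K}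
    (φ : V₂ →+* K₁) (hφ : Function.Surjective φ) {W : ValuationSubring K₁}
    (hmem : ∀ x : V₂, φ x ∈ W ↔ (x : K) ∈ V₁)
    (hunit : ∀ x : V₂, φ x ≠ 0 → IsUnit x) {w : RVal K₁} (hw : Rel W w) :
    letI : AddCommGroup (CompGroup V₁ V₂) := inferInstance
    ∃ ψ : CompGroup V₁ V₂ →+ ℝ, Function.Injective ψ ∧ ψ.range = vals w := by
  classical
  let i0 : AddCommGroup (CompGroup V₁ V₂) := inferInstance
  have hne : ∀ u : V₂.unitGroup, φ ((V₂.unitGroupMulEquiv u : V₂ˣ) : V₂) ≠ 0 := fun u =>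
    ((V₂.unitGroupMulEquiv u).isUnit.map φ).ne_zero
  -- the values
  let f : V₂.unitGroup →* Multiplicative ℝ :=
    { toFun := fun u => Multiplicative.ofAdd (w (φ ((V₂.unitGroupMulEquiv u : V₂ˣ) : V₂)))
      map_one' := by
        rw [map_one, Units.val_one, map_one, w.map_one]
        rfl
      map_mul' := fun a b => by
        rw [map_mul, Units.val_mul, map_mul, w.map_mul (hne a) (hne b)]
        rfl }
  have hf : ∀ u : V₂.unitGroup, f u = 1 ↔ u ∈ V₁.unitGroup.subgroupOf V₂.unitGroup := by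
    intro u
    have e1 : ((((V₂.unitGroupMulEquiv u : V₂ˣ) : V₂)) : K) = ((u : Kˣ) : K) := rfl
    have e2 : (((V₂.unitGroupMulEquiv u⁻¹ : V₂ˣ) : V₂) : K) = (((u : Kˣ) : K))⁻¹ := by
      change (((u⁻¹ : V₂.unitGroup) : Kˣ) : K) = _
      simp
    have h1 : (((u : Kˣ) : K) ∈ V₁) ↔ 0 ≤ w (φ ((V₂.unitGroupMulEquiv u : V₂ˣ) : V₂)) := by
      rw [← hw _ (hne u), hmem, e1]
    have h2 : ((((u : Kˣ) : K))⁻¹ ∈ V₁) ↔
        0 ≤ - w (φ ((V₂.unitGroupMulEquiv u : V₂ˣ) : V₂)) := by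
      rw [← e2, ← hmem, hw _ (hne u⁻¹)]
      have h3 : φ ((V₂.unitGroupMulEquiv u⁻¹ : V₂ˣ) : V₂) =
          (φ ((V₂.unitGroupMulEquiv u : V₂ˣ) : V₂))⁻¹ := by
        refine eq_inv_of_mul_eq_one_left ?_
        rw [← map_mul, ← Units.val_mul, ← map_mul, inv_mul_cancel, map_one, Units.val_one, map_one]
      rw [h3, w.map_inv (hne u)]
    rw [Subgroup.mem_subgroupOf, ValuationSubring.mem_unitGroup_iff]
    have h4 : f u = 1 ↔ w (φ ((V₂.unitGroupMulEquiv u : V₂ˣ) : V₂)) = 0 := Iff.rfl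
    have hu0 : ((u : Kˣ) : K) ≠ 0 := Units.ne_zero _
    have h5 : V₁.valuation ((u : Kˣ) : K) ≠ 0 := (Valuation.ne_zero_iff _).2 hu0
    rw [h4, le_antisymm_iff (a := V₁.valuation ((u : Kˣ) : K)), V₁.valuation_le_one_iff, h1]
    have h6 : 1 ≤ V₁.valuation ((u : Kˣ) : K) ↔
        0 ≤ - w (φ ((V₂.unitGroupMulEquiv u : V₂ˣ) : V₂)) := by
      rw [← h2, ← V₁.valuation_le_one_iff, map_inv₀, inv_le_one₀ (zero_lt_iff.2 h5)]
    rw [h6]
    constructor
    · intro h7
      rw [h7]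
      simp
    · rintro ⟨h7, h8⟩
      linarith
  let F : (V₂.unitGroup ⧸ V₁.unitGroup.subgroupOf V₂.unitGroup) →* Multiplicative ℝ :=
    QuotientGroup.lift _ f fun u hu => (hf u).2 hu
  let ψ : CompGroup V₁ V₂ →+ ℝ := MonoidHom.toAdditiveLeft F
  have hψ : ∀ u : V₂.unitGroup, ψ (Additive.ofMul (QuotientGroup.mk u)) =
      w (φ ((V₂.unitGroupMulEquiv u : V₂ˣ) : V₂)) := fun u => rfl
  refine ⟨ψ, ?_, ?_⟩
  · rw [injective_iff_map_eq_zero]
    intro a ha
    obtain ⟨u, hu⟩ := QuotientGroup.mk_surjective (Additive.toMul a)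
    have h1 : a = Additive.ofMul (QuotientGroup.mk u) := by
      rw [hu]
      rfl
    rw [h1] at ha ⊢
    rw [hψ] at ha
    have h2 := (hf u).1 ha
    rw [(QuotientGroup.eq_one_iff u).2 h2]
    rfl
  · ext x
    constructor
    · rintro ⟨a, rfl⟩
      obtain ⟨u, hu⟩ := QuotientGroup.mk_surjective (Additive.toMul a)
      have h1 : a = Additive.ofMul (QuotientGroup.mk u) := by
        rw [hu]
        rfl
      rw [h1, hψ]
      exact ⟨_, hne u, rfl⟩
    · rintro ⟨g, hg0, rfl⟩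
      obtain ⟨x, rfl⟩ := hφ g
      obtain ⟨y, hy⟩ := hunit x hg0
      refine ⟨Additive.ofMul (QuotientGroup.mk (V₂.unitGroupMulEquiv.symm y)), ?_⟩
      rw [hψ, MulEquiv.apply_symm_apply, hy]

/-- **The components.** -/
theorem pfc_of_index {p : ℕ} [Fact p.Prime] {K : Type} [Field K] {V₁ V₂ : ValuationSubring K}
    (hle : V₁ ≤ V₂)
    (hmem : ∀ x : V₂, IsLocalRing.residue V₂ x ∈ imgV hle ↔ (x : K) ∈ V₁)
    (hR : IsR1 (imgV hle)) {r : ℕ}
    (hr : compRank V₁ V₂ = r) (hi : compIndex p V₁ V₂ = p ^ r) : PFc p (imgV hle) := by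
  let i0 : AddCommGroup (CompGroup V₁ V₂) := inferInstance
  obtain ⟨w, -, hrel, -⟩ := LUC.exists_entry (imgV hle) hR
  obtain ⟨ψ, hψ, hran⟩ := exists_compHom (V₁ := V₁) (IsLocalRing.residue V₂)
    IsLocalRing.residue_surjective hmem
    (fun x hx => by
      by_contra h1
      exact hx ((IsLocalRing.residue_eq_zero_iff x).2 ((IsLocalRing.mem_maximalIdeal x).2 h1)))
    hrel
  obtain ⟨a, ha⟩ := exists_zb_of_index hi hr ψ hψ
  rw [hran] at ha
  exact ⟨w, hrel, r, a, ha.rat⟩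

/-- The valuation rings of rank one. -/
theorem pfc_of_index_top {p : ℕ} [Fact p.Prime] {K : Type} [Field K] {V : ValuationSubring K}
    (hR : IsR1 V) {r : ℕ} (hr : compRank V ⊤ = r) (hi : compIndex p V ⊤ = p ^ r) :
    PFc p V := by
  let i0 : AddCommGroup (CompGroup V ⊤) := inferInstance
  obtain ⟨w, -, hrel, -⟩ := LUC.exists_entry V hR
  obtain ⟨ψ, hψ, hran⟩ := exists_compHom (V₁ := V) (V₂ := ⊤)
    (⊤ : ValuationSubring K).subtype (fun x => ⟨⟨x, ValuationSubring.mem_top x⟩, rfl⟩)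
    (fun x => Iff.rfl)
    (fun x hx => by
      refine isUnit_iff_exists_inv.2 ⟨⟨(x : K)⁻¹, ValuationSubring.mem_top _⟩, ?_⟩
      exact Subtype.ext (mul_inv_cancel₀ hx))
    hrel
  obtain ⟨a, ha⟩ := exists_zb_of_index hi hr ψ hψ
  rw [hran] at ha
  exact ⟨w, hrel, r, a, ha.rat⟩

end Pool.Agent.TWV
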