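import Pool.Agent.Lib.TWIV.TrfE
import Pool.Agent.Lib.TWIV.TmG
import Pool.Agent.Lib.TWIV.Coarse

/-!
# TANK W, tame case, rational rank `r`: the two worlds

`Γ` a group of real numbers, `R` a finite set of representatives of `Γ / p Γ`.
* `fib_rep`, `rep_satp`, `inj_satp`: finite fibres of `p` on `ℝ / Γ`; the saturation prime to `p`;
* `fin_rat`, `rat_satp`: the values are not `p`-divisible, letters with independent values;
* `worldc_of`: the world of a closed field with its monomials; the coarse world.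
-/

set_option autoImplicit false

open Polynomial

namespace Pool.Agent.TWV

open Pool.Agent.H15JM (RVal)
open Pool.Agent.LU1 (VPos adj)
open Pool.Agent.D2 (Ctx0)
open Pool.Agent.D2P (hen clI mem_clI)
open Pool.Agent.TWM Pool.Agent.TWC Pool.Agent.TWS Pool.Agent.TWT Pool.Agent.TWIV

universe u

section Group

variable {Γ : AddSubgroup ℝ} {p : ℕ} {R : Finset ℝ} {r : ℕ} {e : Fin r → ℝ}

/-- Finite fibres, finitely many classes modulo `p`. -/
theorem fib_rep (hp : p.Prime) (h : ∀ g ∈ Γ, ∃ c ∈ R, ∃ g' ∈ Γ, g = c + p * g') (c : ℝ ⧸ Γ) :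
    {d : ℝ ⧸ Γ | p • d = c}.Finite := by
  classical
  have hp0 : (p : ℝ) ≠ 0 := Nat.cast_ne_zero.2 hp.ne_zero
  refine finite_fibre hp.pos (R.image fun c => c / p) (fun g hg => ?_) c
  obtain ⟨c, hc, g', hg', h1⟩ := h g hg
  refine ⟨c / p, Finset.mem_image.2 ⟨c, hc, rfl⟩, ?_⟩
  have h2 : g / p - c / p = g' := by
    rw [h1]
    field_simp
    ring
  rwa [h2]

variable [hp : Fact p.Prime]

/-- The representatives of the saturation. -/
theorem rep_satp (h : ∀ g ∈ Γ, ∃ c ∈ R, ∃ g' ∈ Γ, g = c + p * g') :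
    ∀ g ∈ satp p Γ, ∃ c ∈ R, ∃ g' ∈ satp p Γ, g = c + p * g' := by
  rintro g ⟨n, hn, hng⟩
  obtain ⟨a, b, hab⟩ : IsCoprime (n : ℤ) (p : ℤ) := by
    rw [Nat.isCoprime_iff_coprime]
    exact ((Nat.Prime.coprime_iff_not_dvd hp.out).2 hn).symm
  obtain ⟨c, hc, g', hg', h1⟩ := h (a * (n * g)) (by
    have := Γ.zsmul_mem hng a
    rwa [zsmul_eq_mul] at this)
  refine ⟨c, hc, g' + b * g, (satp p Γ).add_mem (le_satp hg') ?_, ?_⟩
  · have h2 : g ∈ satp p Γ := ⟨n, hn, hng⟩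
    have := (satp p Γ).zsmul_mem h2 b
    rwa [zsmul_eq_mul] at this
  · have hab' : (a : ℝ) * n + b * p = 1 := by exact_mod_cast hab
    linear_combination (-g) * hab' + h1

/-- The classes modulo `p` of the saturation. -/
theorem inj_satp (h0 : ∀ c ∈ R, c ∈ Γ)
    (h : ∀ c ∈ R, ∀ c' ∈ R, (c - c') / p ∈ Γ → c = c') :
    ∀ c ∈ R, ∀ c' ∈ R, (c - c') / p ∈ satp p Γ → c = c' := by
  have hp0 : (p : ℝ) ≠ 0 := Nat.cast_ne_zero.2 hp.out.ne_zero
  rintro c hc c' hc' ⟨n, hn, hng⟩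
  refine h c hc c' hc' (mem_of_coprime hn hng (m := 1) ?_)
  rw [pow_one, mul_div_cancel₀ _ hp0]
  exact Γ.sub_mem (h0 c hc) (h0 c' hc')

/-- The values of the saturation. -/
theorem rat_satp (h : ∀ g ∈ Γ, ∃ n : ℕ, ¬ p ∣ n ∧ ∃ m : Fin r → ℤ,
      (n : ℝ) * g = ∑ i, (m i : ℝ) * e i) :
    ∀ g ∈ satp p Γ, ∃ n : ℕ, ¬ p ∣ n ∧ ∃ m : Fin r → ℤ, (n : ℝ) * g = ∑ i, (m i : ℝ) * e i := by
  rintro g ⟨n, hn, hng⟩
  obtain ⟨n', hn', m, h1⟩ := h _ hng
  refine ⟨n' * n, fun hd => ?_, m, ?_⟩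
  · rcases hp.out.dvd_mul.1 hd with h2 | h2
    · exact hn' h2
    · exact hn h2
  · rw [← h1]
    push_cast
    ring

/-- The values are not `p`-divisible. -/
theorem fin_rat (hind : LinearIndependent ℚ e)
    (h : ∀ g ∈ Γ, ∃ n : ℕ, ¬ p ∣ n ∧ ∃ m : Fin r → ℤ, (n : ℝ) * g = ∑ i, (m i : ℝ) * e i)
    {g : ℝ} (hg : g ≠ 0) : ∃ n : ℕ, g / (p : ℝ) ^ n ∉ Γ := by
  by_contra hno
  push Not at hno
  have hp0 : (p : ℝ) ≠ 0 := by exact_mod_cast hp.out.ne_zero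
  have hg0 := hno 0
  rw [pow_zero, div_one] at hg0
  obtain ⟨n₀, hn₀, m₀, h1⟩ := h g hg0
  have hn₀' : (n₀ : ℝ) ≠ 0 := by
    have : n₀ ≠ 0 := fun h => hn₀ (h ▸ dvd_zero p)
    exact_mod_cast this
  obtain ⟨i, hi⟩ : ∃ i, m₀ i ≠ 0 := by
    by_contra hcon
    push Not at hcon
    rw [Finset.sum_eq_zero fun i _ => by rw [hcon i, Int.cast_zero, zero_mul]] at h1
    exact (mul_ne_zero hn₀' hg) h1
  obtain ⟨a, ha⟩ := pow_unbounded_of_one_lt (m₀ i).natAbs hp.out.one_lt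
  obtain ⟨n, hn, m, h2⟩ := h _ (hno a)
  have hpa : (p : ℝ) ^ a ≠ 0 := pow_ne_zero _ hp0
  have h3 : ∑ j, (((n : ℚ) * m₀ j - n₀ * (p : ℚ) ^ a * m j)) • e j = 0 := by
    have h4 : ∀ j, (((n : ℚ) * m₀ j - n₀ * (p : ℚ) ^ a * m j)) • e j =
        (n : ℝ) * ((m₀ j : ℝ) * e j) - n₀ * (p : ℝ) ^ a * ((m j : ℝ) * e j) := fun j => by
      rw [Rat.smul_def]
      push_cast
      ring
    rw [Finset.sum_congr rfl fun j _ => h4 j, Finset.sum_sub_distrib, ← Finset.mul_sum,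
      ← Finset.mul_sum, ← h1, ← h2]
    field_simp
    ring
  have h4 := Fintype.linearIndependent_iff.1 hind _ h3 i
  have h5 : (n : ℤ) * m₀ i = n₀ * (p : ℤ) ^ a * m i := by
    have h6 : ((n : ℚ) * m₀ i : ℚ) = n₀ * (p : ℚ) ^ a * m i := by linarith
    exact_mod_cast h6
  have h6 : ((p : ℤ) ^ a) ∣ n * m₀ i := ⟨n₀ * m i, by rw [h5]; ring⟩
  have hco : IsCoprime ((p : ℤ) ^ a) (n : ℤ) :=
    (Nat.isCoprime_iff_coprime.2 ((Nat.Prime.coprime_iff_not_dvd hp.out).2 hn)).pow_left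
  have h7 : ((p : ℤ) ^ a) ∣ m₀ i := hco.dvd_of_dvd_mul_left h6
  have h8 : p ^ a ∣ (m₀ i).natAbs := by
    rw [← Int.natCast_dvd]
    push_cast
    exact h7
  exact absurd (Nat.le_of_dvd (Int.natAbs_pos.2 hi) h8) (not_le.2 ha)

end Group

variable {k Ω : Type u} [Field k] [Field Ω] [Algebra k Ω] {v : RVal Ω}
  {L N : IntermediateField k Ω} {M : ℝ → Ω} {p : ℕ}

/-- **The world of a closed field**, given its monomials. -/
theorem worldc_of (hk : Ctx0 k v) (hL : Cld v L) (hG : MonG v L ⊤ M)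
    (hfin : ∀ g : ℝ, g ≠ 0 → ∃ n : ℕ, g / (p : ℝ) ^ n ∉ VG v L) (hN : N = PM v ⊥ (VG v L) M) :
    World p v N L ⊤ M ∧ VG v N = VG v L ∧ PM v N ⊤ M = PM v ⊥ ⊤ M := by
  have hM := hG.ms
  have hNL : N ≤ L := by
    rw [hN]
    exact PM.le_of hL bot_le fun g hg => hG.mem g trivial hg
  have hMN : ∀ g ∈ VG v L, M g ∈ N := fun g hg => by
    rw [hN]
    exact PM.mon hg
  have hV : VG v N = VG v L := by
    refine le_antisymm (VG.mono hNL) fun g hg => ?_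
    exact ⟨M g, hMN g hg, hM.ne g trivial, hM.val g trivial⟩
  have hgen : N ≤ PM v ⊥ ⊤ M := by
    rw [hN]
    exact PM.le_of PM.cld bot_le fun g _ => PM.mon trivial
  refine ⟨⟨⟨hM, fun g _ hg => hMN g (by rwa [hV] at hg)⟩, ⟨hNL, fun b hb hb0 => ?_⟩, ?_, hL,
    fun _ _ => trivial, fun g _ hg => ?_, hgen⟩, hV, ?_⟩
  · have h1 : M (v b) ∈ N := hMN _ (VG.self hb hb0)
    have h2 : M (v b) ≠ 0 := hM.ne _ trivial
    have h3 : v (M (v b)) = v b := hM.val _ trivial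
    obtain ⟨c, -, h4⟩ := hk.res (b / M (v b)) (div_ne_zero hb0 h2) (by
      rw [v.map_div hb0 h2, h3, sub_self])
    refine ⟨M (v b) * algebraMap k Ω c, mul_mem h1 (N.algebraMap_mem c), ?_⟩
    have e : b - M (v b) * algebraMap k Ω c = (b / M (v b) - algebraMap k Ω c) * M (v b) := by
      field_simp
    have h5 : Gt v 0 (b / M (v b) - algebraMap k Ω c) := h4
    have h6 := h5.mul_ge (RVal.ge_self (v := v) (M (v b)))
    rw [h3, zero_add] at h6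
    rw [e]
    exact h6
  · rw [hN]
    exact PM.cld
  · rw [hV]
    exact hfin g hg
  · exact le_antisymm (PM.le_of PM.cld hgen fun g _ => PM.mon trivial)
      (PM.le_of PM.cld bot_le fun g _ => PM.mon trivial)

/-- **The coarse world**, letters with independent values. -/
theorem coarse_rat [Fact p.Prime] (W : World p v N L ⊤ M) {r : ℕ} {e : Fin r → ℝ}
    (hind : LinearIndependent ℚ e)
    (h : ∀ g ∈ VG v N, ∃ n : ℕ, ¬ p ∣ n ∧ ∃ m : Fin r → ℤ, (n : ℝ) * g = ∑ i, (m i : ℝ) * e i) :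
    World p v (cs p v N N M) (cs p v N L M) ⊤ M ∧ VG v (cs p v N N M) = satp p (VG v N) ∧
      ∀ A, N ≤ A → A ≤ L → PM v (cs p v N A M) ⊤ M = PM v A ⊤ M :=
  W.coarse fun _ hg => fin_rat hind (rat_satp h) hg

end Pool.Agent.TWV
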