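import Pool.Agent.Lib.TWV.RecR
import Pool.Agent.Lib.TWV.WorldV
import Pool.Agent.Lib.TWIV.A7dR

/-!
# TANK W, tame case, rational rank `r`: the core

* `World.coreR`: the core, a finite set of representatives of the values modulo `p`;
* **`cor_of`**: the core for a closed field with its monomials, whose values are generated by
  letters with independent values up to multiples prime to `p`.
-/

set_option autoImplicit false
set_option linter.unusedSectionVars false

open Polynomial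

namespace Pool.Agent.TWIV

open Pool.Agent.H15JM (RVal)
open Pool.Agent.D2 (Ctx0)
open Pool.Agent.TWM Pool.Agent.TWS Pool.Agent.TWT
open Pool.Agent.TWC (Tow)

universe u

variable {k Ω : Type u} [Field k] [Field Ω] [Algebra k Ω] {v : RVal Ω}
  {N L : IntermediateField k Ω} {M : ℝ → Ω} {p : ℕ} [hp : Fact p.Prime] [CharP k p]
  [CharP Ω p] [IsAlgClosed k] [IsAlgClosed Ω]

/-- **THE CORE OF THE TAME LEAF**, finitely many values modulo `p`. -/
theorem World.coreR [hcx : Fact (Ctx0 k v)] [PerfectRing k p] (W : World p v N L ⊤ M)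
    (hΩ : CompleteV v) (W' : World p v (cs p v N N M) (cs p v N L M) ⊤ M)
    (hV : VG v (cs p v N N M) = satp p (VG v N)) {Λ : Finset ℝ} (hR : Rps p (VG v N) Λ)
    (hT : Tow v 3 (PM v N ⊤ M) (PM v L ⊤ M)) : TowR v 3 N L := by
  refine W.coreF hΩ W' hV (fun A hNA hAL hA hFT hFV => W.freeB_fineR hΩ W' hV hR hNA hAL hA hFT hFV)
    (TWV.fib_rep hp.out hR.rep) ?_ hT
  rw [hV]
  exact TWV.fib_rep hp.out hR.satp.rep

end Pool.Agent.TWIV

namespace Pool.Agent.TWV

open Pool.Agent.H15JM (RVal)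
open Pool.Agent.D2 (Ctx0)
open Pool.Agent.TWM Pool.Agent.TWS Pool.Agent.TWT Pool.Agent.TWIV
open Pool.Agent.TWC (Tow)

universe u

variable {k Ω : Type u} [Field k] [Field Ω] [Algebra k Ω] {v : RVal Ω}
  {L : IntermediateField k Ω} {M : ℝ → Ω} {p : ℕ} [hp : Fact p.Prime] [CharP k p]
  [CharP Ω p] [IsAlgClosed k] [IsAlgClosed Ω]

/-- **The core for a closed field with its monomials.** -/
theorem cor_of (hk : Ctx0 k v) (hc : CompleteV v) (hL : Cld v L) (hG : MonG v L ⊤ M) {r : ℕ}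
    {e : Fin r → ℝ} (hind : LinearIndependent ℚ e)
    (h : ∀ g ∈ VG v L, ∃ n : ℕ, ¬ p ∣ n ∧ ∃ m : Fin r → ℤ, (n : ℝ) * g = ∑ i, (m i : ℝ) * e i)
    {Λ : Finset ℝ} (hR : Rps p (VG v L) Λ)
    (hT : Tow v 3 (PM v (⊥ : IntermediateField k Ω) ⊤ M) (PM v L ⊤ M)) :
    TowR v 3 (PM v (⊥ : IntermediateField k Ω) (VG v L) M) L := by
  have _ : Fact (Ctx0 k v) := ⟨hk⟩
  have _ : PerfectRing k p := inferInstance
  obtain ⟨W, hV, hE⟩ := worldc_of (p := p) hk hL hG (fun g hg => fin_rat hind h hg)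
    (N := PM v ⊥ (VG v L) M) rfl
  obtain ⟨W', hV', -⟩ := coarse_rat W hind (by rwa [hV])
  exact W.coreR hc W' hV' (by rwa [hV]) (by rwa [hE])

end Pool.Agent.TWV
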