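import Pool.Agent.Lib.TWIV.ExM2
import Pool.Agent.Lib.TWV.Defs

/-!
# TANK W, rational rank `r`, tame letters: exchange of the letters

`TmV p v L x`, `u i ∈ L`, `v (u i - x i) > v (x i)`, `M (v (x i)) = x i`, `M' (v (x i)) = u i`: if
`PM v L ⊤ M` is a tower over `PM v ⊥ ⊤ M`, then `PM v L ⊤ M'` is a tower over `PM v ⊥ ⊤ M'`
(`exch_monV`).
-/

set_option autoImplicit false
set_option linter.unusedSectionVars false

open Polynomial IntermediateField

namespace Pool.Agent.TWV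

open Pool.Agent.H15JM (RVal)
open Pool.Agent.D2 (Ctx0)
open Pool.Agent.D2P (clI mem_clI)
open Pool.Agent.TWM Pool.Agent.TWS
open Pool.Agent.TWIV (NP ge_zero_of_one ge_pow_sub_one ge_zpow_sub_one ge_of_pow_sub_one
  val_of_one exists_twist PM_twist)

universe u

variable {k Ω : Type u} [Field k] [Field Ω] [Algebra k Ω]
  {v : RVal Ω} {G : AddSubgroup ℝ} {M M' : ℝ → Ω} {L A : IntermediateField k Ω}
  {γ : ℝ} {r : ℕ} {x u : Fin r → Ω}

/-- The monomial of a combination. -/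
theorem MS.lin {ι : Type*} (hM : MS v ⊤ M) (S : Finset ι) (m : ι → ℤ) (g : ι → ℝ) :
    M (∑ i ∈ S, m i * g i) = ∏ i ∈ S, M (g i) ^ m i := by
  classical
  induction S using Finset.induction_on with
  | empty => rw [Finset.sum_empty, Finset.prod_empty, hM.zero]
  | insert a S ha ih =>
    rw [Finset.sum_insert ha, Finset.prod_insert ha, hM.mul _ trivial _ trivial, ih,
      MS.zpow hM trivial]

/-- A finite product of elements near to `1`. -/
theorem ge_prod_sub_one {ι : Type*} (hγ : 0 < γ) (S : Finset ι) {t : ι → Ω}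
    (h : ∀ i ∈ S, v.Ge γ (t i - 1)) : v.Ge γ (∏ i ∈ S, t i - 1) := by
  classical
  induction S using Finset.induction_on with
  | empty =>
    rw [Finset.prod_empty, sub_self]
    exact RVal.Ge.zero
  | insert a S ha ih =>
    have h1 := ih fun i hi => h i (Finset.mem_insert_of_mem hi)
    have h2 := h a (Finset.mem_insert_self a S)
    have h0 := ge_zero_of_one (v := v) (t := t a) (Gt.of_ge h2 hγ)
    rw [Finset.prod_insert ha]
    have e : t a * ∏ i ∈ S, t i - 1 = t a * (∏ i ∈ S, t i - 1) + (t a - 1) := by ring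
    rw [e]
    have h3 := h0.mul h1
    rw [zero_add] at h3
    exact h3.add h2

/-- A common gain for finitely many elements. -/
theorem exists_gain_fin {ι : Type*} [Finite ι] {t : ι → Ω} (h : ∀ i, Gt v 0 (t i)) :
    ∃ γ : ℝ, 0 < γ ∧ ∀ i, v.Ge γ (t i) := by
  classical
  have := Fintype.ofFinite ι
  have h1 : ∀ i, ∃ γ : ℝ, 0 < γ ∧ v.Ge γ (t i) := fun i => by
    by_cases h0 : t i = 0
    · exact ⟨1, one_pos, by rw [h0]; exact RVal.Ge.zero⟩
    · exact ⟨_, h i h0, RVal.ge_self _⟩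
  choose γ hγ h2 using h1
  rcases isEmpty_or_nonempty ι with hι | hι
  · exact ⟨1, one_pos, fun i => isEmptyElim i⟩
  · refine ⟨Finset.univ.inf' Finset.univ_nonempty γ, ?_, fun i => (h2 i).mono
      (Finset.inf'_le γ (Finset.mem_univ i))⟩
    rw [Finset.lt_inf'_iff]
    exact fun i _ => hγ i

/-- The monomials with the values of `L` are in `L`. -/
theorem TmV.monL (p : ℕ) [hp : Fact p.Prime] [CharP Ω p] [IsAlgClosed Ω] (hk : Ctx0 k v)
    (hL : TmV p v L x) (hM : MS v ⊤ M) (hMx : ∀ i, M (v (x i)) = x i) : MonG v L ⊤ M := by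
  refine ⟨hM, fun g _ hg => ?_⟩
  obtain ⟨n, hn, m, h1⟩ := hL.zb.rat g hg
  have h2 : M g ^ n = ∏ i, x i ^ m i := by
    rw [← hM.pow trivial n, h1, MS.lin hM]
    exact Finset.prod_congr rfl fun i _ => by rw [hMx]
  refine root_mem p hk hL.cld hn (hM.ne g trivial) ?_ ?_
  · rw [h2]
    exact prod_mem fun i _ => zpow_mem (hL.mem i) (m i)
  · rw [hM.val g trivial]
    exact hg

/-- The exchange keeps the data. -/
theorem TmV.exch {p : ℕ} (hL : TmV p v L x) (hu : ∀ i, u i ∈ L)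
    (hux : ∀ i, Gt v (v (x i)) (u i - x i)) :
    TmV p v L u ∧ ∀ i, u i ≠ 0 ∧ v (u i) = v (x i) := by
  have h1 : ∀ i, u i ≠ 0 ∧ v (u i) = v (x i) := fun i =>
    Gt.val_eq (hL.ne i) (hux i).sub_comm'
  have h2 : (fun i => v (u i)) = fun i => v (x i) := funext fun i => (h1 i).2
  refine ⟨⟨hL.cld, hu, fun i => (h1 i).1, ?_⟩, h1⟩
  rw [h2]
  exact hL.zb

/-- **The systems are near on the values of `L`.** -/
theorem TmV.np (p : ℕ) [hp : Fact p.Prime] [CharP Ω p] [IsAlgClosed Ω] (hk : Ctx0 k v)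
    (hL : TmV p v L x) (hu : ∀ i, u i ∈ L) (hux : ∀ i, Gt v (v (x i)) (u i - x i))
    (hM : MS v ⊤ M) (hM' : MS v ⊤ M') (hMx : ∀ i, M (v (x i)) = x i)
    (hMu : ∀ i, M' (v (x i)) = u i) (hnr : ∀ g, Gt v g (M g - M' g)) :
    ∃ γ : ℝ, NP v L ⊤ M M' γ := by
  obtain ⟨hLu, huv⟩ := hL.exch hu hux
  -- the gap
  obtain ⟨γ, hγ, h1⟩ : ∃ γ : ℝ, 0 < γ ∧ ∀ i, v.Ge γ (x i / u i - 1) := by
    refine exists_gain_fin fun i => ?_
    have hu0 := (huv i).1
    have e : x i / u i - 1 = (x i - u i) * (u i)⁻¹ := by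
      field_simp
    rw [e]
    have h3 := (hux i).sub_comm'.mul_ge (RVal.ge_self (v := v) (u i)⁻¹)
    rwa [v.map_inv hu0, (huv i).2, add_neg_cancel] at h3
  refine ⟨γ, hL.monL p hk hM hMx, hLu.monL p hk hM' fun i => by rw [(huv i).2, hMu i], hγ,
    fun d _ hd => ?_⟩
  obtain ⟨n, hn, m, h2⟩ := hL.zb.rat d hd
  have hd0 := hM'.ne d trivial
  have h3 : (M d / M' d) ^ n = ∏ i, (x i / u i) ^ m i := by
    rw [div_pow, ← hM.pow trivial n, ← hM'.pow trivial n, h2, MS.lin hM, MS.lin hM',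
      ← Finset.prod_div_distrib]
    exact Finset.prod_congr rfl fun i _ => by rw [hMx, hMu, div_zpow]
  have h4 : Gt v 0 (M d / M' d - 1) := by
    have e : M d / M' d - 1 = (M d - M' d) * (M' d)⁻¹ := by
      field_simp
    rw [e]
    have h5 := (hnr d).mul_ge (RVal.ge_self (v := v) (M' d)⁻¹)
    rwa [v.map_inv hd0, hM'.val d trivial, add_neg_cancel] at h5
  have h5 : v.Ge γ (M d / M' d - 1) := ge_of_pow_sub_one p hn h4 (by
    rw [h3]
    exact ge_prod_sub_one hγ _ fun i _ => ge_zpow_sub_one hγ (h1 i) (m i))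
  have e : M d - M' d = M' d * (M d / M' d - 1) := by
    field_simp
  rw [e]
  have h6 : v.Ge d (M' d) := fun _ => (hM'.val d trivial).ge
  exact h6.mul h5

/-- **EXCHANGE OF THE TAME LETTERS.** -/
theorem exch_monV (p : ℕ) [hp : Fact p.Prime] [CharP Ω p] [IsAlgClosed k] [IsAlgClosed Ω]
    (hk : Ctx0 k v) (hc : CompleteV v) (hL : TmV p v L x) (hu : ∀ i, u i ∈ L)
    (hux : ∀ i, Gt v (v (x i)) (u i - x i)) (hM : MS v ⊤ M) (hM' : MS v ⊤ M')
    (hMx : ∀ i, M (v (x i)) = x i) (hMu : ∀ i, M' (v (x i)) = u i) {n : ℕ}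
    (hT : TowR v n (PM v (⊥ : IntermediateField k Ω) ⊤ M) (PM v L ⊤ M)) :
    TowR v n (PM v (⊥ : IntermediateField k Ω) ⊤ M') (PM v L ⊤ M') := by
  obtain ⟨c, hc0, h1, h2⟩ := exists_twist hk hM hM'
  obtain ⟨-, huv⟩ := hL.exch hu hux
  have h3 : ∀ i, c (v (x i)) = 1 := by
    intro i
    by_contra hne
    have h4 : c (v (x i)) - 1 ≠ 0 := sub_ne_zero.2 hne
    have h5 := h2 (v (x i)) trivial
    rw [hMx, hMu] at h5
    have h6 : Gt v (v (x i)) (algebraMap k Ω (c (v (x i)) - 1) * u i) := by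
      have e : algebraMap k Ω (c (v (x i)) - 1) * u i =
          -((u i - x i) + (x i - algebraMap k Ω (c (v (x i))) * u i)) := by
        rw [map_sub, map_one]
        ring
      rw [e]
      exact ((hux i).add h5).neg
    have h7 : algebraMap k Ω (c (v (x i)) - 1) ≠ 0 := by rwa [Ne, _root_.map_eq_zero]
    have h8 := h6 (mul_ne_zero h7 (huv i).1)
    rw [v.map_mul h7 (huv i).1, hk.triv _ h4, (huv i).2, zero_add] at h8
    exact lt_irrefl _ h8
  obtain ⟨γ, h4⟩ := hL.np p hk hu hux hM h1 hMx (fun i => by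
    rw [h3, map_one, one_mul, hMu]) fun g => h2 g trivial
  have h5 := h4.towR hk hc hT
  rwa [PM_twist hc0, PM_twist hc0] at h5

/-- **Row ExV.** -/
theorem exV (p : ℕ) [hp : Fact p.Prime] [CharP Ω p] [IsAlgClosed k] [IsAlgClosed Ω]
    (hk : Ctx0 k v) (hc : CompleteV v) : ExV k p v :=
  fun _ _ _ _ _ _ hL hu hux hM hM' hMx hMu hT => exch_monV p hk hc hL hu hux hM hM' hMx hMu hT

end Pool.Agent.TWV
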