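import Pool.Agent.Lib.TWV.Defs
import Pool.Agent.Lib.TWIV.ExitT

/-!
# TANK W, tame value groups of any rational rank: the exit

`G` a group of values with a `ℚ`-basis `a : Fin r → ℝ` of its span in `G`.
* `exists_common_finV`: finitely many elements of `G` are integral combinations of `r` independent
  elements;
* `exists_gen_monV`: finitely many monomials suffice;
* `exists_gen_towV`: `K = F₂(y)`, `F₂ = k(M (b_1), ..., M (b_r), ..)` of transcendence degree `r + m`;
* `exists_gen_embV`, `hrone_of_mon_embV`, `hrone_of_moncV`: the exit.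
-/

set_option autoImplicit false

open Polynomial

namespace Pool.Agent.TWV

open Pool.Agent.H15JM (RVal)
open Pool.Agent.LU1 (adj)
open Pool.Agent.D2 (Ctx0)
open Pool.Agent.D2P (clI mem_clI mem_adj_self)
open Pool.Agent.TWM
open Pool.Agent.TWS (VG TowR PM IsoE HF hv)
open Pool.Agent.TW (Ctx Full BD HRone LU)
open Pool.Agent.TWC (fg_le towR_gens towR_le clI_mono' clI_le' self_le_clI)

universe u

/-- Finitely many elements of a group of rational rank `r` are integral combinations of `r`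
independent elements. -/
theorem exists_common_finV {G : AddSubgroup ℝ} {r : ℕ} {a : Fin r → ℝ} (ha : ∀ i, a i ∈ G)
    (hind : LinearIndependent ℚ a) (hspan : ∀ g ∈ G, g ∈ Submodule.span ℚ (Set.range a))
    (S : Finset ℝ) (hS : ∀ g ∈ S, g ∈ G) :
    ∃ b : Fin r → ℝ, (∀ i, b i ∈ G) ∧ LinearIndependent ℚ b ∧
      ∀ g ∈ S, ∃ l : Fin r → ℤ, g = ∑ i, (l i : ℝ) * b i := by
  classical
  set H : Submodule ℤ ℝ := Submodule.span ℤ ((S : Set ℝ) ∪ Set.range a) with hH
  have hHG : ∀ g ∈ H, g ∈ G := by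
    intro g hg
    have h1 : H ≤ AddSubgroup.toIntSubmodule G := by
      rw [hH, Submodule.span_le]
      rintro x (hx | ⟨i, rfl⟩)
      · exact hS x hx
      · exact ha i
    exact h1 hg
  have hfin : Module.Finite ℤ H := by
    rw [Module.Finite.iff_fg]
    exact Submodule.fg_span (S.finite_toSet.union (Set.finite_range a))
  have hfree : Module.Free ℤ H := inferInstance
  let b := Module.finBasis ℤ H
  have hbZ : LinearIndependent ℤ fun i => (b i : ℝ) :=
    b.linearIndependent.map' H.subtype (Submodule.ker_subtype H)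
  have hbQ : LinearIndependent ℚ fun i => (b i : ℝ) :=
    (LinearIndependent.iff_fractionRing ℤ ℚ).1 hbZ
  have haZ : LinearIndependent ℤ a := (LinearIndependent.iff_fractionRing ℤ ℚ).2 hind
  have haH : ∀ i, a i ∈ H := fun i => Submodule.subset_span (Or.inr ⟨i, rfl⟩)
  have h1 : r ≤ Module.finrank ℤ H := by
    have h2 : LinearIndependent ℤ (fun i => (⟨a i, haH i⟩ : H)) := by
      refine LinearIndependent.of_comp H.subtype ?_
      exact haZ
    have := h2.fintype_card_le_finrank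
    rwa [Fintype.card_fin] at this
  have h2 : Module.finrank ℤ H ≤ r := by
    have hb' : ∀ i, (b i : ℝ) ∈ Submodule.span ℚ (Set.range a) := fun i =>
      hspan _ (hHG _ (b i).2)
    have h3 : LinearIndependent ℚ (fun i => (⟨b i, hb' i⟩ : Submodule.span ℚ (Set.range a))) := by
      refine LinearIndependent.of_comp (Submodule.span ℚ (Set.range a)).subtype ?_
      exact hbQ
    have _ : FiniteDimensional ℚ (Submodule.span ℚ (Set.range a)) :=
      FiniteDimensional.span_of_finite ℚ (Set.finite_range a)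
    have := h3.fintype_card_le_finrank
    rwa [Fintype.card_fin, finrank_span_eq_card hind, Fintype.card_fin] at this
  have h3 : Module.finrank ℤ H = r := le_antisymm h2 h1
  let e : Fin (Module.finrank ℤ H) ≃ Fin r := finCongr h3
  let b' := b.reindex e
  refine ⟨fun i => (b' i : ℝ), fun i => hHG _ (b' i).2, ?_, fun g hg => ?_⟩
  · have h4 : LinearIndependent ℤ fun i => (b' i : ℝ) :=
      b'.linearIndependent.map' H.subtype (Submodule.ker_subtype H)
    exact (LinearIndependent.iff_fractionRing ℤ ℚ).1 h4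
  · have hgH : g ∈ H := Submodule.subset_span (Or.inl hg)
    refine ⟨fun i => b'.repr ⟨g, hgH⟩ i, ?_⟩
    have h5 := b'.sum_repr ⟨g, hgH⟩
    have h6 : H.subtype (∑ i, (b'.repr ⟨g, hgH⟩) i • b' i) = g := congrArg H.subtype h5
    rw [map_sum] at h6
    refine h6.symm.trans ?_
    refine Finset.sum_congr rfl fun i _ => ?_
    rw [map_smul, Submodule.subtype_apply, zsmul_eq_mul]

section Gen

variable {k Ω : Type u} [Field k] [Field Ω] [Algebra k Ω] {v : RVal Ω}
  {K₀ : IntermediateField k Ω} {G : AddSubgroup ℝ} {M : ℝ → Ω} {S : Set Ω} {r : ℕ}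
  {a : Fin r → ℝ}

omit [Field k] [Algebra k Ω] in
/-- The monomial of an integral combination. -/
theorem ms_prodG (hM : MS v G M) {b : Fin r → ℝ} (hb : ∀ i, b i ∈ G) (l : Fin r → ℤ)
    (s : Finset (Fin r)) :
    (∑ i ∈ s, (l i : ℝ) * b i) ∈ G ∧ M (∑ i ∈ s, (l i : ℝ) * b i) = ∏ i ∈ s, M (b i) ^ l i := by
  classical
  have hz : ∀ i, (l i : ℝ) * b i ∈ G := fun i => by
    rw [← zsmul_eq_mul]
    exact G.zsmul_mem (hb i) _
  induction s using Finset.induction_on with
  | empty =>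
    rw [Finset.sum_empty, Finset.prod_empty]
    exact ⟨G.zero_mem, hM.zero⟩
  | insert j s hj ih =>
    rw [Finset.sum_insert hj, Finset.prod_insert hj]
    refine ⟨add_mem (hz j) ih.1, ?_⟩
    rw [hM.mul _ (hz j) _ ih.1, ih.2, TWS.MS.zpow hM (hb j)]

/-- **Finitely many monomials.** -/
theorem exists_gen_monV {p : ℕ} [Fact p.Prime] [CharP k p] [CharP Ω p] [IsAlgClosed k]
    [IsAlgClosed Ω] (h0 : Ctx0 k v) (hc : CompleteV v) (hK₀ : K₀.FG) (hBD : BD p v K₀)
    (hM : MS v G M) (ha : ∀ i, a i ∈ G) (hind : LinearIndependent ℚ a)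
    (hspan : ∀ g ∈ G, g ∈ Submodule.span ℚ (Set.range a))
    (hcl : clI v (IntermediateField.adjoin k (M '' (G : Set ℝ)) ⊔
      IntermediateField.adjoin k S) = clI v K₀) :
    ∃ b : Fin r → ℝ, (∀ i, b i ∈ G) ∧ LinearIndependent ℚ b ∧
      clI v (IntermediateField.adjoin k (Set.range fun i => M (b i)) ⊔
        IntermediateField.adjoin k S) = clI v K₀ := by
  classical
  obtain ⟨N, c, R, hcm, h1⟩ := fg_le h0 hc hK₀ hBD
  rw [← IntermediateField.adjoin_union] at hcl
  have h2 : ∀ i, ∃ b ∈ IntermediateField.adjoin k (M '' (G : Set ℝ) ∪ S), v.Ge R (c i - b) :=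
    fun i => by
      have h3 := hcm i
      rw [← hcl] at h3
      exact mem_clI.1 h3 R
  choose b hb hab using h2
  choose T hT hbT using fun i => IntermediateField.exists_finset_of_mem_adjoin (hb i)
  -- the monomials which occur
  have h3 : ∀ x : Ω, ∃ g : ℝ, g ∈ G ∧ (x ∈ M '' (G : Set ℝ) → x = M g) := by
    intro x
    by_cases hx : x ∈ M '' (G : Set ℝ)
    · obtain ⟨g, hg, rfl⟩ := hx
      exact ⟨g, hg, fun _ => rfl⟩
    · exact ⟨0, G.zero_mem, fun h => absurd h hx⟩
  choose γ hγ hγx using h3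
  obtain ⟨β, hβ, hβi, h4⟩ := exists_common_finV ha hind hspan
    ((Finset.univ.biUnion T).image γ) (fun g hg => by
      obtain ⟨x, -, rfl⟩ := Finset.mem_image.1 hg
      exact hγ x)
  refine ⟨β, hβ, hβi, ?_⟩
  have hle : IntermediateField.adjoin k (Set.range fun i => M (β i)) ⊔
      IntermediateField.adjoin k S ≤ clI v K₀ := by
    rw [← hcl, ← IntermediateField.adjoin_union]
    refine (IntermediateField.adjoin.mono k _ _ ?_).trans (self_le_clI v _)
    refine Set.union_subset_union_left _ ?_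
    rintro _ ⟨i, rfl⟩
    exact ⟨β i, hβ i, rfl⟩
  refine h1 _ (cld_clI v _) (clI_le' hle (cld_clI v K₀)) fun i => ⟨b i, ?_, hab i⟩
  refine self_le_clI v _ ?_
  have h5 : IntermediateField.adjoin k (T i : Set Ω) ≤
      IntermediateField.adjoin k (Set.range fun i => M (β i)) ⊔ IntermediateField.adjoin k S := by
    rw [IntermediateField.adjoin_le_iff]
    intro x hx
    rcases hT i hx with h6 | h6
    · rw [hγx x h6]
      obtain ⟨l, hl⟩ := h4 (γ x) (Finset.mem_image.2 ⟨x, Finset.mem_biUnion.2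
        ⟨i, Finset.mem_univ i, hx⟩, rfl⟩)
      rw [hl, (ms_prodG hM hβ l Finset.univ).2]
      exact prod_mem fun j _ => zpow_mem ((le_sup_left :
        IntermediateField.adjoin k (Set.range fun i => M (β i)) ≤ _)
        (IntermediateField.subset_adjoin k _ ⟨j, rfl⟩)) _
    · exact (le_sup_right : IntermediateField.adjoin k S ≤ _)
        (IntermediateField.subset_adjoin k _ h6)
  exact h5 (hbT i)

/-- The transcendence degree of `k(M (b_1), .., M (b_r))`. -/
theorem trdeg_monV (h0 : Ctx0 k v) {b : Fin r → ℝ} {x : Fin r → Ω} (hx0 : ∀ i, x i ≠ 0)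
    (hxv : ∀ i, v (x i) = b i) (hb : LinearIndependent ℚ b) :
    Algebra.trdeg k (IntermediateField.adjoin k (Set.range x)) = (r : ℕ) := by
  have h1 : AlgebraicIndependent k x := TA.algInd_of_val h0.triv hx0 (by
    have e : (fun i => v (x i)) = b := funext hxv
    rw [e]
    exact hb)
  rw [TW.trdeg_adjoin_eq h1.coe_range]
  have h2 : Function.Injective x := h1.injective
  have h3 := Cardinal.mk_range_eq_of_injective h2
  rw [Cardinal.mk_fin, Cardinal.lift_natCast] at h3
  rw [← Cardinal.lift_inj, h3, Cardinal.lift_natCast]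

/-- **Generators of the closure of `K₀`, a tower over the monomials.** -/
theorem exists_gen_towV {p : ℕ} [Fact p.Prime] [CharP k p] [CharP Ω p] [IsAlgClosed k]
    [IsAlgClosed Ω] (h0 : Ctx0 k v) (hc : CompleteV v) (hK₀ : K₀.FG) (hBD : BD p v K₀)
    (hM : MS v G M) (ha : ∀ i, a i ∈ G) (hind : LinearIndependent ℚ a)
    (hspan : ∀ g ∈ G, g ∈ Submodule.span ℚ (Set.range a)) {m : ℕ}
    (hT : TowR v (m + 1) (PM v (⊥ : IntermediateField k Ω) G M) (clI v K₀)) :
    ∃ (b : Fin r → ℝ) (F₂ : IntermediateField k Ω) (y : Ω), (∀ i, b i ∈ G) ∧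
      LinearIndependent ℚ b ∧ (∀ i, M (b i) ∈ F₂) ∧ F₂.FG ∧
      Algebra.trdeg k F₂ = (r + m : ℕ) ∧ clI v K₀ = clI v (adj F₂ y) := by
  obtain ⟨N', y, s, hTN, hy, hcl⟩ := TowR.last hT TWS.PM.cld
  obtain ⟨S, hS, h1, h2⟩ := towR_gens hTN
  have h3 : clI v (IntermediateField.adjoin k (M '' (G : Set ℝ)) ⊔
      IntermediateField.adjoin k (insert y S)) = clI v K₀ := by
    rw [hcl, h1, clI_adj_clI, PM, bot_sup_eq]
    have e : adj (clI v (IntermediateField.adjoin k (M '' (G : Set ℝ))) ⊔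
        IntermediateField.adjoin k S) y = clI v (IntermediateField.adjoin k (M '' (G : Set ℝ))) ⊔
        IntermediateField.adjoin k (insert y S) := by
      rw [Set.insert_eq, Set.union_comm, IntermediateField.adjoin_union, ← sup_assoc]
      rfl
    rw [e]
    apply le_antisymm
    · exact clI_mono' (sup_le_sup_right (self_le_clI v _) _)
    · refine clI_le' (sup_le ?_ ?_) (cld_clI v _)
      · exact clI_mono' le_sup_left
      · exact le_sup_right.trans (self_le_clI v _)
  obtain ⟨b, hb, hbi, h4⟩ := exists_gen_monV h0 hc hK₀ hBD hM ha hind hspan h3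
  set F := IntermediateField.adjoin k (Set.range fun i => M (b i)) with hF
  have hle : F ≤ PM v (⊥ : IntermediateField k Ω) G M := by
    rw [hF, IntermediateField.adjoin_le_iff]
    rintro _ ⟨i, rfl⟩
    exact TWS.PM.mon (hb i)
  have hFG : F.FG := IntermediateField.fg_adjoin_of_finite (Set.finite_range _)
  obtain ⟨h5, h6⟩ := h2 F hle hFG r
    (trdeg_monV h0 (fun i => hM.ne _ (hb i)) (fun i => hM.val _ (hb i)) hbi)
  refine ⟨b, _, y, hb, hbi, fun i => (le_sup_left : F ≤ _)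
    (IntermediateField.subset_adjoin k _ ⟨i, rfl⟩), h5, h6, ?_⟩
  rw [← h4]
  congr 1
  rw [Set.insert_eq, Set.union_comm, IntermediateField.adjoin_union, ← sup_assoc]
  rfl

end Gen

section Exit

variable {k Ω H : Type u} [Field k] [Field Ω] [Algebra k Ω] [Field H] [Algebra k H]
  {v : RVal Ω} {w : RVal H} {φ : Ω →ₐ[k] H} {K₀ : IntermediateField k Ω} {G : AddSubgroup ℝ}
  {M : ℝ → H} {r : ℕ} {a : Fin r → ℝ}

/-- The closure of `K₀` is a tower over the monomials of a larger field. -/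
theorem exists_gen_embV (p : ℕ) [Fact p.Prime] [CharP k p] [CharP Ω p] [CharP H p] [IsAlgClosed k]
    [IsAlgClosed Ω] [IsAlgClosed H] (hc : CompleteV v) (hw : Ctx0 k w)
    (hcw : CompleteV w) (hI : IsoE v w φ) {m : ℕ} (hK₀ : K₀.FG) (hBD : BD p v K₀)
    (hM : MS w G M) (ha : ∀ i, a i ∈ G) (hind : LinearIndependent ℚ a)
    (hspan : ∀ g ∈ G, g ∈ Submodule.span ℚ (Set.range a))
    (hT : TowR w (m + 1) (PM w (⊥ : IntermediateField k H) G M) (clI w (K₀.map φ))) :
    ∃ (F₂ : IntermediateField k Ω) (x : Fin r → Ω) (y : Ω), (∀ i, x i ∈ F₂) ∧ (∀ i, x i ≠ 0) ∧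
      (LinearIndependent ℚ fun i => v (x i)) ∧ F₂.FG ∧
      Algebra.trdeg k F₂ = (r + m : ℕ) ∧ clI v K₀ = clI v (adj F₂ y) := by
  have hmem : ∀ g ∈ G, ∃ x : Ω, x ≠ 0 ∧ φ x = M g ∧ v x = g := by
    intro g hg
    have h1 : M g ∈ clI w (K₀.map φ) := towR_le hT (TWS.PM.mon hg)
    rw [hI.clI_map hc] at h1
    obtain ⟨x, -, hx⟩ := h1
    have hx' : φ x = M g := hx
    have hx0 : x ≠ 0 := by
      rintro rfl
      rw [map_zero] at hx'
      exact hM.ne g hg hx'.symm
    refine ⟨x, hx0, hx', ?_⟩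
    rw [← hI.val x hx0, hx', hM.val g hg]
  obtain ⟨b, F₂, y, hb, hbi, hbF, hF, hFt, hcl⟩ :=
    exists_gen_towV hw hcw (TWM.Dense.fg_map hK₀) (hI.bd_iff.2 hBD) hM ha hind hspan hT
  rw [hI.clI_map hc] at hcl
  have hle : adj F₂ y ≤ (clI v K₀).map φ := by
    rw [hcl]
    exact TWM.le_clI _
  obtain ⟨F, hFfg, hFF⟩ := TWM.Dense.of_fg hF fun z hz => by
    obtain ⟨a, -, ha⟩ := hle ((mem_adj_self F₂ y).2 hz)
    exact ⟨a, ha⟩
  obtain ⟨y₀, -, hy⟩ := hle (mem_adj_self F₂ y).1
  choose x hx0 hx hxv using fun i => hmem (b i) (hb i)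
  subst hFF
  have hy' : φ y₀ = y := hy
  subst hy'
  refine ⟨F, x, y₀, fun i => ?_, hx0, ?_, hFfg, ?_, ?_⟩
  · obtain ⟨a, ha, hax⟩ := hbF i
    have h1 : φ a = φ (x i) := by rw [hx]; exact hax
    rw [← φ.injective h1]
    exact ha
  · have e : (fun i => v (x i)) = b := funext hxv
    rw [e]
    exact hbi
  · rw [← TWM.Dense.trdeg_map F φ, hFt]
  · rw [← TWM.Dense.adj_map, hI.clI_map hc] at hcl
    exact TWM.Dense.map_inj hcl

/-- **The exit**, `Ω` complete, the monomials in a larger field. -/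
theorem hrone_of_mon_embV (p : ℕ) [Fact p.Prime] [CharP k p] [CharP Ω p] [CharP H p]
    [IsAlgClosed k] [IsAlgClosed Ω] [IsAlgClosed H] (h : Ctx k v r) (hc : CompleteV v)
    (hw : Ctx0 k w) (hcw : CompleteV w) (hI : IsoE v w φ) {m : ℕ} (hm : m ≤ 2) (hK₀ : K₀.FG)
    (hfull : Full v K₀) (htr : Algebra.trdeg k K₀ = (r + m + 1 : ℕ)) (hBD : BD p v K₀)
    (hM : MS w G M) (ha : ∀ i, a i ∈ G) (hind : LinearIndependent ℚ a)
    (hspan : ∀ g ∈ G, g ∈ Submodule.span ℚ (Set.range a))
    (hT : TowR w (m + 1) (PM w (⊥ : IntermediateField k H) G M) (clI w (K₀.map φ))) :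
    HRone v K₀ := by
  obtain ⟨F₂, x, y, hx, hx0, hxi, hF, hFt, hcl⟩ :=
    exists_gen_embV p hc hw hcw hI hK₀ hBD hM ha hind hspan hT
  have hFf : Full v F₂ := TWM.full_of_ind h hx0 hxi hx
  refine TWJ.exitg p h hc (D := m) ?_ hK₀ hfull htr hBD hF hFf hFt hcl
  intro K hK hKf htK hBDK
  exact TWJ.lu_bd_two p h (TWJ.stepAll p k r) (by omega) hK hKf htK hBDK

/-- **The exit.** -/
theorem hrone_of_moncV (p : ℕ) [Fact p.Prime] [CharP k p] [CharP Ω p] [IsAlgClosed k]
    [IsAlgClosed Ω] (h : Ctx k v r) {m : ℕ} (hm : m ≤ 2) (hK₀ : K₀.FG) (hfull : Full v K₀)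
    (htr : Algebra.trdeg k K₀ = (r + m + 1 : ℕ)) (hBD : BD p v K₀) (hM : MonCV v r m K₀) :
    HRone v K₀ := by
  obtain ⟨Ω', iF, iA, ι, v', iC, H, jF, jA, jC, φ, w, h1, h2, h3, h4, h5, G, M, a, h6, h7, h8, h9,
    h10⟩ := hM
  have : CharP Ω' p := Dense.charP ι p
  have : CharP H p := charP_of_injective_algebraMap (algebraMap k H).injective p
  rw [← Dense.hrone_iff h2]
  exact hrone_of_mon_embV p (h2.ctx h) h1 h3 h4 h5 hm (Dense.fg_map hK₀)
    ((Dense.full_iff h2).2 hfull) (by rw [Dense.trdeg_map]; exact htr)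
    ((Dense.bd_iff h2).2 hBD) h6 h7 h8 h9 h10

end Exit

end Pool.Agent.TWV
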