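import Pool.Agent.Lib.TWV.Defs

/-!
# TANK W, rational rank `r`: groups of values `G` with `[G : p G] = p ^ r`

* `FPR p G r`: `r` elements independent modulo `p G`;
* `FPR.ind`: they are independent over `ℚ`;
* `FPR.rat`: if `G` has rational rank `r`, every element is a combination with a denominator prime to `p`;
* `Rps p G R`: `R` is a finite system of representatives of `G / p G`; `exists_rps`.
-/

set_option autoImplicit false
set_option linter.unusedSectionVars false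

namespace Pool.Agent.TWV

open Pool.Agent.TWT (Rps)

/-- `G / p G` has rank at least `r`. -/
def FPR (p : ℕ) (G : AddSubgroup ℝ) (r : ℕ) : Prop :=
  ∃ a : Fin r → G, ∀ (m : Fin r → ℤ) (b : G), ∑ i, m i • a i = (p : ℤ) • b → ∀ i, (p : ℤ) ∣ m i

/-- The family `a` is independent modulo `p G`. -/
def Ipd (p : ℕ) (G : AddSubgroup ℝ) {r : ℕ} (a : Fin r → ℝ) : Prop :=
  ∀ (m : Fin r → ℤ) (b : ℝ), b ∈ G → ∑ i, (m i : ℝ) * a i = p * b → ∀ i, (p : ℤ) ∣ m i

variable {p : ℕ} {G : AddSubgroup ℝ} {r : ℕ} {a : Fin r → ℝ}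

theorem FPR.exists_ipd (h : FPR p G r) : ∃ a : Fin r → ℝ, (∀ i, a i ∈ G) ∧ Ipd p G a := by
  obtain ⟨a, h1⟩ := h
  refine ⟨fun i => a i, fun i => (a i).2, fun m b hb h2 => h1 m ⟨b, hb⟩ (Subtype.ext ?_)⟩
  rw [AddSubgroup.val_finset_sum, AddSubgroup.coe_zsmul]
  simp only [AddSubgroup.coe_zsmul, zsmul_eq_mul]
  rw [h2]
  push_cast
  rfl

theorem Ipd.fpr (h : Ipd p G a) (ha : ∀ i, a i ∈ G) : FPR p G r := by
  refine ⟨fun i => ⟨a i, ha i⟩, fun m b h1 => h m b b.2 ?_⟩
  have h2 := congrArg (Subtype.val) h1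
  rw [AddSubgroup.val_finset_sum, AddSubgroup.coe_zsmul] at h2
  simp only [AddSubgroup.coe_zsmul, zsmul_eq_mul] at h2
  rw [h2]
  push_cast
  rfl

variable [hp : Fact p.Prime]

theorem p_ne : (p : ℝ) ≠ 0 := Nat.cast_ne_zero.2 hp.out.ne_zero

/-- A relation with integral coefficients is trivial. -/
theorem Ipd.zero (h : Ipd p G a) {m : Fin r → ℤ} (hm : ∑ i, (m i : ℝ) * a i = 0) : m = 0 := by
  by_contra hne
  obtain ⟨i₀, hi₀⟩ : ∃ i, m i ≠ 0 := by
    by_contra h1
    push Not at h1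
    exact hne (funext h1)
  -- all the coefficients are divisible by all the powers of `p`
  have key : ∀ (n : ℕ) (m : Fin r → ℤ), ∑ i, (m i : ℝ) * a i = 0 → ∀ i, (p : ℤ) ^ n ∣ m i := by
    intro n
    induction n with
    | zero => intro m _ i; rw [pow_zero]; exact one_dvd _
    | succ n ih =>
      intro m hm i
      have h1 := h m 0 G.zero_mem (by rw [hm, mul_zero])
      choose m' hm' using h1
      have h2 : ∑ i, (m' i : ℝ) * a i = 0 := by
        have h3 : (p : ℝ) * ∑ i, (m' i : ℝ) * a i = 0 := by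
          rw [← hm, Finset.mul_sum]
          refine Finset.sum_congr rfl fun i _ => ?_
          rw [hm' i]
          push_cast
          ring
        exact (mul_eq_zero.1 h3).resolve_left p_ne
      rw [hm' i, pow_succ, mul_comm]
      exact mul_dvd_mul_left _ (ih m' h2 i)
  have h1 := key (m i₀).natAbs m hm i₀
  have h2 := Int.natAbs_le_of_dvd_ne_zero h1 hi₀
  rw [Int.natAbs_pow, Int.natAbs_natCast] at h2
  exact absurd h2 (not_le.2 (Nat.lt_pow_self hp.out.one_lt))

/-- **Independence over `ℚ`.** -/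
theorem Ipd.ind (h : Ipd p G a) : LinearIndependent ℚ a := by
  classical
  rw [Fintype.linearIndependent_iff]
  intro q hq i
  -- a common denominator
  obtain ⟨N, hN, h1⟩ : ∃ N : ℕ, N ≠ 0 ∧ ∀ i, ∃ m : ℤ, (N : ℚ) * q i = m := by
    refine ⟨∏ i, (q i).den, Finset.prod_ne_zero_iff.2 fun i _ => (q i).den_nz, fun i => ?_⟩
    refine ⟨(∏ j ∈ Finset.univ.erase i, ((q j).den : ℤ)) * (q i).num, ?_⟩
    rw [← Finset.prod_erase_mul _ _ (Finset.mem_univ i)]
    push_cast
    rw [mul_assoc, Rat.den_mul_eq_num]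
  choose m hm using h1
  have h2 : ∑ i, (m i : ℝ) * a i = 0 := by
    have h3 : ∀ i, (m i : ℝ) * a i = N * (q i • a i) := fun i => by
      have h4 : ((m i : ℚ) : ℝ) = ((N : ℚ) * q i : ℚ) := by rw [hm i]
      rw [Rat.smul_def]
      push_cast at h4
      rw [h4]
      ring
    rw [Finset.sum_congr rfl fun i _ => h3 i, ← Finset.mul_sum, hq, mul_zero]
  have h3 := h.zero h2
  have h4 := hm i
  rw [h3, Pi.zero_apply, Int.cast_zero] at h4
  exact (mul_eq_zero.1 h4).resolve_left (Nat.cast_ne_zero.2 hN)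

/-- The denominators can be made prime to `p`. -/
theorem Ipd.cop (h : Ipd p G a) {g : ℝ} (hg : g ∈ G) {n : ℕ} (hn : n ≠ 0) {m : Fin r → ℤ}
    (h1 : (n : ℝ) * g = ∑ i, (m i : ℝ) * a i) :
    ∃ n : ℕ, ¬ p ∣ n ∧ ∃ m : Fin r → ℤ, (n : ℝ) * g = ∑ i, (m i : ℝ) * a i := by
  obtain ⟨j, n', hn', rfl⟩ := Nat.exists_eq_pow_mul_and_not_dvd hn p hp.out.ne_one
  refine ⟨n', hn', ?_⟩
  clear hn
  induction j generalizing m with
  | zero => exact ⟨m, by rwa [pow_zero, one_mul] at h1⟩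
  | succ j ih =>
    have h2 : ∑ i, (m i : ℝ) * a i = p * ((p ^ j * n' : ℕ) * g) := by
      rw [← h1]
      push_cast
      ring
    have h3 : ((p ^ j * n' : ℕ) : ℝ) * g ∈ G := by
      rw [← nsmul_eq_mul]
      exact G.nsmul_mem hg _
    have h4 := h m _ h3 h2
    choose m' hm' using h4
    refine ih (m := m') (mul_left_cancel₀ (p_ne (p := p)) ?_)
    rw [← h2, Finset.mul_sum]
    refine Finset.sum_congr rfl fun i _ => ?_
    rw [hm' i]
    push_cast
    ring

/-- **Representatives.** -/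
theorem Ipd.exists_rps (h : Ipd p G a) (ha : ∀ i, a i ∈ G)
    (hr : ∀ g ∈ G, ∃ n : ℕ, ¬ p ∣ n ∧ ∃ m : Fin r → ℤ, (n : ℝ) * g = ∑ i, (m i : ℝ) * a i) :
    ∃ R : Finset ℝ, Rps p G R ∧ R.card = p ^ r := by
  classical
  let f : (Fin r → Fin p) → ℝ := fun c => ∑ i, ((c i : ℕ) : ℝ) * a i
  have hinj : ∀ c c' : Fin r → Fin p, (f c - f c') / p ∈ G → c = c' := by
    intro c c' h1
    have h2 := h (fun i => ((c i : ℕ) : ℤ) - ((c' i : ℕ) : ℤ)) _ h1 (by
      rw [mul_div_cancel₀ _ (p_ne (p := p)), ← Finset.sum_sub_distrib]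
      refine Finset.sum_congr rfl fun i _ => ?_
      push_cast
      ring)
    funext i
    have h3 := h2 i
    refine Fin.ext ?_
    have h4 : ((c i : ℕ) : ℤ) - ((c' i : ℕ) : ℤ) = 0 := by
      refine Int.eq_zero_of_abs_lt_dvd h3 ?_
      have h5 := (c i).2
      have h6 := (c' i).2
      rw [abs_lt]
      constructor <;> omega
    omega
  refine ⟨Finset.univ.image f, ⟨fun c hc => ?_, ?_, fun g hg => ?_, fun c hc c' hc' h1 => ?_⟩, ?_⟩
  · obtain ⟨c, -, rfl⟩ := Finset.mem_image.1 hc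
    exact sum_mem fun i _ => by
      rw [← nsmul_eq_mul]
      exact G.nsmul_mem (ha i) _
  · refine Finset.mem_image.2 ⟨fun _ => ⟨0, hp.out.pos⟩, Finset.mem_univ _, ?_⟩
    simp only [f]
    exact Finset.sum_eq_zero fun i _ => by rw [Nat.cast_zero, zero_mul]
  · obtain ⟨n, hn, m, h1⟩ := hr g hg
    -- `s n + t p = 1`
    have hcop : IsCoprime (n : ℤ) (p : ℤ) :=
      ((Prime.coprime_iff_not_dvd (Nat.prime_iff_prime_int.1 hp.out)).2
        fun h => hn (Int.natCast_dvd_natCast.1 h)).symm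
    obtain ⟨s, t, hst⟩ := hcop
    have hp0 : (p : ℤ) ≠ 0 := by exact_mod_cast hp.out.ne_zero
    have hpp : (0 : ℤ) < p := by exact_mod_cast hp.out.pos
    let c : Fin r → Fin p := fun i => ⟨((s * m i) % p).toNat, by
      have h2 := Int.emod_lt_of_pos (s * m i) hpp
      have h3 := Int.emod_nonneg (s * m i) hp0
      omega⟩
    have hc : ∀ i, (((c i : ℕ) : ℤ)) = (s * m i) % p := fun i =>
      Int.toNat_of_nonneg (Int.emod_nonneg _ hp0)
    refine ⟨f c, Finset.mem_image.2 ⟨c, Finset.mem_univ _, rfl⟩,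
      t * g + ∑ i, (((s * m i) / p : ℤ) : ℝ) * a i, ?_, ?_⟩
    · refine G.add_mem ?_ (sum_mem fun i _ => ?_)
      · rw [← zsmul_eq_mul]
        exact G.zsmul_mem hg _
      · rw [← zsmul_eq_mul]
        exact G.zsmul_mem (ha i) _
    · have h2 : g = (s : ℝ) * (n * g) + t * p * g := by
        have h3 : (s : ℝ) * n + t * p = 1 := by exact_mod_cast hst
        linear_combination (-g) * h3
      have h3 : (s : ℝ) * (n * g) = f c + p * ∑ i, (((s * m i) / p : ℤ) : ℝ) * a i := by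
        rw [h1, Finset.mul_sum, Finset.mul_sum, ← Finset.sum_add_distrib]
        refine Finset.sum_congr rfl fun i _ => ?_
        have h4 : (s * m i : ℤ) = ((c i : ℕ) : ℤ) + p * ((s * m i) / p) := by
          rw [hc i]
          exact (Int.emod_add_mul_ediv (s * m i) p).symm
        have h5 : ((s * m i : ℤ) : ℝ) = ((c i : ℕ) : ℝ) + p * (((s * m i) / p : ℤ) : ℝ) := by
          exact_mod_cast congrArg (Int.cast (R := ℝ)) h4
        rw [← mul_assoc, ← Int.cast_mul, h5]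
        ring
      linear_combination h2 + h3
  · obtain ⟨c, -, rfl⟩ := Finset.mem_image.1 hc
    obtain ⟨c', -, rfl⟩ := Finset.mem_image.1 hc'
    rw [hinj c c' h1]
  · rw [Finset.card_image_of_injective, Finset.card_univ, Fintype.card_fun, Fintype.card_fin,
      Fintype.card_fin]
    intro c c' h1
    refine hinj c c' ?_
    rw [h1, sub_self, zero_div]
    exact G.zero_mem

/-! ### `ZB` -/

omit hp in
theorem ZB.pf (h : ZB p G a) : PF p G := ⟨r, a, h.rat⟩

/-- A basis of the localization is independent modulo `p G`. -/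
theorem ZB.ipd (h : ZB p G a) : Ipd p G a := by
  intro m b hb h1 i
  obtain ⟨n, hn, l, h2⟩ := h.rat b hb
  have h3 : ∑ i, (((n : ℤ) * m i - p * l i : ℤ) : ℚ) • a i = 0 := by
    have h4 : (n : ℝ) * ∑ i, (m i : ℝ) * a i = p * ∑ i, (l i : ℝ) * a i := by
      rw [h1, ← h2]
      ring
    rw [Finset.mul_sum, Finset.mul_sum, ← sub_eq_zero, ← Finset.sum_sub_distrib] at h4
    rw [← h4]
    refine Finset.sum_congr rfl fun i _ => ?_
    rw [Rat.smul_def]
    push_cast
    ring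
  have h4 := Fintype.linearIndependent_iff.1 h.ind _ h3 i
  have h5 : (n : ℤ) * m i = p * l i := by
    have : ((n : ℤ) * m i - p * l i : ℤ) = 0 := by exact_mod_cast h4
    linarith
  have hpp := Nat.prime_iff_prime_int.1 hp.out
  rcases hpp.dvd_or_dvd (show (p : ℤ) ∣ n * m i from ⟨l i, h5⟩) with h6 | h6
  · exact absurd (Int.natCast_dvd_natCast.1 h6) hn
  · exact h6

/-- Independence modulo `p G` in the rational rank `r`. -/
theorem Ipd.zb (h : Ipd p G a) (ha : ∀ i, a i ∈ G)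
    (hr : ∀ g ∈ G, ∃ n : ℕ, n ≠ 0 ∧ ∃ m : Fin r → ℤ, (n : ℝ) * g = ∑ i, (m i : ℝ) * a i) :
    ZB p G a :=
  ⟨ha, h.ind, fun g hg => by
    obtain ⟨n, hn, m, h1⟩ := hr g hg
    exact h.cop hg hn h1⟩

/-- **Representatives.** -/
theorem ZB.exists_rps (h : ZB p G a) : ∃ R : Finset ℝ, Rps p G R ∧ R.card = p ^ r :=
  h.ipd.exists_rps h.mem h.rat

/-- The letters up to an extension of degree prime to `p`. -/
theorem ZB.up {G' : AddSubgroup ℝ} (h : ZB p G a) (hGG : G ≤ G')
    (htor : ∀ g ∈ G', ∃ n : ℕ, ¬ p ∣ n ∧ (n : ℝ) * g ∈ G) : ZB p G' a :=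
  ⟨fun i => hGG (h.mem i), h.ind, fun g hg => by
    obtain ⟨n, hn, h1⟩ := htor g hg
    obtain ⟨m, hm, l, h2⟩ := h.rat _ h1
    refine ⟨m * n, fun hd => ?_, l, by rw [← h2]; push_cast; ring⟩
    exact ((Nat.Prime.dvd_mul hp.out).1 hd).elim hm hn⟩

omit hp in
theorem PF.mono {G' : AddSubgroup ℝ} (h : PF p G) (hGG : G' ≤ G) : PF p G' := by
  obtain ⟨n, a, h1⟩ := h
  exact ⟨n, a, fun g hg => h1 g (hGG hg)⟩

omit hp in
/-- Groups with a multiple in `G`. -/
theorem PF.of_mul {G' : AddSubgroup ℝ} (h : PF p G) {N : ℕ} (hN : N ≠ 0)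
    (hGG : ∀ g ∈ G', (N : ℝ) * g ∈ G) : PF p G' := by
  obtain ⟨n, a, h1⟩ := h
  have hN' : (N : ℝ) ≠ 0 := Nat.cast_ne_zero.2 hN
  refine ⟨n, fun i => a i / N, fun g hg => ?_⟩
  obtain ⟨m, hm, l, h2⟩ := h1 _ (hGG g hg)
  refine ⟨m, hm, l, mul_left_cancel₀ hN' ?_⟩
  rw [Finset.mul_sum]
  have h3 : (N : ℝ) * (m * g) = m * (N * g) := by ring
  rw [h3, h2]
  refine Finset.sum_congr rfl fun i _ => ?_
  field_simp

/-- Finitely generated groups. -/
theorem PF.of_fg (h : G.FG) : PF p G := by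
  classical
  obtain ⟨S, hS⟩ := h
  refine ⟨S.card, fun i => (S.equivFin.symm i : ℝ), fun g hg => ?_⟩
  refine ⟨1, fun h1 => hp.out.one_lt.ne' (Nat.dvd_one.1 h1), ?_⟩
  rw [← hS] at hg
  induction hg using AddSubgroup.closure_induction with
  | mem x hx =>
    refine ⟨fun i => if (S.equivFin.symm i : ℝ) = x then 1 else 0, ?_⟩
    rw [Finset.sum_eq_single (S.equivFin ⟨x, hx⟩)]
    · simp
    · intro i _ hi
      change ((if (S.equivFin.symm i : ℝ) = x then (1 : ℤ) else 0 : ℤ) : ℝ) * _ = 0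
      rw [if_neg, Int.cast_zero, zero_mul]
      intro h1
      exact hi ((Equiv.symm_apply_eq _).1 (Subtype.ext h1))
    · exact fun h1 => absurd (Finset.mem_univ _) h1
  | zero => exact ⟨fun _ => 0, by simp⟩
  | add x y _ _ hx hy =>
    obtain ⟨l, hl⟩ := hx
    obtain ⟨l', hl'⟩ := hy
    refine ⟨fun i => l i + l' i, ?_⟩
    rw [mul_add, hl, hl', ← Finset.sum_add_distrib]
    refine Finset.sum_congr rfl fun i _ => ?_
    push_cast
    ring
  | neg x _ hx =>
    obtain ⟨l, hl⟩ := hx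
    refine ⟨fun i => - l i, ?_⟩
    rw [mul_neg, hl, ← Finset.sum_neg_distrib]
    refine Finset.sum_congr rfl fun i _ => ?_
    push_cast
    ring

/-- **Existence of a basis of the localization.** -/
theorem PF.exists_zb (h : PF p G) : ∃ (r : ℕ) (a : Fin r → ℝ), ZB p G a := by
  classical
  obtain ⟨n, a, ha⟩ := h
  set N₀ : Submodule ℤ ℝ := Submodule.span ℤ (Set.range a) with hN₀
  -- the part of the localization in the module
  let S : Submodule ℤ ℝ :=
    { carrier := {g | g ∈ N₀ ∧ ∃ m : ℕ, ¬ p ∣ m ∧ (m : ℝ) * g ∈ G}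
      zero_mem' := ⟨zero_mem _, 1, fun h1 => hp.out.one_lt.ne' (Nat.dvd_one.1 h1), by
        rw [mul_zero]
        exact G.zero_mem⟩
      add_mem' := by
        rintro g g' ⟨h1, m, hm, h2⟩ ⟨h3, m', hm', h4⟩
        refine ⟨add_mem h1 h3, m * m', fun hd => ((Nat.Prime.dvd_mul hp.out).1 hd).elim hm hm', ?_⟩
        have e : ((m * m' : ℕ) : ℝ) * (g + g') = m' • (m * g) + m • (m' * g') := by
          rw [nsmul_eq_mul, nsmul_eq_mul]
          push_cast
          ring
        rw [e]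
        exact G.add_mem (G.nsmul_mem h2 _) (G.nsmul_mem h4 _)
      smul_mem' := by
        rintro c g ⟨h1, m, hm, h2⟩
        refine ⟨N₀.smul_mem c h1, m, hm, ?_⟩
        have e : (m : ℝ) * (c • g) = c • (m * g) := by
          rw [zsmul_eq_mul, zsmul_eq_mul]
          ring
        rw [e]
        exact G.zsmul_mem h2 _ }
  have hSN : S ≤ N₀ := fun g hg => hg.1
  have hfg : N₀.FG := Submodule.fg_span (Set.finite_range a)
  haveI : Module.Finite ℤ N₀ := Module.Finite.iff_fg.2 hfg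
  haveI : IsNoetherian ℤ N₀ := isNoetherian_of_isNoetherianRing_of_finite ℤ N₀
  haveI : Module.Finite ℤ S := Module.Finite.of_injective (Submodule.inclusion hSN)
    (Submodule.inclusion_injective hSN)
  let b := Module.finBasis ℤ S
  set r := Module.finrank ℤ S
  have hb : ∀ i, ∃ m : ℕ, ¬ p ∣ m ∧ (m : ℝ) * (b i : ℝ) ∈ G := fun i => (b i).2.2
  choose m hm hmb using hb
  have hm0 : ∀ i, (m i : ℝ) ≠ 0 := fun i => Nat.cast_ne_zero.2 fun h0 => hm i (h0 ▸ dvd_zero p)
  have hli : LinearIndependent ℚ fun i => (b i : ℝ) := by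
    rw [← LinearIndependent.iff_fractionRing ℤ ℚ]
    exact b.linearIndependent.map' S.subtype (Submodule.ker_subtype S)
  refine ⟨r, fun i => m i * (b i : ℝ), hmb, ?_, fun g hg => ?_⟩
  · rw [Fintype.linearIndependent_iff] at hli ⊢
    intro q hq i
    have h1 := hli (fun i => q i * m i) (by
      rw [← hq]
      refine Finset.sum_congr rfl fun i _ => ?_
      rw [Rat.smul_def, Rat.smul_def]
      push_cast
      ring) i
    exact (mul_eq_zero.1 h1).resolve_right (Nat.cast_ne_zero.2 fun h0 => hm i (h0 ▸ dvd_zero p))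
  · obtain ⟨m₀, hm₀, l, h1⟩ := ha g hg
    have h2 : (m₀ : ℝ) * g ∈ S := by
      refine ⟨?_, 1, fun h1 => hp.out.one_lt.ne' (Nat.dvd_one.1 h1), ?_⟩
      · rw [h1]
        refine sum_mem fun i _ => ?_
        rw [← zsmul_eq_mul]
        exact N₀.smul_mem _ (Submodule.subset_span ⟨i, rfl⟩)
      · rw [Nat.cast_one, one_mul, ← nsmul_eq_mul]
        exact G.nsmul_mem hg _
    obtain ⟨e, h3⟩ : ∃ e : Fin r → ℤ, (m₀ : ℝ) * g = ∑ i, (e i : ℝ) * (b i : ℝ) := by
      refine ⟨fun i => b.repr ⟨_, h2⟩ i, ?_⟩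
      have h4 := congrArg (Subtype.val) (b.sum_repr ⟨_, h2⟩)
      rw [AddSubmonoidClass.coe_finset_sum] at h4
      refine h4.symm.trans (Finset.sum_congr rfl fun i _ => ?_)
      rw [← zsmul_eq_mul]
      rfl
    refine ⟨m₀ * ∏ i, m i, fun hd => ?_, fun i => e i *
      ∏ j ∈ Finset.univ.erase i, (m j : ℤ), ?_⟩
    · rcases (Nat.Prime.dvd_mul hp.out).1 hd with h4 | h4
      · exact hm₀ h4
      · obtain ⟨i, -, h5⟩ := (Prime.dvd_finset_prod_iff hp.out.prime _).1 h4
        exact hm i h5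
    · push_cast
      rw [mul_right_comm, h3, Finset.sum_mul]
      refine Finset.sum_congr rfl fun i _ => ?_
      rw [← Finset.prod_erase_mul _ _ (Finset.mem_univ i)]
      ring

theorem ZB.span (h : ZB p G a) {g : ℝ} (hg : g ∈ G) : g ∈ Submodule.span ℚ (Set.range a) := by
  obtain ⟨m, hm, l, h1⟩ := h.rat g hg
  have hm0 : (m : ℚ) ≠ 0 := Nat.cast_ne_zero.2 fun h0 => hm (h0 ▸ dvd_zero p)
  have e : g = (m : ℚ)⁻¹ • ∑ i, (l i : ℚ) • a i := by
    have h2 : ∑ i, (l i : ℚ) • a i = (m : ℚ) • g := by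
      rw [Rat.smul_def, Rat.cast_natCast, h1]
      exact Finset.sum_congr rfl fun i _ => by rw [Rat.smul_def, Rat.cast_intCast]
    rw [h2, smul_smul, inv_mul_cancel₀ hm0, one_smul]
  rw [e]
  exact Submodule.smul_mem _ _ (sum_mem fun i _ => Submodule.smul_mem _ _
    (Submodule.subset_span ⟨i, rfl⟩))

/-- The number of elements of a basis is the rational rank. -/
theorem ZB.card_eq (h : ZB p G a) {s : ℕ} {c : Fin s → ℝ} (hc : LinearIndependent ℚ c)
    (h1 : ∀ i, ∃ m : ℕ, m ≠ 0 ∧ (m : ℝ) * c i ∈ G)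
    (h2 : ∀ g ∈ G, g ∈ Submodule.span ℚ (Set.range c)) : r = s := by
  have e : Submodule.span ℚ (Set.range a) = Submodule.span ℚ (Set.range c) := by
    refine le_antisymm (Submodule.span_le.2 ?_) (Submodule.span_le.2 ?_)
    · rintro _ ⟨i, rfl⟩
      exact h2 _ (h.mem i)
    · rintro _ ⟨i, rfl⟩
      obtain ⟨m, hm, h3⟩ := h1 i
      have h4 := h.span h3
      have hm0 : (m : ℚ) ≠ 0 := Nat.cast_ne_zero.2 hm
      have e : c i = (m : ℚ)⁻¹ • ((m : ℝ) * c i) := by
        rw [Rat.smul_def, Rat.cast_inv, Rat.cast_natCast, inv_mul_cancel_left₀ (by exact_mod_cast hm0)]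
      rw [e]
      exact Submodule.smul_mem _ _ h4
  have h3 := finrank_span_eq_card h.ind
  have h4 := finrank_span_eq_card hc
  rw [e, h4, Fintype.card_fin, Fintype.card_fin] at h3
  exact h3.symm

/-- Two bases have the same number of elements. -/
theorem ZB.uniq (h : ZB p G a) {s : ℕ} {c : Fin s → ℝ} (h' : ZB p G c) : r = s :=
  h.card_eq h'.ind (fun i => ⟨1, one_ne_zero, by rw [Nat.cast_one, one_mul]; exact h'.mem i⟩)
    fun _ hg => h'.span hg

end Pool.Agent.TWV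

namespace Pool.Agent.TWV

open Pool.Agent.H15JM (RVal)
open Pool.Agent.TW (Ctx Full)
open Pool.Agent.TWS (VG)

universe u

variable {k Ω : Type u} [Field k] [Field Ω] [Algebra k Ω] {v : RVal Ω} {r : ℕ} {p : ℕ}
  [hp : Fact p.Prime]

/-- **The value group of a full field has a basis with `r` elements.** -/
theorem exists_zb_of_pf (hk : Ctx k v r) {C : IntermediateField k Ω} (hC : Full v C)
    (h : PF p (VG v C)) : ∃ a : Fin r → ℝ, ZB p (VG v C) a := by
  obtain ⟨s, a, ha⟩ := h.exists_zb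
  obtain ⟨X, h0, h1, h2⟩ := hk.rank
  have h3 : s = r := ha.card_eq h1 (fun i => by
    obtain ⟨m, hm, c, hc, hc0, h4⟩ := hC (X i) (h0 i)
    exact ⟨m, hm.ne', c, hc, hc0, h4⟩) fun g hg => by
      obtain ⟨c, -, hc0, rfl⟩ := hg
      exact h2 c hc0
  subst h3
  exact ⟨a, ha⟩

end Pool.Agent.TWV
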