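import Pool.Agent.Lib.TWV.Defs

/-!
# TANK W, tame value groups of any rational rank: adapted bases

* `exists_adapted`: `G ≤ G₁` groups of real numbers, `p G₁ ≤ G`, the localization of `G` at `p`
  free of rank `r`: there are bases `e` of the localization of `G` and `b` of the localization of
  `G₁` with `b i = e i` or `p b i = e i` for all `i`.
-/

set_option autoImplicit false

namespace Pool.Agent.TWV

theorem exists_adapted {p : ℕ} [Fact p.Prime] {G G₁ : AddSubgroup ℝ} {r : ℕ} {a : Fin r → ℝ}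
    (h : ZB p G a) (hle : G ≤ G₁) (hp : ∀ g ∈ G₁, (p : ℝ) * g ∈ G) :
    ∃ e b : Fin r → ℝ, ZB p G e ∧ ZB p G₁ b ∧ ∀ i, b i = e i ∨ (p : ℝ) * b i = e i := by
  classical
  have hpp : p.Prime := Fact.out
  have hp0 : (p : ℝ) ≠ 0 := Nat.cast_ne_zero.mpr hpp.ne_zero
  have hpq0 : (p : ℚ) ≠ 0 := Nat.cast_ne_zero.mpr hpp.ne_zero
  set a' : Fin r → ℝ := fun i => a i / p with ha'
  have hliQ : LinearIndependent ℚ a' := by
    have h1 := h.ind.units_smul (fun _ => (Units.mk0 (p : ℚ) hpq0)⁻¹)
    convert h1 using 1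
    funext i
    simp only [ha', Pi.smul_apply', Units.smul_def, Units.val_inv_eq_inv_val, Units.val_mk0]
    rw [Rat.smul_def]
    push_cast
    field_simp
  have hliZ : LinearIndependent ℤ a' := hliQ.restrict_scalars (by
    intro x y hxy
    simpa using hxy)
  set M : Submodule ℤ ℝ := Submodule.span ℤ (Set.range a') with hM
  set N : Submodule ℤ M := (AddSubgroup.toIntSubmodule G₁).comap M.subtype with hN
  obtain ⟨n, bM, bN, f, c, hc⟩ := N.smithNormalForm (Module.Basis.span hliZ)
  -- `p M ≤ G`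
  have hMG : ∀ x ∈ M, (p : ℝ) * x ∈ G := by
    intro x hx
    induction hx using Submodule.span_induction with
    | mem x hx =>
      obtain ⟨i, rfl⟩ := hx
      have : (p : ℝ) * a' i = a i := by simp only [ha']; field_simp
      rw [this]; exact h.mem i
    | zero => simp
    | add x y _ _ hx hy => rw [mul_add]; exact G.add_mem hx hy
    | smul t x _ hx =>
      have : (p : ℝ) * (t • x) = t • ((p : ℝ) * x) := by
        rw [mul_smul_comm]
      rw [this]; exact G.zsmul_mem hx t
  have hrep : ∀ x : M, (x : ℝ) = ∑ i, ((bM.repr x i : ℤ) : ℝ) * (bM i : ℝ) := by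
    intro x
    refine (congrArg (fun y : M => (y : ℝ)) (bM.sum_repr x)).symm.trans ?_
    simp only [AddSubmonoidClass.coe_finsetSum]
    refine Finset.sum_congr rfl fun i _ => ?_
    simp
  -- independence of the `bM i` over `ℚ`
  have hbZ : LinearIndependent ℤ fun i => (bM i : ℝ) := by
    have h1 := bM.linearIndependent.map' M.subtype (Submodule.ker_subtype M)
    exact h1
  have hbQ : LinearIndependent ℚ fun i => (bM i : ℝ) :=
    (LinearIndependent.iff_fractionRing ℤ ℚ).mp hbZ
  -- the numbers `c j`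
  have hcd : ∀ j, IsUnit (c j) ∨ (p : ℤ) ∣ c j := by
    intro j
    have hmem : (p : ℤ) • bM (f j) ∈ N := by
      rw [hN, Submodule.mem_comap]
      change ((p : ℤ) • bM (f j) : M).1 ∈ G₁
      have : (((p : ℤ) • bM (f j) : M) : ℝ) = (p : ℝ) * (bM (f j) : ℝ) := by
        simp
      rw [this]
      exact hle (hMG _ (bM (f j)).2)
    have h1 : ((⟨_, hmem⟩ : N) : M) = ∑ l, (bN.repr ⟨_, hmem⟩ l) • (bN l : M) := by
      refine (congrArg (fun y : N => (y : M)) (bN.sum_repr ⟨_, hmem⟩)).symm.trans ?_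
      simp only [AddSubmonoidClass.coe_finsetSum]
      rfl
    have h3 := congrArg (fun y : M => bM.repr y (f j)) h1
    simp only [map_smul, map_sum, Finsupp.smul_apply, Finsupp.coe_finsetSum, Finset.sum_apply, hc,
      Module.Basis.repr_self, smul_eq_mul] at h3
    rw [Finset.sum_eq_single j] at h3
    · rw [Finsupp.single_eq_same] at h3
      have hdvd : c j ∣ (p : ℤ) := ⟨bN.repr ⟨_, hmem⟩ j, by linarith⟩
      have hpr : Prime (p : ℤ) := Nat.prime_iff_prime_int.mp hpp
      rcases (Int.natAbs_dvd_natAbs.mpr hdvd) with hd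
      rw [Int.natAbs_natCast] at hd
      rcases (Nat.dvd_prime hpp).mp hd with h5 | h5
      · left; exact Int.isUnit_iff_natAbs_eq.mpr h5
      · right
        rw [← Int.natAbs_dvd_natAbs, Int.natAbs_natCast, h5]
    · intro l _ hl
      have : f l ≠ f j := fun hh => hl (f.injective hh)
      rw [Finsupp.single_eq_of_ne (Ne.symm this)]
      ring
    · intro hj; exact absurd (Finset.mem_univ j) hj
  set U : Set (Fin r) := {i | ∃ j, f j = i ∧ IsUnit (c j)} with hU
  set b : Fin r → ℝ := fun i => if i ∈ U then (bM i : ℝ) else (p : ℝ) * bM i with hb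
  have hbG : ∀ i, b i ∈ G₁ := by
    intro i
    simp only [hb]
    split_ifs with hi
    · obtain ⟨j, rfl, hj⟩ := hi
      obtain ⟨u, hu⟩ := hj
      have h1 : ((bN j : M) : ℝ) ∈ G₁ := (bN j).2
      rw [hc j, ← hu] at h1
      have h2 : (bM (f j) : ℝ) = ((u⁻¹ : ℤˣ) : ℤ) • (((u : ℤ) • bM (f j) : M) : ℝ) := by
        have : (((u : ℤ) • bM (f j) : M) : ℝ) = (u : ℤ) • (bM (f j) : ℝ) := by simp
        rw [this, smul_smul]
        simp
      rw [h2]
      exact G₁.zsmul_mem h1 _
    · exact hle (hMG _ (bM i).2)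
  refine ⟨fun i => (p : ℝ) * bM i, b, ⟨fun i => hMG _ (bM i).2, ?_, ?_⟩, ⟨hbG, ?_, ?_⟩, ?_⟩
  · have h1 := hbQ.units_smul (fun _ => Units.mk0 (p : ℚ) hpq0)
    convert h1 using 1
    funext i
    simp only [Pi.smul_apply', Units.smul_def, Units.val_mk0]
    rw [Rat.smul_def]
    simp
  · intro g hg
    obtain ⟨m, hm, l, hl⟩ := h.rat g hg
    have hx : ∑ i, (l i : ℝ) * a' i ∈ M := by
      refine Submodule.sum_mem _ fun i _ => ?_
      have : (l i : ℝ) * a' i = l i • a' i := by simp
      rw [this]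
      exact Submodule.smul_mem _ _ (Submodule.subset_span ⟨i, rfl⟩)
    refine ⟨m, hm, fun i => bM.repr ⟨_, hx⟩ i, ?_⟩
    have h1 := hrep ⟨_, hx⟩
    have h2 : (m : ℝ) * g = (p : ℝ) * ∑ i, (l i : ℝ) * a' i := by
      rw [hl, Finset.mul_sum]
      refine Finset.sum_congr rfl fun i _ => ?_
      simp only [ha']
      field_simp
    have h3 : (∑ i, (l i : ℝ) * a' i) = ∑ i, ((bM.repr ⟨_, hx⟩ i : ℤ) : ℝ) * (bM i : ℝ) := h1
    refine h2.trans ((congrArg (fun t : ℝ => (p : ℝ) * t) h3).trans ?_)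
    simp only [Finset.mul_sum]
    refine Finset.sum_congr rfl fun i _ => ?_
    ring
  · have h1 := hbQ.units_smul (fun i => if i ∈ U then 1 else Units.mk0 (p : ℚ) hpq0)
    convert h1 using 1
    funext i
    simp only [hb, Pi.smul_apply', Units.smul_def]
    split_ifs with hi
    · simp
    · rw [Units.val_mk0, Rat.smul_def]
      simp
  · intro g hg
    obtain ⟨m, hm, l, hl⟩ := h.rat _ (hp g hg)
    have hx : ∑ i, (l i : ℝ) * a' i ∈ M := by
      refine Submodule.sum_mem _ fun i _ => ?_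
      have : (l i : ℝ) * a' i = l i • a' i := by simp
      rw [this]
      exact Submodule.smul_mem _ _ (Submodule.subset_span ⟨i, rfl⟩)
    have hmg : (m : ℝ) * g = ∑ i, (l i : ℝ) * a' i := by
      have h2 : (p : ℝ) * ((m : ℝ) * g) = (p : ℝ) * ∑ i, (l i : ℝ) * a' i := by
        have h3 : (p : ℝ) * ((m : ℝ) * g) = (m : ℝ) * ((p : ℝ) * g) := by ring
        rw [h3, hl, Finset.mul_sum]
        refine Finset.sum_congr rfl fun i _ => ?_
        simp only [ha']
        field_simp
      exact mul_left_cancel₀ hp0 h2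
    have hxN : (⟨_, hx⟩ : M) ∈ N := by
      rw [hN, Submodule.mem_comap]
      change (∑ i, (l i : ℝ) * a' i) ∈ G₁
      rw [← hmg]
      have : (m : ℝ) * g = m • g := by simp
      rw [this]
      exact G₁.nsmul_mem hg m
    -- the coordinates outside `U` are divisible by `p`
    have hdiv : ∀ i, i ∉ U → (p : ℤ) ∣ bM.repr ⟨_, hx⟩ i := by
      intro i hi
      have h1 : ((⟨_, hxN⟩ : N) : M) = ∑ l, (bN.repr ⟨_, hxN⟩ l) • (bN l : M) := by
        refine (congrArg (fun y : N => (y : M)) (bN.sum_repr ⟨_, hxN⟩)).symm.trans ?_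
        simp only [AddSubmonoidClass.coe_finsetSum]
        rfl
      have h3 := congrArg (fun y : M => bM.repr y i) h1
      simp only [map_smul, map_sum, Finsupp.smul_apply, Finsupp.coe_finsetSum, Finset.sum_apply,
        hc, Module.Basis.repr_self, smul_eq_mul] at h3
      rw [h3]
      refine Finset.dvd_sum fun j _ => ?_
      rcases hcd j with hu | hd
      · have hne : f j ≠ i := fun hh => hi ⟨j, hh, hu⟩
        rw [Finsupp.single_eq_of_ne (Ne.symm hne)]
        simp
      · exact dvd_mul_of_dvd_right (dvd_mul_of_dvd_left hd _) _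
    refine ⟨m, hm, fun i => if i ∈ U then bM.repr ⟨_, hx⟩ i else bM.repr ⟨_, hx⟩ i / p, ?_⟩
    have h3 : (∑ i, (l i : ℝ) * a' i) = ∑ i, ((bM.repr ⟨_, hx⟩ i : ℤ) : ℝ) * (bM i : ℝ) :=
      hrep ⟨_, hx⟩
    refine hmg.trans (h3.trans ?_)
    refine Finset.sum_congr rfl fun i _ => ?_
    simp only [hb]
    split_ifs with hi
    · rfl
    · obtain ⟨t, ht⟩ := hdiv i hi
      rw [ht]
      have hpz : (p : ℤ) ≠ 0 := Int.natCast_ne_zero.mpr hpp.ne_zero
      rw [Int.mul_ediv_cancel_left _ hpz]
      push_cast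
      ring
  · intro i
    simp only [hb]
    split_ifs with hi
    · right; rfl
    · left; rfl

end Pool.Agent.TWV
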