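import Pool.Agent.Lib.TWV.Defs
import Pool.Agent.Lib.TWF.TopJ

/-!
# TANK W, tame value groups of any rational rank: the tame leaf, statements

* `TameLeafV p k`: the step from transcendence degree `r + 3`, if the localization at `p` of the
  value group is in a finitely generated module;
* `coverV`: the critical step is good or the closure of `K₀` is a tower with two floors over the
  closure of a field of transcendence degree `r + 1`.
-/

set_option autoImplicit false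

open Polynomial

namespace Pool.Agent.TWV

open Pool.Agent.H15JM (RVal)
open Pool.Agent.LU1 (adj)
open Pool.Agent.D2 (Ctx0)
open Pool.Agent.D2P (clI mem_adj_self)
open Pool.Agent.TW
open Pool.Agent.TWM (TL CompleteV Dense cadj Cld cld_clI clI_adj_clI Imm)
open Pool.Agent.TWS (TowR VG PM IsoE)
open Pool.Agent.TWF (ClE)
open Pool.Agent.TWJ2 (Flg fj8)

universe u

/-- **The tame leaf**, any rational rank. -/
def TameLeafV (p : ℕ) (k : Type u) [Field k] : Prop :=
  ∀ (Ω : Type u) [Field Ω] [Algebra k Ω] [IsAlgClosed Ω] [CharP Ω p] (v : RVal Ω) (r : ℕ),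
    Ctx k v r → ∀ K₀ : IntermediateField k Ω, K₀.FG → (∀ g : Ω, IsAlgebraic K₀ g) →
    Algebra.trdeg k K₀ = (r + 3 : ℕ) → BD p v K₀ → HRone v K₀ → PF p (VG v K₀) →
    ∀ g : Ω, g ^ p ∈ K₀ → BD p v (adj K₀ g) → HRone v (adj K₀ g)

section

variable (p : ℕ) [hp : Fact p.Prime] {k Ω : Type u} [Field k] [IsAlgClosed k] [CharP k p]
  [Field Ω] [Algebra k Ω] [IsAlgClosed Ω] [CharP Ω p] {v : RVal Ω} {K₀ : IntermediateField k Ω}
  {r : ℕ}

/-- **The cover.** -/
theorem coverV (h : Ctx k v r) (hK : K₀.FG) (hΩ : ∀ g : Ω, IsAlgebraic K₀ g)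
    (htr : Algebra.trdeg k K₀ = (r + 3 : ℕ)) (hBDK : BD p v K₀) (hHR : HRone v K₀) {g : Ω}
    (hg : g ^ p ∈ K₀) (hBD : BD p v (adj K₀ g)) :
    HRone v (adj K₀ g) ∨ ClE (fun _ _ _ v M => TW2V p k r v M) v K₀ := by
  by_cases hno : HRone v (adj K₀ g)
  · exact Or.inl hno
  right
  have hr := h.rpos
  obtain ⟨Ω', iF, iA, ι, w, iC, h2, h3⟩ := TWM.exists_complete k v
  have : CharP Ω' p := Dense.charP ι p
  have hc' : Ctx k w r := h3.ctx h
  have hfull : Full v K₀ := full_of_alg hΩ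
  have hadj : (adj K₀ g).map ι = adj (K₀.map ι) (ι g) := Dense.adj_map _ _
  obtain ⟨C, y, z, s, hF, hz, hfj⟩ := TWJ2.rowJ_all (D := 1) p hc' h2
    (fun E hE hEf htr hBD =>
      TWJ.lu_bd_two p hc' (TWJ.stepAll p k r) (n := r + 1) (by omega) hE hEf htr hBD)
    (fun E hE hEf htr hBD =>
      TWJ.lu_bd_two p hc' (TWJ.stepAll p k r) (n := r + (1 + 1)) (by omega) hE hEf htr hBD)
    (fun E hE hEf htr hBD => TW.dns_of_BD p hc' hE hEf hBD (n := r + 1) htr (by omega))
    (fun E hE hEf htr hBD => TW.dns_of_BD p hc' hE hEf hBD (n := r + (1 + 1)) htr (by omega))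
    (K₀ := K₀.map ι) (Dense.fg_map hK) (h3.full_iff.2 hfull)
    (by rw [Dense.trdeg_map, htr]) (h3.bd_iff.2 hBDK) (h3.hrone_iff.2 hHR) (al := ι g)
    ⟨g ^ p, hg, map_pow ι g p⟩ (by rw [← hadj]; exact h3.bd_iff.2 hBD)
    (by rw [← hadj, h3.hrone_iff]; exact hno)
  obtain ⟨E, X, s', h4, h5, h6, h7, -, h8, -, h9⟩ := fj8 (n := r + 1) p hc' (by omega)
    (fun _ hE hEf htr hBD => TWJ.lu_bd_two p hc' (TWJ.stepAll p k r) (n := r + 1) (by omega) hE hEf
      htr hBD) hF.fg hF.full hF.bd (by exact_mod_cast hF.tr) hF.ty hF.bdy hfj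
  refine ⟨Ω', iF, iA, ι, w, iC, h2, h3, E, clI w E, h4, h5, by exact_mod_cast h6, h7, rfl,
    TowR.succ h8 (TowR.succ (z := z) (s := s) ?_ ?_)⟩
  · rw [clI_adj_clI, h9]
    exact hz
  · have e : cadj w (cadj w (clI w E) X) z = clI w (K₀.map ι) := by
      rw [clI_adj_clI, h9, clI_adj_clI, hF.cl]
    rw [e]
    exact TowR.zero (cld_clI w _)

end

end Pool.Agent.TWV
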