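import Pool.Agent.Lib.TWIV.Core

/-!
# TANK W, leaf (IV) TAME, rational rank `r`: the recursion

The recursion of `Rec.lean`, the freeness over the fine world as a hypothesis.
* `World.core_ofF`: a tower of length `3` over `E` gives a tower of length `3` over `N`;
* `World.coreF`: the same with the shape `(1, 2)'` inserted, finite fibres as hypotheses.
-/

set_option autoImplicit false
set_option linter.unusedSectionVars false

open Polynomial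

namespace Pool.Agent.TWIV

open Pool.Agent.H15JM (RVal)
open Pool.Agent.LU1 (VPos adj)
open Pool.Agent.D2 (Ctx0)
open Pool.Agent.D2P (hen clI mem_clI)
open Pool.Agent.TWM Pool.Agent.TWS Pool.Agent.TWT
open Pool.Agent.TWC (Tow Nul Cau)

universe u

variable {k Ω : Type u} [Field k] [Field Ω] [Algebra k Ω] {v : RVal Ω}
  {N L A B : IntermediateField k Ω} {M : ℝ → Ω} {p : ℕ}

variable [hcx : Fact (Ctx0 k v)] [hp : Fact p.Prime] [CharP k p] [CharP Ω p] [PerfectRing k p]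
  [IsAlgClosed k] [IsAlgClosed Ω]

namespace World

variable (W : World p v N L ⊤ M) (hΩ : CompleteV v)

variable (W' : World p v (cs p v N N M) (cs p v N L M) ⊤ M)
  (hV : VG v (cs p v N N M) = satp p (VG v N))
  (hfree : ∀ A : IntermediateField k Ω, N ≤ A → A ≤ L → Cld v A →
    FTB p v (PM v L ⊤ M) (PM v A ⊤ M) →
    FVB p v (PM v L ⊤ M) (PM v A ⊤ M) (W'.pj hΩ 0) → FreeB k p v L (PM v A ⊤ M) ⊤ M)
  (hFTP : FTP k p v)

include W hfree hFTP in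
/-- **The last floor.** -/
theorem last_floorF (hNA : N ≤ A) (hAL : A ≤ L) (hA : Cld v A)
    (hT : TowR v 1 (PM v A ⊤ M) (PM v L ⊤ M))
    (hFV : FVB p v (PM v L ⊤ M) (PM v A ⊤ M) (W'.pj hΩ 0)) : TowR v 1 A L := by
  have hF := hfree A hNA hAL hA (hFTP 1 _ _ hT) hFV
  obtain ⟨c, hc, hcT⟩ := tow_inv1 (tow_mon W.ms hT fun g => PM.mon trivial)
  obtain ⟨w, hw, r, -, -, -, h1, h2⟩ := W.top hΩ hNA hAL hA hF (s := 0) trivial hc hcT
  refine TowR.succ h1 ?_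
  rw [← h2]
  exact TowR.zero W.cldL

include W hfree hFTP in
/-- **The last two floors**, from a homogeneous first one. -/
theorem last_twoF (hNA : N ≤ A) (hAL : A ≤ L) (hA : Cld v A) {u₂ : Ω} (hu₂ : u₂ ∈ L) {r₂ : ℝ}
    (ht : TL v (PM v A ⊤ M) (M (-r₂) * u₂) 0)
    (hT : TowR v 1 (cadj v (PM v A ⊤ M) (M (-r₂) * u₂)) (PM v L ⊤ M))
    (hFV : FVB p v (PM v L ⊤ M) (cadj v (PM v A ⊤ M) (M (-r₂) * u₂)) (W'.pj hΩ 0)) :
    TowR v 2 A L := by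
  have h1 : TL v A u₂ r₂ := W.tl_unscale hΩ hNA hAL hA hu₂ ht
  refine TowR.succ h1 ?_
  have h2 := W.PM_cadjT A (-r₂) u₂
  rw [← h2] at hT hFV
  exact W.last_floorF hΩ W' hfree hFTP (hNA.trans (le_cadj v A u₂))
    (TWM.cadj_le W.cldL hAL hu₂) (cld_cadj v A u₂) hT hFV

include W hV hfree hFTP in
/-- **THE RECURSION.** -/
theorem core_ofF (hfib : ∀ c : ℝ ⧸ VG v (cs p v N N M), {d : ℝ ⧸ VG v (cs p v N N M) |
      p • d = c}.Finite)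
    (hH : H3P hΩ W') (hT : Tow v 3 (PM v N ⊤ M) (PM v L ⊤ M)) : TowR v 3 N L := by
  classical
  have hk : Ctx0 k v := hcx.out
  set E := PM v N ⊤ M with hE
  set T := PM v L ⊤ M with hTdef
  have hMG : ∀ B : IntermediateField k Ω, ∀ g ∈ (⊤ : AddSubgroup ℝ), M g ∈ PM v B ⊤ M :=
    fun B g hg => PM.mon hg
  have hv0 : ∀ B : IntermediateField k Ω, ∀ b ∈ B, b ≠ 0 → v b ∈ (⊤ : AddSubgroup ℝ) :=
    fun _ _ _ _ => trivial
  have hET : E ≤ T := PM.mono W.NL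
  have hEc : Cld v E := PM.cld
  have hTc : Cld v T := PM.cld
  -- over `E`
  have hFT0 : FTB p v T E := W.ft_zero
  have hFV0 : FVB p v T E (W'.pj hΩ 0) := by
    have h1 := W'.fvb_zero hΩ
    rwa [PM_cs, PM_cs] at h1
  have hF0 : FreeB k p v L E ⊤ M :=
    hfree N le_rfl W.NL W.cldN hFT0 hFV0
  obtain ⟨m, S, r, u, hr, hu, hZ⟩ := W.exists_zbas le_rfl W.NL hF0 hT
  obtain ⟨i₁, hi₁⟩ : S.Nonempty := by
    obtain ⟨c, hc, h₁⟩ := tow_inv_s hT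
    exact hZ.nonempty hc h₁.lim (TL.not_nr' h₁)
  obtain ⟨ht1, hT1⟩ := perf_exh hΩ hEc W.perfE ⟨W.ms, fun g _ _ => PM.mon trivial⟩ W.ms (hMG N)
    (fun _ _ _ => trivial) hT (hZ.mem i₁ hi₁) (hZ.lim i₁ hi₁) (hZ.not_nr W.ms hi₁)
    (hZ.sat W.ms (hMG N) hi₁)
  have hu1 : u i₁ ∈ L := hu i₁ hi₁
  have hA₁L : cadj v N (u i₁) ≤ L := TWM.cadj_le W.cldL W.NL hu1
  refine TowR.succ (W.tl_unscale hΩ le_rfl W.NL W.cldN hu1 ht1) ?_
  -- over `E₁`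
  have hPM1 := W.PM_cadjT N (-(r i₁)) (u i₁)
  set E₁ := PM v (cadj v N (u i₁)) ⊤ M with hE₁
  have hE₁T : E₁ ≤ T := PM.mono hA₁L
  have hEE₁ : E ≤ E₁ := PM.mono (le_cadj v N _)
  rw [← hPM1] at hT1
  have hFT1 : FTB p v T E₁ := hFTP 2 _ _ hT1
  have hFV1 : FVB p v T E₁ (W'.pj hΩ 0) := by
    have h1 := W'.fvb_first hΩ (sat_coarse hV) (S := S) (r := r) (u := u) (fun _ => trivial)
      (fun i hi => cs_le (hu i hi)) (by rw [PM_cs, PM_cs]; exact hZ) hi₁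
      (by rw [PM_cs]; exact ht1)
    rwa [PM_cs, PM_cs_cadj] at h1
  have hF1 : FreeB k p v L E₁ ⊤ M :=
    hfree _ (le_cadj v N _) hA₁L (cld_cadj v N _) hFT1 hFV1
  have hT1' : Tow v 2 E₁ T := tow_mon W.ms hT1 fun g => PM.mon trivial
  obtain ⟨c, d, hc, hd, hcd⟩ := tow_inv2 hT1'
  have hcT : c ∈ T := by
    rw [hcd]
    exact le_cadj v _ _ (self_mem_cadj v _ _)
  have hTc1 : TowR v 1 (cadj v E₁ c) T := by
    refine TowR.succ hd ?_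
    rw [← hcd]
    exact TowR.zero hTc
  -- the pair with a limit
  by_cases hii : ∃ c' b : Ω, Fib v E₁ T c' b 0 0 ∧ Lim v E₁ 0 b
  · obtain ⟨c', b, hFib, hb⟩ := hii
    obtain ⟨w₁, hw₁, w₂, hw₂, r₁, -, r₂, -, -, hF, -, -⟩ := W.top2 hΩ (le_cadj v N _) hA₁L
      (cld_cadj v N _) hF1 (s₁ := 0) (s₂ := 0) trivial trivial hFib hb
    refine TowR.succ hF.ty (TowR.succ hF.tz ?_)
    rw [← hF.eq]
    exact TowR.zero W.cldL
  -- the limits of `E`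
  have hcan : ∀ Y ∈ T, Lim v E 0 Y → Nr v (cadj v E₁ c) 0 Y := by
    intro Y hY hl
    by_contra hn
    have hl2 : Lim v (cadj v E₁ c) 0 Y := fun ε hε => by
      obtain ⟨a, ha, h1⟩ := hl ε hε
      exact ⟨a, le_cadj v _ _ (hEE₁ ha), h1⟩
    have hYd : Y ∈ cadj v (cadj v E₁ c) d := by rwa [← hcd]
    obtain ⟨Q, -, hQ⟩ := TL.exists_ev (p := p) hk W.ms (fun g hg => le_cadj v _ _ (hMG _ g hg))
      (hv0 _) hd hYd hl2
    obtain ⟨b, hb, h1⟩ := hQ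
    have hQ0 : Q ≠ 0 := by
      rintro rfl
      rw [ev_zero, sub_zero] at h1
      exact hn ⟨b, hb, h1.ge⟩
    have hE₁' : E₁ = cadj v E (M (-(r i₁)) * u i₁) := hPM1
    obtain ⟨b', hb', h2⟩ := exh_key (p := p) hk W.perfE (y := M (-(r i₁)) * u i₁) (u := c) (z := d)
      ht1 (by rwa [← hE₁']) (by rw [← hE₁']; exact hd.lim) hl hQ0 (b := b) (by rwa [← hE₁'])
      (by
        have h3 := h1.ge
        rw [sub_sub, ev00_fev W.ms] at h3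
        exact h3)
    rw [← hE₁'] at hb' h2
    refine hii ⟨c, d - b', ⟨hc, hd.sub_mem hb', ?_⟩, h2⟩
    rw [cadj_sub_mem hb']
    exact hcd
  by_cases hrho : ∃ i₂ ∈ S, i₂ ≠ i₁
  · -- `ρ ≥ 2`
    obtain ⟨i₂, hi₂, hne⟩ := hrho
    have hs := hZ.sat1 W.ms (hMG N) (hv0 E) W.perfE hET hTc hi₁ ht1 hi₂ hne
    have hn := hZ.not_nr1 W.ms (hMG N) (hv0 E) hi₁ ht1 hi₂ hne
    rw [← hPM1] at hs hn
    have hl1 : Lim v E₁ 0 (M (-(r i₂)) * u i₂) := fun ε hε => by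
      obtain ⟨a, ha, h1⟩ := hZ.lim i₂ hi₂ ε hε
      exact ⟨a, hEE₁ ha, h1⟩
    obtain ⟨D, hD⟩ := ZBas.one W.ms (hMG _) (hv0 E₁) hc hl1
      (Nr.nr' (hcan _ (hZ.mem i₂ hi₂) (hZ.lim i₂ hi₂)))
    obtain ⟨ht2, hT2, d', hd', f, hf, hg⟩ := hs.tow W.ms (hMG _) hc hTc1 (hZ.mem i₂ hi₂) hn hD
    refine W.last_twoF hΩ W' hfree hFTP (le_cadj v N _) hA₁L (cld_cadj v N _)
      (hu i₂ hi₂) ht2 hT2 ?_
    have h1 := (W'.fvb_two hΩ (d₁ := -(r i₁)) (d₂ := -(r i₂)) trivial trivial (cs_le hu1)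
      (cs_le (hu i₂ hi₂)) (by rw [PM_cs]; exact ht1) (by rw [PM_cs_cadj]; exact ht2)
      (by rw [PM_cs]; exact hZ.lim i₂ hi₂) (fun Y hY hl => ?_)).2
    · rw [PM_cs, ← cs_cadj, PM_cs_cadj, W.PM_cadjT _ (-(r i₂))] at h1
      exact h1
    · rw [PM_cs] at hY hl
      rw [← cs_cadj, PM_cs_cadj, W.PM_cadjT _ (-(r i₂))]
      refine nr_exch p W.ms (hMG _) (hv0 E₁) hc hd' hf hg (fun ε hε => ?_) (hcan Y hY hl)
      obtain ⟨a, ha, h1⟩ := hl ε hε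
      exact ⟨a, hEE₁ ha, h1⟩
  -- `ρ = 1`
  have hc1 : ∀ Y ∈ T, Lim v E 0 Y → Nr v E₁ 0 Y := by
    intro Y hY hl
    obtain ⟨P, e, he, h1⟩ := hZ.span Y hY hl
    refine ⟨e + ∑ i ∈ S, TWM.ev p M 0 0 (P i) (M (-(r i)) * u i), add_mem (hEE₁ he)
      (sum_mem fun i hi => ?_), ?_⟩
    · have hii₁ : i = i₁ := by
        by_contra hne
        exact hrho ⟨i, hi, hne⟩
      subst hii₁
      rw [ev00_fev W.ms]
      refine fev_mem _ ?_
      rw [hPM1]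
      exact self_mem_cadj v _ _
    · rw [show Y - (e + ∑ i ∈ S, TWM.ev p M 0 0 (P i) (M (-(r i)) * u i)) =
        Y - ∑ i ∈ S, TWM.ev p M 0 0 (P i) (M (-(r i)) * u i) - e by ring]
      exact h1.ge
  by_cases hi : ∀ x ∈ T, Lim v E₁ 0 x → Nr v (cadj v E₁ c) 0 x
  · -- the limits of `E₁` are near `E₁⟨c⟩`
    obtain ⟨m', S', r', u', hr', hu', hZ'⟩ := W.exists_zbas (le_cadj v N _) hA₁L hF1 hT1'
    obtain ⟨j, hj⟩ := hZ'.nonempty hcT hc.lim (TL.not_nr' hc)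
    obtain ⟨D, hD⟩ := ZBas.one W.ms (hMG _) (hv0 E₁) hc (hZ'.lim j hj)
      (Nr.nr' (hi _ (hZ'.mem j hj) (hZ'.lim j hj)))
    obtain ⟨ht2, hT2, d', hd', f, hf, hg⟩ := (hZ'.sat W.ms (hMG _) hj).tow W.ms (hMG _) hc hTc1
      (hZ'.mem j hj) (hZ'.not_nr W.ms hj) hD
    refine W.last_twoF hΩ W' hfree hFTP (le_cadj v N _) hA₁L (cld_cadj v N _)
      (hu' j hj) ht2 hT2 ?_
    have h1 := W'.fvb_two_fib hΩ hfib (d₁ := -(r i₁)) (d₂ := -(r' j)) trivial trivial (cs_le hu1)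
      (cs_le (hu' j hj)) (by rw [PM_cs]; exact ht1) (by rw [PM_cs_cadj]; exact ht2)
      (fun Y hY hl => ?_) (fun Y hY hl => ?_)
    · rw [PM_cs, ← cs_cadj, PM_cs_cadj, W.PM_cadjT _ (-(r' j))] at h1
      exact h1
    · rw [PM_cs] at hY hl
      rw [PM_cs_cadj]
      exact hc1 Y hY hl
    · rw [PM_cs] at hY
      rw [PM_cs_cadj] at hl
      rw [← cs_cadj, PM_cs_cadj, W.PM_cadjT _ (-(r' j))]
      exact nr_exch p W.ms (hMG _) (hv0 E₁) hc hd' hf hg hl (hi Y hY hl)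
  · -- the shape `(1, 2)'`
    have hx : ∃ x ∈ T, Lim v E₁ 0 x ∧ ¬ Nr v (cadj v E₁ c) 0 x := by
      by_contra h
      refine hi fun x hx hl => ?_
      by_contra h1
      exact h ⟨x, hx, hl, h1⟩
    obtain ⟨u₂, hu₂, r₂, ht2, hT2, hFV2⟩ := hH (u i₁) (r i₁) hu1 ht1 c d hc hd hcd hF1 hFT1 hFV1 hx
      hii hc1
    exact W.last_twoF hΩ W' hfree hFTP (le_cadj v N _) hA₁L (cld_cadj v N _) hu₂ ht2 hT2
      hFV2

/-- **THE CORE OF THE TAME LEAF**, the freeness over the fine world and the finite fibres as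
hypotheses. -/
theorem coreF (W : World p v N L ⊤ M) (hΩ : CompleteV v)
    (W' : World p v (cs p v N N M) (cs p v N L M) ⊤ M) (hV : VG v (cs p v N N M) = satp p (VG v N))
    (hfree : ∀ A : IntermediateField k Ω, N ≤ A → A ≤ L → Cld v A →
      FTB p v (PM v L ⊤ M) (PM v A ⊤ M) →
      FVB p v (PM v L ⊤ M) (PM v A ⊤ M) (W'.pj hΩ 0) → FreeB k p v L (PM v A ⊤ M) ⊤ M)
    (hfib : ∀ c : ℝ ⧸ VG v N, {d : ℝ ⧸ VG v N | p • d = c}.Finite)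
    (hfib' : ∀ c : ℝ ⧸ VG v (cs p v N N M), {d : ℝ ⧸ VG v (cs p v N N M) | p • d = c}.Finite)
    (hT : Tow v 3 (PM v N ⊤ M) (PM v L ⊤ M)) : TowR v 3 N L :=
  W.core_ofF hΩ W' hV hfree (ftp p) hfib' (W.h3P hΩ W' hfib hfib') hT

end World

end Pool.Agent.TWIV
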