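import Pool.Agent.Lib.TWV.TameUp

/-!
# E1a: the tame leaf in a field with all the real monomials, `r` tame letters

* `exists_MSv`: monomials `M g` for all the real numbers `g`, `M (v (x i)) = x i` for all `i`;
* `TmV.monGV`: the monomials of a closed field with `r` tame letters;
* `tame_HV`: from the exchange of the letters (`ExV`) and the core (`CorV`).
-/

set_option autoImplicit false

open Polynomial

namespace Pool.Agent.TWV

open Pool.Agent.H15JM (RVal)
open Pool.Agent.LU1 (VPos adj)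
open Pool.Agent.D2 (Ctx0)
open Pool.Agent.D2P (hen clI mem_clI mem_adj_self)
open Pool.Agent.TWM Pool.Agent.TWC Pool.Agent.TWS Pool.Agent.TWIV

universe u

variable {k Ω : Type u} [Field k] [Field Ω] [Algebra k Ω] {v : RVal Ω}
  {L L₁ C : IntermediateField k Ω} {r : ℕ} {x : Fin r → Ω} {p : ℕ}

omit [Field k] [Algebra k Ω] in
/-- **Monomials of all the real values, with `r` prescribed letters.** -/
theorem exists_MSv [IsAlgClosed Ω] {mon : ℝ → Ω} (hmon : MS v ⊤ mon) (hx : ∀ i, x i ≠ 0)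
    (hv : LinearIndependent ℚ fun i => v (x i)) :
    ∃ M : ℝ → Ω, MS v ⊤ M ∧ ∀ i, M (v (x i)) = x i := by
  classical
  let _ : DivisibleBy (Additive (U0 v)) ℤ :=
    divisibleByOfSMulRightSurj _ _ fun {n} hn => U0.surj v hn
  have hB : Module.Baer ℤ (Additive (U0 v)) := Module.Baer.of_divisible _
  have hm0 : ∀ i, mon (v (x i)) ≠ 0 := fun i => hmon.ne _ trivial
  have hu0 : ∀ i, x i / mon (v (x i)) ≠ 0 := fun i => div_ne_zero (hx i) (hm0 i)
  set u : Fin r → U0 v := fun i => ⟨Units.mk0 (x i / mon (v (x i))) (hu0 i), by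
    change v (x i / mon (v (x i))) = 0
    rw [v.map_div (hx i) (hm0 i), hmon.val _ trivial, sub_self]⟩ with hu
  let f : (Fin r → ℤ) →+ ℝ := ∑ i, (zmultiplesHom ℝ (v (x i))).comp (Pi.evalAddMonoidHom _ i)
  have hfa : ∀ m, f m = ∑ i, (m i : ℝ) * v (x i) := by
    intro m
    change (∑ i, (zmultiplesHom ℝ (v (x i))).comp (Pi.evalAddMonoidHom _ i)) m = _
    rw [AddMonoidHom.finsetSum_apply]
    refine Finset.sum_congr rfl fun i _ => ?_
    change (zmultiplesHom ℝ (v (x i))) (m i) = _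
    rw [zmultiplesHom_apply, zsmul_eq_mul]
  have hf : Function.Injective f := by
    rw [injective_iff_map_eq_zero]
    intro m hm
    rw [hfa] at hm
    have h1 := Fintype.linearIndependent_iff.1 hv (fun i => (m i : ℚ)) (by
      rw [← hm]
      exact Finset.sum_congr rfl fun i _ => by rw [Rat.smul_def, Rat.cast_intCast])
    funext i
    exact_mod_cast h1 i
  let g : (Fin r → ℤ) →+ Additive (U0 v) :=
    ∑ i, (zmultiplesHom _ (Additive.ofMul (u i))).comp (Pi.evalAddMonoidHom _ i)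
  obtain ⟨h, hh⟩ := Module.Baer.extension_property_addMonoidHom hB f hf g
  have hhx : ∀ i, h (v (x i)) = Additive.ofMul (u i) := by
    intro i
    have h1 := DFunLike.congr_fun hh (Pi.single i 1)
    change h (f (Pi.single i 1)) = g (Pi.single i 1) at h1
    rw [hfa, Finset.sum_eq_single i (fun j _ hj => by rw [Pi.single_eq_of_ne hj]; simp)
      (fun hj => absurd (Finset.mem_univ i) hj), Pi.single_eq_same, Int.cast_one, one_mul] at h1
    rw [h1]
    change (∑ i, (zmultiplesHom _ (Additive.ofMul (u i))).comp (Pi.evalAddMonoidHom _ i))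
      (Pi.single i 1) = _
    rw [AddMonoidHom.finsetSum_apply, Finset.sum_eq_single i (fun j _ hj => ?_)
      (fun hj => absurd (Finset.mem_univ i) hj)]
    · change (zmultiplesHom _ (Additive.ofMul (u i))) ((Pi.single i (1 : ℤ) : Fin r → ℤ) i) = _
      rw [Pi.single_eq_same, zmultiplesHom_apply, one_zsmul]
    · change (zmultiplesHom _ (Additive.ofMul (u j))) ((Pi.single i (1 : ℤ) : Fin r → ℤ) j) = _
      rw [Pi.single_eq_of_ne hj, map_zero]
  refine ⟨fun γ => mon γ * (((h γ).toMul : U0 v) : Ωˣ), ⟨fun γ _ => ?_, fun γ _ => ?_,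
    fun γ _ δ _ => ?_⟩, fun i => ?_⟩
  · exact mul_ne_zero (hmon.ne γ trivial) (Units.ne_zero _)
  · rw [v.map_mul (hmon.ne γ trivial) (Units.ne_zero _), hmon.val γ trivial,
      show v ((((h γ).toMul : U0 v) : Ωˣ) : Ω) = 0 from ((h γ).toMul : U0 v).2, add_zero]
  · rw [hmon.mul γ trivial δ trivial, map_add, toMul_add, Subgroup.coe_mul, Units.val_mul]
    ring
  · simp only [hhx, toMul_ofMul, hu, Units.val_mk0]
    rw [mul_div_cancel₀ _ (hm0 i)]

section Mon

variable [hp : Fact p.Prime] [CharP Ω p] [IsAlgClosed Ω]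

/-- The monomials of a closed field with `r` tame letters. -/
theorem TmV.monGV (hk : Ctx0 k v) (h : TmV p v L x) {M : ℝ → Ω} (hM : MS v ⊤ M)
    (hMx : ∀ i, M (v (x i)) = x i) : MonG v L ⊤ M := by
  refine ⟨hM, fun g _ hg => ?_⟩
  obtain ⟨n, hn, m, h1⟩ := h.zb.rat g hg
  have h2 : M g ^ n ∈ L := by
    rw [← hM.pow trivial n, h1, ms_monP hM]
    exact prod_mem fun i _ => zpow_mem (by rw [hMx i]; exact h.mem i) _
  refine root_mem p hk h.cld hn (hM.ne g trivial) h2 ?_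
  rw [hM.val g trivial]
  exact hg

end Mon

section Final

variable [hp : Fact p.Prime] [CharP k p] [CharP Ω p] [IsAlgClosed k] [IsAlgClosed Ω]

omit hp [CharP k p] [CharP Ω p] [IsAlgClosed k] [IsAlgClosed Ω] in
/-- The letters are in the closure of the monomials. -/
theorem PM_kx {M : ℝ → Ω} (hMx : ∀ i, M (v (x i)) = x i) :
    PM v (kx k v x) ⊤ M = PM v (⊥ : IntermediateField k Ω) ⊤ M := by
  refine le_antisymm (PM.le_of PM.cld (clI_le' ?_ PM.cld) fun g hg => PM.mon hg)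
    (PM.mono bot_le)
  rw [IntermediateField.adjoin_le_iff]
  rintro _ ⟨i, rfl⟩
  rw [← hMx i]
  exact PM.mon trivial

omit hp [CharP k p] [CharP Ω p] [IsAlgClosed k] [IsAlgClosed Ω] in
theorem mem_kx (i : Fin r) : x i ∈ kx k v x :=
  TWC.self_le_clI v _ (IntermediateField.subset_adjoin _ _ ⟨i, rfl⟩)

/-- **THE TAME LEAF** in a field with all the real monomials, `r` tame letters: with the letters. -/
theorem tame_HV' (hk : Ctx0 k v) (hc : CompleteV v) (hMS : ∃ M : ℝ → Ω, MS v ⊤ M)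
    (hex : ExV k p v) (hcore : CorV k p v) (hT : TmTV p v L r) {g : Ω} (hg : g ^ p ∈ L) :
    ∃ (M : ℝ → Ω) (u : Fin r → Ω), MS v ⊤ M ∧ TmV p v (clI v (adj L g)) u ∧
      (∀ i, M (v (u i)) = u i) ∧
      TowR v 3 (PM v (⊥ : IntermediateField k Ω) (VG v (clI v (adj L g))) M)
        (clI v (adj L g)) := by
  obtain ⟨x, y, s, hx, h2, h1⟩ := hT
  obtain ⟨M₀, hM₀⟩ := hMS
  obtain ⟨M, hM, hMx⟩ := exists_MSv hM₀ hx.ne hx.zb.ind
  set E := PM v (⊥ : IntermediateField k Ω) ⊤ M with hE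
  set C := TWM.cadj v (kx k v x) y with hC
  have hxC : ∀ i, x i ∈ C := fun i => le_cadj v _ _ (mem_kx i)
  have hTC : TmV p v C x := hx.mono h2.le (cld_cadj v _ _) hxC
  -- the tower over the perfect base
  have hTow : Tow v 3 E (PM v L ⊤ M) := by
    have h3 := TowR.pm (hTC.monGV hk hM hMx) (fun s => ⟨M s, PM.mon trivial, hM.ne s trivial,
      hM.val s trivial⟩) (Imm.refl _) h2
    have h4 : PM v C ⊤ M = TWM.cadj v E y := by
      rw [hC, PM.cadj, PM_kx hMx]
    obtain ⟨h5, h6⟩ := TL.scale (h1 M hM hMx) (c := M s) (PM.mon trivial) (hM.ne s trivial)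
      (hM.val s trivial)
    rw [h4, ← h6] at h3
    exact Tow.succ h5 h3
  -- one step up
  set L₁ := clI v (adj L g) with hL₁
  have hLL : L ≤ L₁ := fun a ha => self_le_clI v _ ((mem_adj_self L g).2 ha)
  have hLp : ∀ a ∈ L₁, a ^ p ∈ L := by
    have h3 : L₁ ≤ D2P.rootF p 1 L := by
      refine clI_le' (D2P.adj_le (TWM.le_rootF p L) ((TWM.mem_rootF1 p).2 hg))
        (TWM.cld_rootF p hx.cld)
    exact fun a ha => (TWM.mem_rootF1 p).1 (h3 ha)
  obtain ⟨x', z, u, hx', hMx', hu, hz, hzx, hMu'⟩ := hx.up hk (cld_clI v _) hLL hLp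
  obtain ⟨M', hM', hMu⟩ := exists_MSv hM₀ hu.ne hu.zb.ind
  have h4 := hex r L x' z M M' hx' hz hzx hM hM' (hMx' M hM hMx) (hMu' M' hM' hMu)
    (TowR.of_tow hTow)
  have hMG : MonG v (PM v (⊥ : IntermediateField k Ω) ⊤ M') ⊤ M' :=
    ⟨hM', fun g _ _ => PM.mon trivial⟩
  have h5 := TowR.pm hMG (fun s => ⟨M' s, PM.mon trivial, hM'.ne s trivial,
    hM'.val s trivial⟩) (Imm.refl _) h4
  have e : ∀ A : IntermediateField k Ω, Cld v A → PM v (⊥ : IntermediateField k Ω) ⊤ M' ≤ A →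
      PM v A ⊤ M' = A := fun A hA hA' => le_antisymm
    (PM.le_of hA le_rfl fun g hg => hA' (PM.mon hg)) PM.le
  rw [e _ PM.cld le_rfl, e _ PM.cld (PM.mono bot_le)] at h5
  exact ⟨M', u, hM', hu, hMu, hcore r L₁ u M' hu hM' hMu (tow_up hk hc hM' hLL hLp h5)⟩

/-- **THE TAME LEAF** in a field with all the real monomials, `r` tame letters. -/
theorem tame_HV (hk : Ctx0 k v) (hc : CompleteV v) (hMS : ∃ M : ℝ → Ω, MS v ⊤ M)
    (hex : ExV k p v) (hcore : CorV k p v) (hT : TmTV p v L r) {g : Ω} (hg : g ^ p ∈ L) :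
    ∃ (G : AddSubgroup ℝ) (M : ℝ → Ω) (a : Fin r → ℝ), MS v G M ∧ (∀ i, a i ∈ G) ∧
      LinearIndependent ℚ a ∧ (∀ g ∈ G, g ∈ Submodule.span ℚ (Set.range a)) ∧
      TowR v 3 (PM v (⊥ : IntermediateField k Ω) G M) (clI v (adj L g)) := by
  obtain ⟨M, u, hM, hu, -, h⟩ := tame_HV' hk hc hMS hex hcore hT hg
  refine ⟨_, M, fun i => v (u i), MS.mono hM le_top, hu.zb.mem, hu.zb.ind, fun g hg => ?_, h⟩
  obtain ⟨n, hn, m, hm⟩ := hu.zb.rat g hg
  have hn0 : (n : ℝ) ≠ 0 := by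
    rintro h0
    rw [Nat.cast_eq_zero] at h0
    exact hn (h0 ▸ dvd_zero p)
  have e : g = ∑ i, ((m i : ℚ) / n) • v (u i) := by
    have h1 : ∑ i, ((m i : ℚ) / n) • v (u i) = (∑ i, (m i : ℝ) * v (u i)) / n := by
      rw [Finset.sum_div]
      refine Finset.sum_congr rfl fun i _ => ?_
      rw [Rat.smul_def]
      push_cast
      ring
    rw [h1, ← hm]
    field_simp
  rw [e]
  exact Submodule.sum_mem _ fun i _ => Submodule.smul_mem _ _ (Submodule.subset_span ⟨i, rfl⟩)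

end Final

end Pool.Agent.TWV
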