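import Pool.Agent.Lib.TWV.Defs
import Pool.Agent.Lib.TWIV.TameH

/-!
# E1a: `r` tame letters, purely inseparable extensions of exponent one

* `val_lin93`, `TmV.repl`: a letter may be replaced by a monomial in which it has an exponent prime
  to `p`;
* `TmV.up`: the tame letters of `L₁`, `L₁^p ≤ L ≤ L₁`.
-/

set_option autoImplicit false

open Polynomial

namespace Pool.Agent.TWV

open Pool.Agent.H15JM (RVal)
open Pool.Agent.LU1 (VPos adj)
open Pool.Agent.D2 (Ctx0)
open Pool.Agent.D2P (hen clI mem_clI mem_adj_self)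
open Pool.Agent.TWM Pool.Agent.TWC Pool.Agent.TWS

universe u

variable {k Ω : Type u} [Field k] [Field Ω] [Algebra k Ω] {v : RVal Ω}
  {L L₁ C : IntermediateField k Ω} {r : ℕ} {x : Fin r → Ω} {p : ℕ}

omit [Field k] [Algebra k Ω] in
theorem val_monP {ι : Type*} (s : Finset ι) (x : ι → Ω) (hx : ∀ i, x i ≠ 0) (m : ι → ℤ) :
    v (∏ i ∈ s, x i ^ m i) = ∑ i ∈ s, (m i : ℝ) * v (x i) := by
  rw [v.map_prod s (fun i => x i ^ m i) fun i _ => zpow_ne_zero _ (hx i)]
  exact Finset.sum_congr rfl fun i _ => v.map_zpow (hx i) (m i)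

omit [Field k] [Algebra k Ω] in
theorem ms_monP {ι : Type*} {M : ℝ → Ω} (hM : MS v ⊤ M) (s : Finset ι) (g : ι → ℝ) (m : ι → ℤ) :
    M (∑ i ∈ s, (m i : ℝ) * g i) = ∏ i ∈ s, M (g i) ^ m i := by
  classical
  induction s using Finset.induction_on with
  | empty => rw [Finset.sum_empty, Finset.prod_empty, hM.zero]
  | insert a s ha ih =>
    rw [Finset.sum_insert ha, Finset.prod_insert ha, hM.mul _ trivial _ trivial, ih,
      MS.zpow hM trivial]

theorem TmV.val_mem (h : TmV p v L x) (i : Fin r) : v (x i) ∈ VG v L :=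
  ⟨x i, h.mem i, h.ne i, rfl⟩

theorem TmV.mono (h : TmV p v L x) (hCL : C ≤ L) (hC : Cld v C) (hx : ∀ i, x i ∈ C) :
    TmV p v C x :=
  ⟨hC, hx, h.ne, fun i => ⟨x i, hx i, h.ne i, rfl⟩, h.zb.ind,
    fun g hg => h.zb.rat g (VG.mono hCL hg)⟩

theorem sum_update_mul (c : Fin r → ℤ) (i₀ : Fin r) (x : Fin r → Ω) (w : Ω) :
    ∑ i, (c i : ℝ) * v (Function.update x i₀ w i) =
      (c i₀ : ℝ) * v w + ∑ i ∈ Finset.univ.erase i₀, (c i : ℝ) * v (x i) := by
  rw [← Finset.add_sum_erase _ _ (Finset.mem_univ i₀), Function.update_self]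
  refine congrArg _ (Finset.sum_congr rfl fun i hi => ?_)
  rw [Function.update_of_ne (Finset.ne_of_mem_erase hi)]

/-- A letter may be replaced by a monomial in which it has an exponent prime to `p`. -/
theorem TmV.repl [hp : Fact p.Prime] (h : TmV p v L x) (m : Fin r → ℤ) (i₀ : Fin r)
    (hm : ¬ (p : ℤ) ∣ m i₀) : TmV p v L (Function.update x i₀ (∏ i, x i ^ m i)) := by
  have hw0 : (∏ i, x i ^ m i) ≠ 0 :=
    Finset.prod_ne_zero_iff.2 fun i _ => zpow_ne_zero _ (h.ne i)
  have hw : v (∏ i, x i ^ m i) = ∑ i, (m i : ℝ) * v (x i) := val_monP _ x h.ne m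
  have hm0 : m i₀ ≠ 0 := fun h0 => hm (h0 ▸ dvd_zero _)
  have hmem : ∀ i, Function.update x i₀ (∏ i, x i ^ m i) i ∈ L := fun i => by
    rcases eq_or_ne i i₀ with rfl | hi
    · rw [Function.update_self]
      exact prod_mem fun j _ => zpow_mem (h.mem j) _
    · rw [Function.update_of_ne hi]
      exact h.mem i
  have hne : ∀ i, Function.update x i₀ (∏ i, x i ^ m i) i ≠ 0 := fun i => by
    rcases eq_or_ne i i₀ with rfl | hi
    · rwa [Function.update_self]
    · rw [Function.update_of_ne hi]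
      exact h.ne i
  refine ⟨h.cld, hmem, hne, fun i => ⟨_, hmem i, hne i, rfl⟩, ?_, fun g hg => ?_⟩
  · have e : (fun i => v (Function.update x i₀ (∏ i, x i ^ m i) i)) =
        Function.update (fun i => v (x i)) i₀ (v (∏ i, x i ^ m i)) := by
      funext i
      rcases eq_or_ne i i₀ with rfl | hi
      · rw [Function.update_self, Function.update_self]
      · rw [Function.update_of_ne hi, Function.update_of_ne hi]
    rw [e]
    refine h.zb.ind.update i₀ _ ⟨1, one_mem _, Finsupp.equivFunOnFinite.symm fun i => (m i : ℚ), ?_, ?_⟩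
    · rw [mem_nonZeroDivisors_iff_ne_zero, Finsupp.equivFunOnFinite_symm_apply_apply]
      exact_mod_cast hm0
    · rw [one_smul, hw, Finsupp.linearCombination_apply, Finsupp.sum_fintype _ _ fun i => zero_smul ℚ (v (x i))]
      refine Finset.sum_congr rfl fun i _ => ?_
      rw [Finsupp.equivFunOnFinite_symm_apply_apply, Rat.smul_def, Rat.cast_intCast]
  · obtain ⟨n, hn, c, hc⟩ := h.zb.rat g hg
    have hab : ((m i₀).natAbs : ℤ) = (m i₀).sign * m i₀ := by
      rw [mul_comm, Int.mul_sign_self]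
    have habR : ((m i₀).natAbs : ℝ) = ((m i₀).sign : ℝ) * (m i₀ : ℝ) := by
      rw [← Int.cast_natCast (R := ℝ), hab, Int.cast_mul]
    refine ⟨(m i₀).natAbs * n, fun h1 => ?_, fun i => if i = i₀ then (m i₀).sign * c i₀ else
      (m i₀).sign * (m i₀ * c i - c i₀ * m i), ?_⟩
    · rcases (Nat.Prime.dvd_mul hp.out).1 h1 with h2 | h2
      · exact hm (Int.natCast_dvd.2 h2)
      · exact hn h2
    · rw [sum_update_mul, hw]
      rw [← Finset.add_sum_erase _ (fun i => (c i : ℝ) * v (x i)) (Finset.mem_univ i₀)] at hc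
      rw [← Finset.add_sum_erase _ (fun i => (m i : ℝ) * v (x i)) (Finset.mem_univ i₀), if_pos rfl]
      have e : ∑ i ∈ Finset.univ.erase i₀, (((if i = i₀ then (m i₀).sign * c i₀ else
          (m i₀).sign * (m i₀ * c i - c i₀ * m i) : ℤ)) : ℝ) * v (x i) =
          ((m i₀).sign : ℝ) * ((m i₀ : ℝ) * ∑ i ∈ Finset.univ.erase i₀, (c i : ℝ) * v (x i)) -
          ((m i₀).sign : ℝ) * ((c i₀ : ℝ) * ∑ i ∈ Finset.univ.erase i₀, (m i : ℝ) * v (x i)) := by
        rw [Finset.mul_sum, Finset.mul_sum, Finset.mul_sum, Finset.mul_sum,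
          ← Finset.sum_sub_distrib]
        refine Finset.sum_congr rfl fun i hi => ?_
        rw [if_neg (Finset.ne_of_mem_erase hi)]
        push_cast
        ring
      rw [e]
      push_cast
      rw [habR]
      linear_combination ((m i₀).sign : ℝ) * (m i₀ : ℝ) * hc

/-- `p`-th roots up to `1 + (> 0)`. -/
theorem exists_rootP [hp : Fact p.Prime] [IsAlgClosed k] (hk : Ctx0 k v) {z : Ω} (hz : z ≠ 0)
    (hd : v z / p ∈ VG v L₁) : ∃ u ∈ L₁, u ≠ 0 ∧ Gt v (v z) (u ^ p - z) ∧ p * v u = v z := by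
  have hp0 : (p : ℝ) ≠ 0 := Nat.cast_ne_zero.2 hp.out.ne_zero
  obtain ⟨a, ha, ha0, hva⟩ := hd
  have hap : a ^ p ≠ 0 := pow_ne_zero _ ha0
  have hvap : v (a ^ p) = v z := by
    rw [v.map_pow ha0, hva]
    field_simp
  have hq0 : z / a ^ p ≠ 0 := div_ne_zero hz hap
  have hq : v (z / a ^ p) = 0 := by rw [v.map_div hz hap, hvap, sub_self]
  obtain ⟨c, hc, hc1⟩ := hk.res _ hq0 hq
  obtain ⟨d, hd⟩ := IsAlgClosed.exists_pow_nat_eq c hp.out.pos
  have hd0 : d ≠ 0 := by
    rintro rfl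
    rw [zero_pow hp.out.ne_zero] at hd
    exact hc hd.symm
  have hd0' : algebraMap k Ω d ≠ 0 := by rwa [Ne, _root_.map_eq_zero]
  refine ⟨algebraMap k Ω d * a, mul_mem (L₁.algebraMap_mem d) ha, mul_ne_zero hd0' ha0, ?_, ?_⟩
  · have e : (algebraMap k Ω d * a) ^ p - z = -(a ^ p * (z / a ^ p - algebraMap k Ω c)) := by
      rw [mul_pow, ← map_pow, hd]
      field_simp
      ring
    rw [e]
    intro h0
    have h1 : z / a ^ p - algebraMap k Ω c ≠ 0 := fun h2 => h0 (by rw [h2, mul_zero, neg_zero])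
    rw [v.map_neg _ (mul_ne_zero hap h1), v.map_mul hap h1, hvap]
    have := hc1 h1
    linarith
  · rw [v.map_mul hd0' ha0, hk.triv d hd0, zero_add, hva]
    field_simp

/-- Letters of `L` adapted to the values of `L₁`. -/
theorem TmV.exists_split [hp : Fact p.Prime] (hLp : ∀ a ∈ L₁, a ^ p ∈ L)
    (P : (Fin r → Ω) → Prop) (hP : ∀ (z : Fin r → Ω) (m : Fin r → ℤ) (i₀ : Fin r), TmV p v L z →
      P z → P (Function.update z i₀ (∏ i, z i ^ m i)))
    (n : ℕ) : ∀ (J : Finset (Fin r)) (x : Fin r → Ω), J.card + n = r → TmV p v L x → P x →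
      (∀ i ∈ J, v (x i) / p ∈ VG v L₁) →
    ∃ (J : Finset (Fin r)) (x : Fin r → Ω), TmV p v L x ∧ P x ∧
      (∀ i ∈ J, v (x i) / p ∈ VG v L₁) ∧
      ∀ g ∈ VG v L₁, ∃ n : ℕ, ¬ p ∣ n ∧ ∃ m : Fin r → ℤ,
        (n : ℝ) * g = ∑ i, (m i : ℝ) * (if i ∈ J then v (x i) / p else v (x i)) := by
  have hp0 : (p : ℝ) ≠ 0 := Nat.cast_ne_zero.2 hp.out.ne_zero
  have hval : ∀ g ∈ VG v L₁, (p : ℝ) * g ∈ VG v L := by
    rintro g ⟨a, ha, ha0, rfl⟩
    exact ⟨a ^ p, hLp a ha, pow_ne_zero _ ha0, v.map_pow ha0 p⟩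
  induction n with
  | zero =>
    intro J x hJ hx hPx hJx
    refine ⟨J, x, hx, hPx, hJx, fun g hg => ?_⟩
    have hJu : J = Finset.univ := by
      rw [← Finset.card_eq_iff_eq_univ, Fintype.card_fin]
      exact hJ
    obtain ⟨n, hn, m, hm⟩ := hx.zb.rat _ (hval g hg)
    refine ⟨n, hn, m, ?_⟩
    have e : ∀ i, (m i : ℝ) * (if i ∈ J then v (x i) / p else v (x i)) =
        (m i : ℝ) * v (x i) / p := fun i => by
      rw [if_pos (hJu ▸ Finset.mem_univ i)]
      ring
    rw [Finset.sum_congr rfl fun i _ => e i, ← Finset.sum_div, ← hm]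
    field_simp
  | succ n ih =>
    intro J x hJ hx hPx hJx
    by_cases hall : ∀ g ∈ VG v L₁, ∃ n : ℕ, ¬ p ∣ n ∧ ∃ m : Fin r → ℤ,
        (n : ℝ) * g = ∑ i, (m i : ℝ) * (if i ∈ J then v (x i) / p else v (x i))
    · exact ⟨J, x, hx, hPx, hJx, hall⟩
    · push Not at hall
      obtain ⟨g, hg, hg'⟩ := hall
      obtain ⟨n₁, hn₁, m, hm⟩ := hx.zb.rat _ (hval g hg)
      -- some exponent outside `J` is prime to `p`
      obtain ⟨i₀, hi₀, hmi⟩ : ∃ i₀, i₀ ∉ J ∧ ¬ (p : ℤ) ∣ m i₀ := by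
        by_contra hcon
        push Not at hcon
        refine hg' n₁ hn₁ (fun i => if i ∈ J then m i else m i / p) ?_
        have e : ∀ i, ((if i ∈ J then m i else m i / p : ℤ) : ℝ) *
            (if i ∈ J then v (x i) / p else v (x i)) = (m i : ℝ) * v (x i) / p := fun i => by
          by_cases hi : i ∈ J
          · rw [if_pos hi, if_pos hi]
            ring
          · rw [if_neg hi, if_neg hi, Int.cast_div (hcon i hi) (by exact_mod_cast hp0)]
            push_cast
            ring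
        rw [Finset.sum_congr rfl fun i _ => e i, ← Finset.sum_div, ← hm]
        field_simp
      -- the new letter
      set m' : Fin r → ℤ := fun i => if i ∈ J then 0 else m i with hm'
      have hm'i : m' i₀ = m i₀ := if_neg hi₀
      have hx' := hx.repl m' i₀ (by rwa [hm'i])
      have hw : v (∏ i, x i ^ m' i) / p ∈ VG v L₁ := by
        rw [val_monP _ x hx.ne m']
        have e : (∑ i, (m' i : ℝ) * v (x i)) / p =
            (n₁ : ℤ) • g - ∑ i ∈ J, m i • (v (x i) / p) := by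
          have h1 : ∀ i, (m i : ℝ) * v (x i) = (m' i : ℝ) * v (x i) +
              (if i ∈ J then (m i : ℝ) * v (x i) else 0) := fun i => by
            by_cases hi : i ∈ J
            · simp [hm', hi]
            · simp [hm', hi]
          have h2 := hm
          rw [Finset.sum_congr rfl fun i _ => h1 i, Finset.sum_add_distrib,
            Finset.sum_ite_mem, Finset.univ_inter] at h2
          have h3 : ∑ i ∈ J, m i • (v (x i) / p) = (∑ i ∈ J, (m i : ℝ) * v (x i)) / p := by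
            rw [Finset.sum_div]
            refine Finset.sum_congr rfl fun i _ => ?_
            rw [zsmul_eq_mul]
            ring
          rw [h3, zsmul_eq_mul, Int.cast_natCast, eq_sub_iff_add_eq, ← add_div, ← h2]
          field_simp
        rw [e]
        exact (VG v L₁).sub_mem ((VG v L₁).zsmul_mem hg _)
          ((VG v L₁).sum_mem fun i hi => (VG v L₁).zsmul_mem (hJx i hi) _)
      refine ih (insert i₀ J) _ ?_ hx' (hP x m' i₀ hx hPx) fun i hi => ?_
      · rw [Finset.card_insert_of_notMem hi₀]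
        omega
      · rcases eq_or_ne i i₀ with rfl | hne
        · rwa [Function.update_self]
        · rw [Function.update_of_ne hne]
          exact hJx i (Finset.mem_of_mem_insert_of_ne hi hne)

/-- **Letters for `L₁`, `L₁^p ≤ L ≤ L₁`.** -/
theorem TmV.up [hp : Fact p.Prime] [IsAlgClosed k] (hk : Ctx0 k v) (h : TmV p v L x)
    (hL : Cld v L₁) (hLL : L ≤ L₁) (hLp : ∀ a ∈ L₁, a ^ p ∈ L) :
    ∃ x' z u : Fin r → Ω, TmV p v L x' ∧
      (∀ M : ℝ → Ω, MS v ⊤ M → (∀ i, M (v (x i)) = x i) → ∀ i, M (v (x' i)) = x' i) ∧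
      TmV p v L₁ u ∧ (∀ i, z i ∈ L) ∧ (∀ i, Gt v (v (x' i)) (z i - x' i)) ∧
      ∀ M : ℝ → Ω, MS v ⊤ M → (∀ i, M (v (u i)) = u i) → ∀ i, M (v (x' i)) = z i := by
  classical
  have hp0 : (p : ℝ) ≠ 0 := Nat.cast_ne_zero.2 hp.out.ne_zero
  obtain ⟨J, x', hx', hP, hJ, hrat⟩ := TmV.exists_split (L₁ := L₁) hLp
    (fun z => ∀ M : ℝ → Ω, MS v ⊤ M → (∀ i, M (v (x i)) = x i) → ∀ i, M (v (z i)) = z i)
    (fun z m i₀ hz hPz M hM hMx i => by
      rcases eq_or_ne i i₀ with rfl | hi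
      · rw [Function.update_self, val_monP _ z hz.ne m, ms_monP hM]
        exact Finset.prod_congr rfl fun j _ => by rw [hPz M hM hMx j]
      · rw [Function.update_of_ne hi]
        exact hPz M hM hMx i)
    r ∅ x (by simp) h (fun M _ hMx => hMx) (fun i hi => absurd hi (Finset.notMem_empty i))
  have hroot : ∀ i, ∃ u ∈ L₁, u ≠ 0 ∧ (i ∈ J → Gt v (v (x' i)) (u ^ p - x' i) ∧
      p * v u = v (x' i)) ∧ (i ∉ J → u = x' i) := by
    intro i
    by_cases hi : i ∈ J
    · obtain ⟨u, hu, hu0, h1, h2⟩ := exists_rootP (p := p) hk (hx'.ne i) (hJ i hi)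
      exact ⟨u, hu, hu0, fun _ => ⟨h1, h2⟩, fun h3 => absurd hi h3⟩
    · exact ⟨x' i, hLL (hx'.mem i), hx'.ne i, fun h3 => absurd h3 hi, fun _ => rfl⟩
  choose u hu hu0 hu1 hu2 using hroot
  have hvu : ∀ i, v (u i) = if i ∈ J then v (x' i) / p else v (x' i) := by
    intro i
    by_cases hi : i ∈ J
    · rw [if_pos hi, ← (hu1 i hi).2]
      field_simp
    · rw [if_neg hi, hu2 i hi]
  refine ⟨x', fun i => if i ∈ J then u i ^ p else x' i, u, hx', hP,
    ⟨hL, hu, hu0, fun i => ⟨u i, hu i, hu0 i, rfl⟩, ?_, fun g hg => ?_⟩, fun i => ?_, fun i => ?_, fun M hM hMu i => ?_⟩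
  · have e : (fun i => v (u i)) = fun i =>
        ((if i ∈ J then (p : ℚ)⁻¹ else 1 : ℚ)) • v (x' i) := by
      funext i
      rw [hvu i]
      by_cases hi : i ∈ J
      · rw [if_pos hi, if_pos hi, Rat.smul_def]
        push_cast
        ring
      · rw [if_neg hi, if_neg hi, one_smul]
    have hpQ : (p : ℚ) ≠ 0 := Nat.cast_ne_zero.2 hp.out.ne_zero
    rw [e]
    have h1 := hx'.zb.ind.units_smul fun i => if i ∈ J then (Units.mk0 (p : ℚ) hpQ)⁻¹ else 1
    convert h1 using 2 with i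
    change _ = ((if i ∈ J then (Units.mk0 (p : ℚ) hpQ)⁻¹ else 1 : ℚˣ) : ℚ) • v (x' i)
    congr 1
    by_cases hi : i ∈ J
    · rw [if_pos hi, if_pos hi, Units.val_inv_eq_inv_val, Units.val_mk0]
    · rw [if_neg hi, if_neg hi, Units.val_one]
  · obtain ⟨n, hn, m, hm⟩ := hrat g hg
    exact ⟨n, hn, m, by rw [hm]; exact Finset.sum_congr rfl fun i _ => by rw [hvu i]⟩
  · by_cases hi : i ∈ J
    · simp only [hi, if_true]
      exact hLp _ (hu i)
    · simp only [hi, if_false]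
      exact hx'.mem i
  · by_cases hi : i ∈ J
    · simp only [hi, if_true]
      exact (hu1 i hi).1
    · simp only [hi, if_false, sub_self]
      exact fun h0 => absurd rfl h0
  · by_cases hi : i ∈ J
    · simp only [hi, if_true]
      rw [← (hu1 i hi).2, hM.pow trivial p, hMu i]
    · simp only [hi, if_false]
      rw [← hu2 i hi]
      exact hMu i

end Pool.Agent.TWV
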