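import Pool.Agent.Lib.TWV.Leaf
import Pool.Agent.Lib.TWV.Grp
import Pool.Agent.Lib.TWV.ExV
import Pool.Agent.Lib.TWV.CorV
import Pool.Agent.Lib.TWV.TameHV
import Pool.Agent.Lib.TWV.ExitV
import Pool.Agent.Lib.TWIV.TameTop

/-!
# TANK W, tame value groups of any rational rank: the tame leaf

* `corTV`, `corVs`: the core;
* `tmTV_of_tw2V`: the class `TmTV` in the larger field;
* `tameLeafV_of`: `TameLeafV p k` from `FFV p k`.
-/

set_option autoImplicit false

open Polynomial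

namespace Pool.Agent.TWV

open Pool.Agent.H15JM (RVal)
open Pool.Agent.LU1 (adj)
open Pool.Agent.D2 (Ctx0)
open Pool.Agent.D2P (clI mem_adj_self)
open Pool.Agent.TW (Ctx Full BD HRone full_of_alg)
open Pool.Agent.TWM (TL CompleteV Cld MS Dense cadj cld_clI clI_adj_clI)
open Pool.Agent.TWC (towR_le towR_map vg_map)
open Pool.Agent.TWS (VG TowR PM IsoE HF hv)
open Pool.Agent.TWF (ClE)

universe u

section

variable (p : ℕ) [hp : Fact p.Prime] {k Ω : Type u} [Field k] [IsAlgClosed k] [CharP k p]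
  [Field Ω] [Algebra k Ω] [IsAlgClosed Ω] [CharP Ω p] {v : RVal Ω} {K₀ : IntermediateField k Ω}
  {r : ℕ}

omit [CharP k p] [IsAlgClosed k] [IsAlgClosed Ω] [CharP Ω p] hp in
theorem kx_map {H : Type u} [Field H] [Algebra k H] {w : RVal H} (hc : CompleteV v)
    {φ : Ω →ₐ[k] H} (hI : IsoE v w φ) (x : Fin r → Ω) :
    (kx k v x).map φ = kx k w fun i => φ (x i) := by
  rw [kx, kx, ← hI.clI_map hc, IntermediateField.adjoin_map]
  congr 2
  rw [← Set.range_comp]
  rfl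

omit hp [IsAlgClosed k] in
/-- The class `TmTV` in the larger field. -/
theorem tmTV_of_tw2V {H : Type u} [Field H] [Algebra k H] [IsAlgClosed H] {w : RVal H}
    (hF : FFV p k) (h : Ctx k v r) (hc : CompleteV v) (hw : Ctx0 k w) (hcw : CompleteV w)
    {φ : Ω →ₐ[k] H} (hI : IsoE v w φ) {L : IntermediateField k Ω}
    (hL : TW2V p k r v L) (hz : ∃ a : Fin r → ℝ, ZB p (VG v L) a) : TmTV p w (L.map φ) r := by
  have : CharP H p := charP_of_injective_algebraMap (algebraMap k H).injective p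
  obtain ⟨C₁, C, hfg, hfull, htr, hbd, heq, hT⟩ := hL
  have hvg : VG v L = VG v C := TWF.vg_tower hT
  rw [hvg] at hz
  obtain ⟨x, y, s, hx, hx0, hzb, hy, hC, hTL⟩ := hF Ω H v w r h hc hw hcw φ hI C₁ C hfg
    hfull htr hbd heq hz
  have hCL : C ≤ L := towR_le hT
  have hval : ∀ i, w (φ (x i)) = v (x i) := fun i => hI.val _ (hx0 i)
  refine ⟨fun i => φ (x i), φ y, s, ⟨?_, ?_, ?_, ?_⟩, ?_, ?_⟩
  · exact (hI.cld_iff hc).2 hT.cld
  · exact fun i => ⟨x i, hCL (hx i), rfl⟩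
  · exact fun i => (map_ne_zero_iff φ φ.injective).2 (hx0 i)
  · rw [vg_map hI, hvg]
    simp only [hval]
    exact hzb
  · have e1 : cadj w (kx k w fun i => φ (x i)) (φ y) = C.map φ := by
      rw [hC, ← kx_map hc hI, hI.cadj_map hc]
    rw [e1]
    exact towR_map hI hc hT
  · intro M hM hMx
    simp only [hval] at hMx
    exact hTL M hM hMx

end

/-- The core. -/
theorem corTV {k Ω : Type u} [Field k] [Field Ω] [Algebra k Ω] {v : RVal Ω} {p : ℕ}
    [Fact p.Prime] [CharP k p] [CharP Ω p] [IsAlgClosed k] [IsAlgClosed Ω] (hk : Ctx0 k v)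
    (hc : CompleteV v) : CorV k p v := by
  intro r L x M hL hM hMx hT
  obtain ⟨R, hR, -⟩ := hL.zb.exists_rps
  exact cor_of hk hc hL.cld (hL.monL p hk hM hMx) hL.zb.ind hL.zb.rat hR hT

/-- The core, in the complete fields with real monomials. -/
theorem corVs (p : ℕ) [Fact p.Prime] (k : Type u) [Field k] [IsAlgClosed k] [CharP k p] :
    CorVs p k := fun _ _ _ _ _ _ hk hc _ => corTV hk hc

/-- **The tame leaf.** -/
theorem tameLeafV_of (p : ℕ) [hp : Fact p.Prime] (k : Type u) [Field k] [IsAlgClosed k]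
    [CharP k p] (hF : FFV p k) : TameLeafV p k := by
  intro Ω _ _ _ _ v r hc K₀ hK hΩ htr hBDK hH' hP g hg hBD
  rcases coverV p hc hK hΩ htr hBDK hH' hg hBD with h1 | h1
  · exact h1
  obtain ⟨Ω', iF, iA, ι, v', iC, h2, h3, h4⟩ := h1
  have hp0 : 0 < p := hp.out.pos
  have : CharP Ω' p := Dense.charP ι p
  have hc' : Ctx k v' r := h3.ctx hc
  obtain ⟨φ, hφ⟩ := TWS.exists_emb hc'.toCtx0
  have hI : IsoE v' (hv k) φ := ⟨hφ⟩
  have : CharP (HF k) p := charP_of_injective_algebraMap (algebraMap k (HF k)).injective p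
  have hvg : VG v' (clI v' (K₀.map ι)) = VG v K₀ := by
    have h5 : IsoE v v' ι := ⟨h3.val⟩
    rw [VG.clI, vg_map h5]
  have hz' : ∃ a : Fin r → ℝ, ZB p (VG v' (clI v' (K₀.map ι))) a := by
    rw [hvg]
    exact exists_zb_of_pf hc (full_of_alg hΩ) hP
  have h5 := tmTV_of_tw2V p hF hc' h2 (TWS.ctx0_hv k) (TWS.completeV_hv k) hI h4 hz'
  obtain ⟨G, M, a, hM, ha, hai, hG, h6⟩ := tame_HV (TWS.ctx0_hv k) (TWS.completeV_hv k)
    ⟨_, TWS.ms_hv k⟩ (exV p (TWS.ctx0_hv k) (TWS.completeV_hv k))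
    (corTV (p := p) (TWS.ctx0_hv k) (TWS.completeV_hv k)) h5 (g := φ (ι g))
    ⟨(ι g) ^ p, TWM.le_clI _ ⟨g ^ p, hg, map_pow ι g p⟩, map_pow φ (ι g) p⟩
  refine hrone_of_moncV p hc (m := 2) le_rfl (D2P.fg_adj hK g)
    ((full_of_alg hΩ).mono (mem_adj_self K₀ g).2) ?_ hBD
    ⟨Ω', iF, iA, ι, v', iC, HF k, inferInstance, inferInstance, inferInstance, φ, hv k, h2, h3,
      TWS.ctx0_hv k, TWS.completeV_hv k, hI, G, M, a, hM, ha, hai, hG, ?_⟩
  · refine (TW.trdeg_eq_of_alg (mem_adj_self K₀ g).2 (D2P.isAlgebraic_sup {g} ?_)).trans htr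
    rintro s rfl
    exact D2P.isAlgebraic_of_pow hp0 (D2P.isAlgebraic_of_mem hg)
  · have e1 : clI (hv k) (adj ((clI v' (K₀.map ι)).map φ) (φ (ι g))) =
        clI (hv k) (((adj K₀ g).map ι).map φ) := by
      rw [← TWM.Dense.adj_map, hI.clI_map h2, hI.clI_map h2, TWM.Dense.adj_map]
      congr 1
      exact clI_adj_clI
    rw [← e1]
    exact h6

end Pool.Agent.TWV
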